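import Pool.Agent.H84.IT.Noise
import Pool.Agent.H33.QB.Multi

set_option autoImplicit false

/-!
Rows IT_QBa, IT_QBb. The quadratic theorem without the logarithm.

QBa (`base`): follow `Pool/Agent/Results/MP_169871_nt/QuadraticBohr.lean` (`base`):
`exists_state` (weight `16 L`), `exists_noise` with a larger `i`: `i = ⌈c1 log (L+2)⌉₊`, `n = 2^i/8`
(`n √mi ≤ 1/8`), `M = 16 L^2 + 512 i L^2 ≤ C0 L^2 log (L+2)` (take `M = C0 (L+2)^2 log (L+2) ≥ 1`
or so), `q = ⌈C1 (L+2)^2⌉₊` with `6 M ≤ q log q`, `η = 1/(64*257*M*q^4)`, `K = exp L`,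
`K (1-η)^n ≤ exp (L - η n) ≤ 1/64` as `n ≥ (L+5)/η` (`2^i ≥ (L+2)^13 * C2`: choose `c1` large).
`gl` and `mem_of_noise` (`1/(4q) ≤ 1/250`). Rank `≤ 15 M / log q + 2 ≤ C L^2` (`log q ≥ log (L+2)`,
`L ≥ 1/2`), radius `1/(4q) ≥ c/(L+2)^2`.
QBb: from the radius `c/(L+2)^2` to every radius with `Pool.Agent.H33.QB.multi` and `params`, as in
the proof of `result` in `QuadraticBohr.lean`.
-/

namespace Pool.H84.IT

open Pool.H84.CP Pool.Agent.H18
open scoped Pointwise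

theorem QB_start {N : ℕ} [NeZero N] (A : Finset (ZMod N)) (hA : A.Nonempty) :
    Qf (gA A) (unif (-A)) (unif A) = 1 := by
  unfold Qf
  have h1 : ∀ x w : ZMod N, unif (-A) x * unif A w * gA A (x + w)
      = unif (-A) x * unif A w := by
    intro x w
    by_cases hx : x ∈ -A
    · by_cases hw : w ∈ A
      · have h2 : x + w ∈ A - A := by
          rw [Finset.mem_neg'] at hx
          exact Finset.mem_sub.mpr ⟨w, hw, -x, hx, by ring⟩
        unfold gA
        rw [if_pos h2, mul_one]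
      · have : unif A w = 0 := by unfold unif; rw [if_neg hw]
        rw [this]; ring
    · have : unif (-A) x = 0 := by unfold unif; rw [if_neg hx]
      rw [this]; ring
  simp_rw [h1, ← Finset.mul_sum, sum_unif A hA, mul_one]
  exact sum_unif _ hA.neg

theorem QB_exp5 : Real.exp (-5) ≤ 1 / 64 := by
  have h1 : (64 : ℝ) ≤ Real.exp 5 := by
    have h2 : (2.7182818283 : ℝ) < Real.exp 1 := Real.exp_one_gt_d9
    have h3 : Real.exp 5 = (Real.exp 1) ^ 5 := by
      rw [← Real.exp_nat_mul]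
      norm_num
    rw [h3]
    calc (64 : ℝ) ≤ (2.7182818283 : ℝ) ^ 5 := by norm_num
      _ ≤ _ := pow_le_pow_left₀ (by norm_num) h2.le 5
  rw [Real.exp_neg, one_div]
  exact inv_anti₀ (by norm_num) h1

theorem quad_base :
    ∃ C : ℝ, 0 < C ∧ ∃ c : ℝ, 0 < c ∧
      ∀ N : ℕ, 0 < N → ∀ A : Finset (ZMod N), A.Nonempty →
        (A.card : ℝ) / (N : ℝ) ≤ 1 / 2 →
        ∀ L : ℝ, L = Real.log ((N : ℝ) / (A.card : ℝ)) →
          ∃ Γ : Finset (ZMod N), ∃ ε : ℝ, 0 < ε ∧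
            (Γ.card : ℝ) ≤ C * L ^ 2 ∧ c / (L + 2) ^ 2 ≤ ε ∧
            ∀ x : ZMod N,
              (∀ γ ∈ Γ,
                |((γ * x).val : ℝ) / (N : ℝ) - ((round (((γ * x).val : ℝ) / (N : ℝ)) : ℤ) : ℝ)|
                  ≤ ε) →
              ∃ a₁ ∈ A, ∃ a₂ ∈ A, ∃ a₃ ∈ A, ∃ a₄ ∈ A, x = a₁ + a₂ - a₃ - a₄ := by
  refine ⟨16000000, by norm_num, 1 / 80000000, by norm_num, ?_⟩
  intro N hN0 A hA hdens L hL
  have : NeZero N := ⟨hN0.ne'⟩
  have hN : (0 : ℝ) < N := by exact_mod_cast hN0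
  have hc : (0 : ℝ) < A.card := by exact_mod_cast hA.card_pos
  have hlog2 := Real.log_two_gt_d9
  have hlog2' := Real.log_two_lt_d9
  have hLlow : 1 / 2 ≤ L := by
    have h1 : (2 : ℝ) ≤ (N : ℝ) / A.card := by
      rw [le_div_iff₀ hc]
      rw [div_le_iff₀ hN] at hdens
      linarith
    have h2 := Real.log_le_log (by norm_num) h1
    rw [hL]; linarith
  have hL0 : 0 < L := by linarith
  have hLdiff : L = Real.log N - Real.log A.card := by
    rw [hL, Real.log_div hN.ne' hc.ne']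
  have huA : IsPr (unif A) := ⟨unif_nonneg _, sum_unif _ hA⟩
  have hunA : IsPr (unif (-A)) := ⟨unif_nonneg _, sum_unif _ hA.neg⟩
  have hΛ0 : 0 < 16 * L := by positivity
  obtain ⟨ν₁, ν₂, hν₁, hν₂, hgain, hst⟩ := exists_state (unif (-A)) (unif A) (gA A) (16 * L)
    hunA huA hΛ0.le (gA_nonneg A) (gA_le_one A)
  have hπP : IsPr (cnv ν₁ (unif (-A))) := hν₁.cnv hunA
  have hωP : IsPr (cnv ν₂ (unif A)) := hν₂.cnv huA
  have hentA : entT (unif A) = Real.log A.card := ent_unif A hA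
  have hentnA : entT (unif (-A)) = Real.log A.card := by
    have := ent_unif (-A) hA.neg
    rw [Finset.card_neg] at this
    exact this
  have hle : ∀ p : ZMod N → ℝ, IsPr p → entT p ≤ Real.log N := by
    intro p hp
    have h3 := ent_le_log_card p hp.1 hp.2 Finset.univ (fun x _ => Finset.mem_univ x)
    rw [Finset.card_univ, ZMod.card] at h3
    exact h3
  have hQ : 7 / 8 ≤ Qf (gA A) (cnv ν₁ (unif (-A))) (cnv ν₂ (unif A)) := by
    rw [QB_start A hA, hentA, hentnA] at hgain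
    have h1 := hle _ hπP
    have h2 := hle _ hωP
    have h3 : 16 * L * (7 / 8) ≤ 16 * L * Qf (gA A) (cnv ν₁ (unif (-A))) (cnv ν₂ (unif A)) := by linarith
    exact le_of_mul_le_mul_left h3 hΛ0
  have hLπ : Real.log (Fintype.card (ZMod N)) - entT (cnv ν₁ (unif (-A))) ≤ L := by
    rw [ZMod.card]
    have h1 : entT (unif (-A)) ≤ entT (cnv ν₁ (unif (-A))) := ent_le_ent_cnv _ _ hν₁.1 hν₁.2 hunA.1
    rw [hentnA] at h1
    linarith
  -- parameters
  obtain ⟨T, hT⟩ : ∃ T : ℝ, T = L + 2 := ⟨_, rfl⟩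
  obtain ⟨ℓ, hℓ⟩ : ∃ ℓ : ℝ, ℓ = Real.log T := ⟨_, rfl⟩
  have hT2 : 2 ≤ T := by linarith
  have hT0 : 0 < T := by linarith
  have hLT : L ≤ T := by linarith
  have hℓ1 : 1 / 2 ≤ ℓ := by
    have h1 : Real.log 2 ≤ ℓ := by
      rw [hℓ]
      exact Real.log_le_log (by norm_num) hT2
    linarith
  have hℓ0 : 0 < ℓ := by linarith
  have hℓT : ℓ ≤ T := by
    rw [hℓ]
    exact (Real.log_le_sub_one_of_pos hT0).trans (by linarith)
  have hexpl : Real.exp ℓ = T := by rw [hℓ, Real.exp_log hT0]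
  obtain ⟨m, hm⟩ : ∃ m : ℕ, m = ⌈2 * ℓ⌉₊ := ⟨_, rfl⟩
  have hm1 : 2 * ℓ ≤ m := by
    rw [hm]
    exact Nat.le_ceil _
  have hm2 : (m : ℝ) ≤ 4 * ℓ := by
    have h1 := (Nat.ceil_lt_add_one (by linarith : (0 : ℝ) ≤ 2 * ℓ)).le
    rw [← hm] at h1
    linarith
  have hTm : T ≤ 2 ^ m := by
    have h1 : (2 : ℝ) ^ m = Real.exp (m * Real.log 2) := by
      rw [← Real.exp_log (by norm_num : (0 : ℝ) < 2), ← Real.exp_nat_mul, Real.exp_log (by norm_num)]
    rw [h1, ← hexpl]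
    refine Real.exp_le_exp.2 ?_
    have h2 : 2 * ℓ * (1 / 2) ≤ m * Real.log 2 := by
      refine mul_le_mul hm1 (by linarith) (by norm_num) (Nat.cast_nonneg _)
    linarith
  obtain ⟨M, hM⟩ : ∃ M : ℝ, M = 1000000 * (L ^ 2 * ℓ) := ⟨_, rfl⟩
  obtain ⟨q, hq⟩ : ∃ q : ℕ, q = ⌈10000000 * T ^ 2⌉₊ := ⟨_, rfl⟩
  have hL2 : 1 / 4 ≤ L ^ 2 := by nlinarith
  have hX : 1 / 8 ≤ L ^ 2 * ℓ := by
    calc (1 : ℝ) / 8 = 1 / 4 * (1 / 2) := by norm_num
      _ ≤ L ^ 2 * ℓ := mul_le_mul hL2 hℓ1 (by norm_num) (by positivity)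
  have hM1 : 1 ≤ M := by linarith
  have hM0 : 0 < M := by linarith
  have hMT : M ≤ 1000000 * T ^ 3 := by
    rw [hM]
    have h1 : L ^ 2 * ℓ ≤ T ^ 2 * T := by
      refine mul_le_mul (pow_le_pow_left₀ hL0.le hLT 2) hℓT hℓ0.le (by positivity)
    have h2 : T ^ 2 * T = T ^ 3 := by ring
    rw [h2] at h1
    exact mul_le_mul_of_nonneg_left h1 (by norm_num)
  have hT4 : 4 ≤ T ^ 2 := by nlinarith
  have hq1 : 10000000 * T ^ 2 ≤ q := by
    rw [hq]
    exact Nat.le_ceil _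
  have hq2 : (q : ℝ) ≤ 20000000 * T ^ 2 := by
    have h1 := (Nat.ceil_lt_add_one (by positivity : (0 : ℝ) ≤ 10000000 * T ^ 2)).le
    rw [← hq] at h1
    linarith
  have hqr0 : (0 : ℝ) < q := by linarith
  have hqr2 : (40000000 : ℝ) ≤ q := by linarith
  have hqn2 : 2 ≤ q := by
    have h1 : (2 : ℝ) ≤ q := by linarith
    exact_mod_cast h1
  have hTq : T ≤ q := by
    have h1 : T * 1 ≤ T * T := mul_le_mul_of_nonneg_left (by linarith) hT0.le
    have h2 : T ^ 2 = T * T := by ring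
    linarith
  have hlq : ℓ ≤ Real.log q := by
    rw [hℓ]
    exact Real.log_le_log hT0 hTq
  have hlq0 : 0 < Real.log q := by linarith
  have hqM : 6 * M ≤ q * Real.log q := by
    have h1 : 10000000 * L ^ 2 * ℓ ≤ q * Real.log q := by
      refine mul_le_mul ?_ hlq hℓ0.le hqr0.le
      refine le_trans ?_ hq1
      have := pow_le_pow_left₀ hL0.le hLT 2
      linarith
    rw [hM]
    have h2 : 0 ≤ L ^ 2 * ℓ := by linarith
    linarith
  obtain ⟨E, hE⟩ : ∃ E : ℝ, E = 64 * 257 * M * (q : ℝ) ^ 4 := ⟨_, rfl⟩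
  have hE1 : 1 ≤ E := by
    rw [hE]
    have h1 : (1 : ℝ) ≤ (q : ℝ) ^ 4 := one_le_pow₀ (by linarith)
    have h2 : (1 : ℝ) * 1 ≤ 64 * 257 * M * (q : ℝ) ^ 4 := mul_le_mul (by linarith) h1 (by norm_num) (by positivity)
    linarith
  have hE0 : 0 < E := by linarith
  have hEle : E ≤ 3000000000000000000000000000000000000000 * T ^ 11 := by
    rw [hE]
    have h1 : (q : ℝ) ^ 4 ≤ (20000000 * T ^ 2) ^ 4 := pow_le_pow_left₀ hqr0.le hq2 4
    have h2 : 64 * 257 * M * (q : ℝ) ^ 4 ≤ 64 * 257 * (1000000 * T ^ 3) * (20000000 * T ^ 2) ^ 4 := by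
      refine mul_le_mul (by linarith) h1 (by positivity) (by positivity)
    refine h2.trans ?_
    have h3 : 64 * 257 * (1000000 * T ^ 3) * (20000000 * T ^ 2) ^ 4 =
        (64 * 257 * 1000000 * 20000000 ^ 4) * T ^ 11 := by ring
    rw [h3]
    have h4 : 0 ≤ T ^ 11 := by positivity
    have h5 : (64 * 257 * 1000000 * 20000000 ^ 4 : ℝ) ≤ 3000000000000000000000000000000000000000 := by norm_num
    exact mul_le_mul_of_nonneg_right h5 h4
  obtain ⟨n, hn⟩ : ∃ n : ℕ, n = ⌈(L + 5) * E⌉₊ := ⟨_, rfl⟩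
  have hn1 : (L + 5) * E ≤ n := by
    rw [hn]
    exact Nat.le_ceil _
  have hn2 : (n : ℝ) ≤ 6 * (T * E) := by
    have h1 := (Nat.ceil_lt_add_one (by positivity : (0 : ℝ) ≤ (L + 5) * E)).le
    rw [← hn] at h1
    have h2 : (L + 5) * E ≤ 3 * T * E := mul_le_mul_of_nonneg_right (by linarith) hE0.le
    have h3 : 1 * 1 ≤ T * E := mul_le_mul (by linarith) hE1 (by norm_num) hT0.le
    linarith
  have hni : 8 * (n : ℝ) ≤ 2 ^ (200 * m) := by
    have h1 : (2 : ℝ) ^ (200 * m) = (2 ^ m) ^ 200 := by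
      rw [← pow_mul, mul_comm]
    rw [h1]
    have h2 : T ^ 200 ≤ ((2 : ℝ) ^ m) ^ 200 := pow_le_pow_left₀ hT0.le hTm 200
    refine le_trans ?_ h2
    have h3 : T ^ 200 = T ^ 188 * T ^ 12 := by rw [← pow_add]
    rw [h3]
    have h4 : (2 : ℝ) ^ 188 ≤ T ^ 188 := pow_le_pow_left₀ (by norm_num) hT2 188
    have h5 : (2 : ℝ) ^ 188 * T ^ 12 ≤ T ^ 188 * T ^ 12 := mul_le_mul_of_nonneg_right h4 (by positivity)
    refine le_trans ?_ h5
    have h6 : T * E ≤ T * (3000000000000000000000000000000000000000 * T ^ 11) :=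
      mul_le_mul_of_nonneg_left hEle hT0.le
    have h7 : T * (3000000000000000000000000000000000000000 * T ^ 11) =
        3000000000000000000000000000000000000000 * T ^ 12 := by ring
    rw [h7] at h6
    have h8 : 0 ≤ T ^ 12 := by positivity
    have h9 : (48 * 3000000000000000000000000000000000000000 : ℝ) ≤ 2 ^ 188 := by norm_num
    have h10 := mul_le_mul_of_nonneg_right h9 h8
    linarith
  obtain ⟨σ, hσ, hmi, -, hdef⟩ := exists_noise _ _ hπP hωP (16 * L) L hΛ0 hLπ hst (200 * m)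
  rw [ZMod.card] at hdef
  have hdefM : Real.log N - entT σ ≤ M := by
    refine hdef.trans ?_
    rw [hM]
    have h1 : L * (16 * L) + 2 * ((200 * m : ℕ) : ℝ) * (16 * L) ^ 2 = L ^ 2 * (16 + 102400 * m) := by
      push_cast
      ring
    rw [h1]
    have h2 : 16 + 102400 * (m : ℝ) ≤ 1000000 * ℓ := by linarith
    have h3 : L ^ 2 * (16 + 102400 * m) ≤ L ^ 2 * (1000000 * ℓ) := mul_le_mul_of_nonneg_left h2 (by positivity)
    linarith
  have hQn : 3 / 5 ≤ Qf ((smo σ)^[n] (gA A)) (cnv ν₁ (unif (-A))) (cnv ν₂ (unif A)) := by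
    have h1 := (Qf_iter σ _ _ hσ hπP hωP (gA A) (gA_nonneg A) (gA_le_one A) n).2
    have h2 : (n : ℝ) * Real.sqrt (mi (jnt σ (cnv ν₁ (unif (-A))) (cnv ν₂ (unif A)))) ≤ 1 / 8 := by
      have h3 : (n : ℝ) * Real.sqrt (mi (jnt σ (cnv ν₁ (unif (-A))) (cnv ν₂ (unif A)))) ≤ n * (1 / 2) ^ (200 * m) :=
        mul_le_mul_of_nonneg_left hmi (Nat.cast_nonneg _)
      refine h3.trans ?_
      rw [one_div, inv_pow]
      rw [← div_eq_mul_inv, div_le_div_iff₀ (by positivity) (by norm_num)]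
      linarith
    linarith
  have hη0 : 0 < 1 / E := by positivity
  have hη1 : 1 / E ≤ 1 := by
    rw [div_le_one hE0]
    exact hE1
  have hηE : 1 / E * (64 * 257 * M * (q : ℝ) ^ 4) ≤ 1 := by
    rw [← hE, one_div_mul_cancel hE0.ne']
  have hAK : ((A - A).card : ℝ) ≤ (N : ℝ) / A.card * A.card := by
    rw [div_mul_cancel₀ _ hc.ne']
    have := Finset.card_le_univ (A - A)
    rw [ZMod.card] at this
    exact_mod_cast this
  have hKn : (N : ℝ) / A.card * (1 - 1 / E) ^ n ≤ 1 / 64 := by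
    have h2 : (N : ℝ) / A.card = Real.exp L := by rw [hL, Real.exp_log (by positivity)]
    have h3 : 1 - 1 / E ≤ Real.exp (-(1 / E)) := by
      have := Real.add_one_le_exp (-(1 / E))
      linarith
    have h4 : (1 - 1 / E) ^ n ≤ Real.exp (-(1 / E)) ^ n := pow_le_pow_left₀ (by linarith) h3 n
    rw [← Real.exp_nat_mul] at h4
    have h5 : (n : ℝ) * -(1 / E) ≤ -(L + 5) := by
      have h6 : (L + 5) ≤ n * (1 / E) := by
        rw [mul_one_div, le_div_iff₀ hE0]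
        exact hn1
      linarith
    have h7 : (1 - 1 / E) ^ n ≤ Real.exp (-(L + 5)) := h4.trans (Real.exp_le_exp.2 h5)
    rw [h2]
    calc Real.exp L * (1 - 1 / E) ^ n ≤ Real.exp L * Real.exp (-(L + 5)) :=
          mul_le_mul_of_nonneg_left h7 (Real.exp_pos _).le
      _ = Real.exp (-5) := by
          rw [← Real.exp_add]
          congr 1
          ring
      _ ≤ 1 / 64 := QB_exp5
  obtain ⟨Γ, hΓ, hincl⟩ := gl σ hσ M hM1 hdefM hqn2 hqM (1 / E) hη0.le hηE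
  refine ⟨Γ, 1 / (4 * (q : ℝ)), by positivity, ?_, ?_, ?_⟩
  · refine hΓ.trans ?_
    have h1 : 15 * M / Real.log q ≤ 15000000 * L ^ 2 := by
      rw [div_le_iff₀ hlq0]
      have h2 : 15000000 * L ^ 2 * ℓ ≤ 15000000 * L ^ 2 * Real.log q :=
        mul_le_mul_of_nonneg_left hlq (by positivity)
      have h3 : 15 * M = 15000000 * L ^ 2 * ℓ := by
        rw [hM]
        ring
      rw [h3]
      exact h2
    linarith
  · rw [← hT, div_div, div_le_div_iff₀ (by positivity) (by positivity)]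
    linarith
  · intro x hx
    refine mem_of_noise A hA ν₁ ν₂ σ hν₁ hν₂ hσ n ((N : ℝ) / A.card) (1 / E) hη0.le hη1 hAK hKn hQn x ?_
    intro γ hγ
    refine (hincl x hx γ hγ).trans ?_
    refine one_div_le_one_div_of_le (by norm_num) ?_
    linarith

end Pool.H84.IT
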