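import Pool.Agent.H84.IT.Reg

set_option autoImplicit false

/-!
Row IT_RegB. Characters that are almost constant for `σ` are small on `T - T`.

`ν = cpow σ m`, `IsPr ν`, `wft ν γ = (wft σ γ)^(m+1)` (`wft_cnv`), so
`‖wft ν γ‖ ≥ (1-η)^(m+1) ≥ 1 - (m+1) η` (Bernoulli). With `u` of norm 1, `u * wft ν γ = ‖wft ν γ‖`:
`∑ ν z ‖u * ee (-(γ z)) - 1‖^2 = 2 - 2 ‖wft ν γ‖ ≤ 2 (m+1) η`. For every `c`:
`‖1 - ee (γ (s - s'))‖ = ‖ee (-(γ (c-s))) - ee (-(γ (c-s')))‖` up to a unimodular factor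
`≤ ‖u ee (-(γ(c-s))) - 1‖ + ‖u ee(-(γ(c-s'))) - 1‖`; square (factor 2), multiply by the minimum and
sum: `(1/2) ‖1 - ee (γ (s-s'))‖^2 ≤ 2 * (2 (m+1) η) * 2`. `four_bn_le`: `16 bn^2 ≤ 16 (m+1) η`.
-/

namespace Pool.H84.IT

open Pool.H84.CP Pool.Agent.H18

theorem RegB_pr {N : ℕ} [NeZero N] (σ : ZMod N → ℝ) (hσ : IsPr σ) (m : ℕ) : IsPr (cpow σ m) := by
  induction m with
  | zero => exact hσ
  | succ m ih => exact hσ.cnv ih

theorem RegB_wft {N : ℕ} [NeZero N] (σ : ZMod N → ℝ) (m : ℕ) (γ : ZMod N) :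
    wft (cpow σ m) γ = wft σ γ ^ (m + 1) := by
  induction m with
  | zero => rw [zero_add, pow_one]; rfl
  | succ m ih =>
    have h : cpow σ (m + 1) = cnv σ (cpow σ m) := rfl
    rw [h, wft_cnv, ih]
    ring

theorem RegB_unit (w : ℂ) : ∃ u : ℂ, ‖u‖ = 1 ∧ (u * w).re = ‖w‖ := by
  by_cases hw : w = 0
  · exact ⟨1, by simp, by simp [hw]⟩
  · have hn : ‖w‖ ≠ 0 := norm_ne_zero_iff.2 hw
    refine ⟨(starRingEnd ℂ) w / ‖w‖, ?_, ?_⟩
    · rw [norm_div, RCLike.norm_conj, Complex.norm_real, norm_norm, div_self hn]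
    · have h1 : (starRingEnd ℂ) w / ‖w‖ * w = ((‖w‖ : ℝ) : ℂ) := by
        rw [div_mul_eq_mul_div, ← Complex.normSq_eq_conj_mul_self, Complex.normSq_eq_norm_sq]
        push_cast
        have : ((‖w‖ : ℝ) : ℂ) ≠ 0 := by exact_mod_cast hn
        field_simp
      rw [h1, Complex.ofReal_re]

theorem RegB_sq (a : ℂ) (ha : ‖a‖ = 1) : ‖a - 1‖ ^ 2 = 2 - 2 * a.re := by
  have h1 : a.re ^ 2 + a.im ^ 2 = 1 := by
    have := Complex.sq_norm a
    rw [ha, Complex.normSq_apply] at this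
    nlinarith
  rw [Complex.sq_norm, Complex.normSq_apply]
  simp only [Complex.sub_re, Complex.one_re, Complex.sub_im, Complex.one_im]
  nlinarith

theorem regB {N : ℕ} [NeZero N] (σ : ZMod N → ℝ) (hσ : IsPr σ) (m : ℕ) (s s' : ZMod N)
    (h : 1 / 2 ≤ ∑ c, min (cpow σ m (c - s)) (cpow σ m (c - s'))) (η : ℝ) (hη : 0 ≤ η)
    (hη1 : η ≤ 1) (γ : ZMod N) (hγ : 1 - η ≤ ‖wft σ γ‖) :
    bn (γ * (s - s')) ≤ Real.sqrt (((m : ℝ) + 1) * η) := by
  set ν : ZMod N → ℝ := cpow σ m with hν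
  have hνP : IsPr ν := RegB_pr σ hσ m
  obtain ⟨u, hu, huw⟩ := RegB_unit (wft ν γ)
  set V : ZMod N → ℝ := fun z => ‖u * ee (-(γ * z)) - 1‖ ^ 2 with hV
  have hwn : 1 - ((m : ℝ) + 1) * η ≤ ‖wft ν γ‖ := by
    rw [hν, RegB_wft, norm_pow]
    have h1 : (1 - η) ^ (m + 1) ≤ ‖wft σ γ‖ ^ (m + 1) := pow_le_pow_left₀ (by linarith) hγ _
    have h2 := one_add_mul_le_pow (show (-2 : ℝ) ≤ -η by linarith) (m + 1)
    push_cast at h2
    have h3 : 1 - ((m : ℝ) + 1) * η = 1 + ((m : ℝ) + 1) * -η := by ring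
    have h4 : (1 - η) = 1 + -η := by ring
    rw [h4] at h1
    rw [h3]
    exact h2.trans h1
  have hVsum : ∑ z, ν z * V z ≤ 2 * (((m : ℝ) + 1) * η) := by
    have h1 : ∀ z, ν z * V z = 2 * ν z - 2 * (u * ((ν z : ℂ) * ee (-(γ * z)))).re := by
      intro z
      have h2 : ‖u * ee (-(γ * z))‖ = 1 := by rw [norm_mul, hu, norm_ee, one_mul]
      have h3 : (u * ((ν z : ℂ) * ee (-(γ * z)))).re = ν z * (u * ee (-(γ * z))).re := by
        have : u * ((ν z : ℂ) * ee (-(γ * z))) = (ν z : ℂ) * (u * ee (-(γ * z))) := by ring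
        rw [this, Complex.re_ofReal_mul]
      rw [h3]
      simp only [hV]
      rw [RegB_sq _ h2]
      ring
    have h4 : ∑ z, (u * ((ν z : ℂ) * ee (-(γ * z)))).re = ‖wft ν γ‖ := by
      rw [← Complex.re_sum, ← Finset.mul_sum]
      exact huw
    calc ∑ z, ν z * V z = ∑ z, (2 * ν z - 2 * (u * ((ν z : ℂ) * ee (-(γ * z)))).re) :=
          Finset.sum_congr rfl fun z _ => h1 z
      _ = 2 * ∑ z, ν z - 2 * ∑ z, (u * ((ν z : ℂ) * ee (-(γ * z)))).re := by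
          rw [Finset.sum_sub_distrib, Finset.mul_sum, Finset.mul_sum]
      _ = 2 - 2 * ‖wft ν γ‖ := by rw [hνP.2, h4]; ring
      _ ≤ _ := by linarith
  set D : ℝ := ‖1 - ee (γ * (s - s'))‖ with hD
  have hD0 : 0 ≤ D := norm_nonneg _
  have hpt : ∀ c, D ^ 2 ≤ 2 * V (c - s) + 2 * V (c - s') := by
    intro c
    have h1 : u * ee (-(γ * (c - s))) = u * ee (-(γ * (c - s'))) * ee (γ * (s - s')) := by
      rw [mul_assoc, ← ee_add]
      congr 2
      ring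
    have h2 : D = ‖u * ee (-(γ * (c - s))) - u * ee (-(γ * (c - s')))‖ := by
      have h3 : u * ee (-(γ * (c - s'))) * ee (γ * (s - s')) - u * ee (-(γ * (c - s'))) =
          u * ee (-(γ * (c - s'))) * (ee (γ * (s - s')) - 1) := by ring
      rw [h1, h3, norm_mul, norm_mul, hu, norm_ee, one_mul, one_mul, hD, norm_sub_rev]
    have h4 : D ≤ ‖u * ee (-(γ * (c - s))) - 1‖ + ‖u * ee (-(γ * (c - s'))) - 1‖ := by
      rw [h2]
      have h5 : u * ee (-(γ * (c - s))) - u * ee (-(γ * (c - s'))) =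
          (u * ee (-(γ * (c - s))) - 1) - (u * ee (-(γ * (c - s'))) - 1) := by ring
      rw [h5]
      exact norm_sub_le _ _
    have h6 : D ^ 2 ≤ (‖u * ee (-(γ * (c - s))) - 1‖ + ‖u * ee (-(γ * (c - s'))) - 1‖) ^ 2 :=
      pow_le_pow_left₀ hD0 h4 2
    simp only [hV]
    nlinarith [sq_nonneg (‖u * ee (-(γ * (c - s))) - 1‖ - ‖u * ee (-(γ * (c - s'))) - 1‖)]
  have hV0 : ∀ z, 0 ≤ V z := fun z => by simp only [hV]; positivity
  have hmain : (∑ c, min (ν (c - s)) (ν (c - s'))) * D ^ 2 ≤ 8 * (((m : ℝ) + 1) * η) := by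
    rw [Finset.sum_mul]
    calc ∑ c, min (ν (c - s)) (ν (c - s')) * D ^ 2
        ≤ ∑ c, (2 * (ν (c - s) * V (c - s)) + 2 * (ν (c - s') * V (c - s'))) := by
          apply Finset.sum_le_sum
          intro c _
          have h0 : 0 ≤ min (ν (c - s)) (ν (c - s')) := le_min (hνP.1 _) (hνP.1 _)
          have h1 := mul_le_mul_of_nonneg_left (hpt c) h0
          have h2 : min (ν (c - s)) (ν (c - s')) * V (c - s) ≤ ν (c - s) * V (c - s) :=
            mul_le_mul_of_nonneg_right (min_le_left _ _) (hV0 _)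
          have h3 : min (ν (c - s)) (ν (c - s')) * V (c - s') ≤ ν (c - s') * V (c - s') :=
            mul_le_mul_of_nonneg_right (min_le_right _ _) (hV0 _)
          linarith
      _ = 2 * (∑ c, ν (c - s) * V (c - s)) + 2 * (∑ c, ν (c - s') * V (c - s')) := by
          rw [Finset.sum_add_distrib, Finset.mul_sum, Finset.mul_sum]
      _ = 4 * ∑ z, ν z * V z := by
          have h1 := sum_sub_right (fun z => ν z * V z) s
          have h2 := sum_sub_right (fun z => ν z * V z) s'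
          rw [h1, h2]
          ring
      _ ≤ _ := by linarith
  have hD2 : D ^ 2 ≤ 16 * (((m : ℝ) + 1) * η) := by
    have h1 : 1 / 2 * D ^ 2 ≤ (∑ c, min (ν (c - s)) (ν (c - s'))) * D ^ 2 :=
      mul_le_mul_of_nonneg_right h (by positivity)
    linarith
  apply Real.le_sqrt_of_sq_le
  have h4 := four_bn_le (γ * (s - s'))
  have hbn : 0 ≤ bn (γ * (s - s')) := abs_nonneg _
  have h5 : (4 * bn (γ * (s - s'))) ^ 2 ≤ D ^ 2 := pow_le_pow_left₀ (by positivity) h4 2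
  nlinarith

end Pool.H84.IT
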