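import Pool.Agent.H84.IT.Pol
import Pool.Agent.H84.IT.RegB

set_option autoImplicit false

/-!
Row IT_GL. The general lemma (GL in H84_169871_IT.md).
-/

namespace Pool.H84.IT

open Pool.H84.CP Pool.Agent.H18

theorem gl {N q : ℕ} [NeZero N] (σ : ZMod N → ℝ) (hσ : IsPr σ) (M : ℝ) (hM1 : 1 ≤ M)
    (hM : Real.log N - entT σ ≤ M) (hq : 2 ≤ q) (hqM : 6 * M ≤ q * Real.log q) (η : ℝ)
    (hη : 0 ≤ η) (hη1 : η * (64 * 257 * M * (q : ℝ) ^ 4) ≤ 1) :
    ∃ Λ : Finset (ZMod N), (Λ.card : ℝ) ≤ 15 * M / Real.log q + 2 ∧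
      ∀ x : ZMod N, (∀ γ ∈ Λ, bn (γ * x) ≤ 1 / (4 * (q : ℝ))) →
        ∀ γ, 1 - η ≤ ‖wft σ γ‖ → bn (γ * x) ≤ 1 / (4 * (q : ℝ)) := by
  obtain ⟨m, T, hm, hT, hlog, hT2⟩ := regA σ hσ M hM1 hM
  obtain ⟨s0, hs0⟩ := hT
  have hTne : T.Nonempty := ⟨s0, hs0⟩
  have hq2 : (2 : ℝ) ≤ (q : ℝ) := by exact_mod_cast hq
  have hq0 : (0 : ℝ) < (q : ℝ) := by linarith
  have hlq : 0 < Real.log q := Real.log_pos (by linarith)
  obtain ⟨τ, hτ⟩ : ∃ τ : Fin T.card → ZMod N, τ = fun j => ((T.equivFin.symm j : T) : ZMod N) - s0 := ⟨_, rfl⟩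
  obtain ⟨T', hT'⟩ : ∃ T' : Finset (ZMod N), T' = T.image fun s => s - s0 := ⟨_, rfl⟩
  have hcard : T'.card = T.card := by
    rw [hT']
    exact Finset.card_image_of_injective _ (sub_left_injective)
  have hT'ne : T'.Nonempty := by
    rw [hT']
    exact hTne.image _
  have hpol : pol τ (1 / 8) = {γ : ZMod N | ∀ y ∈ T', bn (γ * y) ≤ 1 / 8} := by
    ext γ
    constructor
    · intro h y hy
      rw [hT', Finset.mem_image] at hy
      obtain ⟨s, hs, rfl⟩ := hy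
      have h1 := h (T.equivFin ⟨s, hs⟩)
      rw [hτ] at h1
      simpa using h1
    · intro h j
      have h1 : τ j ∈ T' := by
        rw [hτ, hT']
        exact Finset.mem_image_of_mem _ (T.equivFin.symm j).2
      exact h _ h1
  have hcp := card_pol T' hT'ne
  rw [← hpol, hcard] at hcp
  have hTc : (0 : ℝ) < (T.card : ℝ) := by exact_mod_cast hTne.card_pos
  have hN0 : (0 : ℝ) < (N : ℝ) := by exact_mod_cast Nat.pos_of_ne_zero (NeZero.ne N)
  have h0 : (0 : ZMod N) ∈ pol τ (1 / 8) := by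
    intro j
    have e0 : bn ((0 : ZMod N) * τ j) = 0 := by
      rw [zero_mul]
      unfold bn
      simp
    rw [e0]
    norm_num
  have hh : 0 < (pol τ (1 / 8)).ncard := (Set.ncard_pos (Set.toFinite _)).2 ⟨0, h0⟩
  have hhR : (0 : ℝ) < ((pol τ (1 / 8)).ncard : ℝ) := by exact_mod_cast hh
  have hlh : Real.log ((pol τ (1 / 8)).ncard : ℝ) ≤ 3 * M := by
    have h1 := Real.log_le_log (mul_pos hhR hTc) hcp
    rw [Real.log_mul hhR.ne' hTc.ne', Real.log_mul two_ne_zero hN0.ne'] at h1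
    have h2 : Real.log 2 < 0.6931471808 := Real.log_two_lt_d9
    linarith
  obtain ⟨Λ, hΛ, hΛ2⟩ := polar_bohr τ hq (by linarith)
  refine ⟨Λ, ?_, fun x hx γ hγ => hΛ2 x hx γ fun j => ?_⟩
  · refine hΛ.trans ?_
    have h1 : 5 * Real.log ((pol τ (1 / 8)).ncard : ℝ) / Real.log q ≤ 15 * M / Real.log q :=
      div_le_div_of_nonneg_right (by linarith) hlq.le
    linarith
  · have hq4 : (1 : ℝ) ≤ (q : ℝ) ^ 4 := one_le_pow₀ (by linarith)
    have hMq : 1 ≤ M * (q : ℝ) ^ 4 := by nlinarith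
    have hη2 : η ≤ 1 := by
      have h1 : η * 1 ≤ η * (64 * 257 * M * (q : ℝ) ^ 4) := by
        apply mul_le_mul_of_nonneg_left _ hη
        nlinarith
      linarith
    have hj : ((T.equivFin.symm j : T) : ZMod N) ∈ T := (T.equivFin.symm j).2
    have h1 := regB σ hσ m _ s0 (hT2 _ hj s0 hs0) η hη hη2 γ hγ
    rw [hτ]
    refine h1.trans ?_
    have hq8 : 0 < 8 * (q : ℝ) ^ 2 := by positivity
    apply Real.sqrt_le_iff.2
    refine ⟨by positivity, ?_⟩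
    rw [div_pow, one_pow, le_div_iff₀ (by positivity)]
    have h2 : ((m : ℝ) + 1) * η ≤ 257 * M * η := mul_le_mul_of_nonneg_right hm hη
    have h3 : ((m : ℝ) + 1) * η * (8 * (q : ℝ) ^ 2) ^ 2 ≤ 257 * M * η * (8 * (q : ℝ) ^ 2) ^ 2 :=
      mul_le_mul_of_nonneg_right h2 (by positivity)
    have h4 : 257 * M * η * (8 * (q : ℝ) ^ 2) ^ 2 = η * (64 * 257 * M * (q : ℝ) ^ 4) := by ring
    linarith

end Pool.H84.IT
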