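import Pool.Agent.H84.IT.SumA
import Pool.Agent.H84.CP.Bcd

set_option autoImplicit false

/-!
Row IT_SumB: the parameter `t`.
-/

namespace Pool.H84.IT

open Pool.H84.CP Pool.Agent.H18

theorem SumB_log {t : ℝ} (ht : 2 ≤ t) : 1 ≤ t * Real.log t := by
  have h1 : Real.log 2 ≤ Real.log t := Real.log_le_log (by norm_num) ht
  have h2 := Real.log_two_gt_d9
  nlinarith

theorem SumB_pow {t : ℝ} (ht : 2 ≤ t) : t ^ (-t) = Real.exp (-(t * Real.log t)) := by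
  rw [Real.rpow_def_of_pos (by linarith)]
  congr 1
  ring

/-- the numerical inequality -/
theorem SumB_num {t M q k : ℝ} (ht : 2 ≤ t) (hM0 : 0 ≤ M) (hM : M ≤ t ^ 2) (hq0 : 0 ≤ q) (hq : q ≤ 6.5 * t)
    (hk : (10 * t) ^ 8 ≤ k) : M * (64 * 257 * M * q ^ 4) < k - 1 := by
  have ht0 : 0 ≤ t := by linarith
  have h1 : q ^ 4 ≤ (6.5 * t) ^ 4 := pow_le_pow_left₀ hq0 hq 4
  have h2 : M * M ≤ t ^ 2 * t ^ 2 := mul_le_mul hM hM hM0 (by positivity)
  have h3 : M * M * q ^ 4 ≤ t ^ 2 * t ^ 2 * (6.5 * t) ^ 4 :=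
    mul_le_mul h2 h1 (by positivity) (by positivity)
  have h4 : M * (64 * 257 * M * q ^ 4) = 16448 * (M * M * q ^ 4) := by ring
  have h5 : t ^ 2 * t ^ 2 * (6.5 * t) ^ 4 = 1785.0625 * t ^ 8 := by ring
  have h6 : (10 * t) ^ 8 = 100000000 * t ^ 8 := by ring
  have h7 : (1 : ℝ) ≤ t ^ 8 := one_le_pow₀ (by linarith)
  rw [h4]
  rw [h5] at h3
  rw [h6] at hk
  nlinarith

theorem SumB_exp {η x k' : ℝ} (hη : 0 ≤ η) (hη1 : η ≤ 1) (n : ℕ) (hn : k' ≤ (n : ℝ)) (h : x < η * k') :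
    (1 - η) ^ n * Real.exp x < 1 := by
  have h1 : (1 - η) ^ n ≤ (Real.exp (-η)) ^ n :=
    pow_le_pow_left₀ (by linarith) (by linarith [Real.add_one_le_exp (-η)]) n
  have h2 : (Real.exp (-η)) ^ n = Real.exp (-(η * n)) := by
    rw [← Real.exp_nat_mul]
    congr 1
    ring
  rw [h2] at h1
  calc (1 - η) ^ n * Real.exp x ≤ Real.exp (-(η * n)) * Real.exp x :=
        mul_le_mul_of_nonneg_right h1 (Real.exp_pos x).le
    _ = Real.exp (-(η * n) + x) := by rw [Real.exp_add]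
    _ < 1 := by
        rw [Real.exp_lt_one_iff]
        have := mul_le_mul_of_nonneg_left hn hη
        linarith

theorem sumset_to_bohr {N : ℕ} [NeZero N] (t : ℝ) (ht : 2 ≤ t) (T : Finset (ZMod N))
    (hT : t ^ (-t) * (N : ℝ) ≤ (T.card : ℝ)) (k : ℕ) (hk : (10 * t) ^ 8 ≤ (k : ℝ)) :
    ∃ (Γ : Finset (ZMod N)) (ε : ℝ), (Γ.card : ℝ) ≤ 26 * t ∧ 1 / (26 * t) ≤ ε ∧
      ∀ x : ZMod N, (∀ γ ∈ Γ, bn (γ * x) ≤ ε) →
        ∃ a b : Fin k → ZMod N, (∀ i, a i ∈ T) ∧ (∀ i, b i ∈ T) ∧ x = ∑ i, a i - ∑ i, b i := by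
  have ht0 : 0 < t := by linarith
  have hNpos : (0 : ℝ) < (N : ℝ) := by exact_mod_cast Nat.pos_of_ne_zero (NeZero.ne N)
  obtain ⟨M, hM⟩ : ∃ M, M = t * Real.log t := ⟨_, rfl⟩
  have hM1 : 1 ≤ M := by rw [hM]; exact SumB_log ht
  have hlt : Real.log t ≤ t := (Real.log_le_sub_one_of_pos ht0).trans (by linarith)
  have hl0 : 0 < Real.log t := Real.log_pos (by linarith)
  have hM2 : M ≤ t ^ 2 := by
    rw [hM, sq]
    exact mul_le_mul_of_nonneg_left hlt ht0.le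
  rw [SumB_pow ht, ← hM] at hT
  have hTc : (0 : ℝ) < (T.card : ℝ) := lt_of_lt_of_le (by positivity) hT
  have hTn : T.Nonempty := by
    rw [← Finset.card_pos]
    exact_mod_cast hTc
  have hratio : (N : ℝ) / (T.card : ℝ) ≤ Real.exp M := by
    rw [div_le_iff₀ hTc]
    have h1 := mul_le_mul_of_nonneg_left hT (Real.exp_pos M).le
    rw [← mul_assoc, ← Real.exp_add, add_neg_cancel, Real.exp_zero, one_mul] at h1
    exact h1
  have hent : Real.log N - entT (unif T) ≤ M := by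
    have h1 : entT (unif T) = Real.log T.card := ent_unif T hTn
    rw [h1, ← Real.log_div hNpos.ne' hTc.ne']
    have h2 := Real.log_le_log (div_pos hNpos hTc) hratio
    rwa [Real.log_exp] at h2
  obtain ⟨q, hq⟩ : ∃ q : ℕ, q = ⌈6 * t⌉₊ := ⟨_, rfl⟩
  have hq1 : 6 * t ≤ (q : ℝ) := by rw [hq]; exact Nat.le_ceil _
  have hq2 : (q : ℝ) ≤ 6.5 * t := by
    have := (Nat.ceil_lt_add_one (by positivity : 0 ≤ 6 * t)).le
    rw [hq]
    linarith
  have hqr : (12 : ℝ) ≤ (q : ℝ) := by linarith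
  have hq2' : 2 ≤ q := by
    have : (2 : ℝ) ≤ (q : ℝ) := by linarith
    exact_mod_cast this
  have hlq : Real.log t ≤ Real.log q := Real.log_le_log ht0 (by linarith)
  have hlq0 : 0 < Real.log q := lt_of_lt_of_le hl0 hlq
  have hqM : 6 * M ≤ q * Real.log q := by
    rw [hM]
    calc 6 * (t * Real.log t) = 6 * t * Real.log t := by ring
      _ ≤ q * Real.log q := mul_le_mul hq1 hlq hl0.le (by linarith)
  have hD0 : 0 < 64 * 257 * M * (q : ℝ) ^ 4 := by positivity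
  obtain ⟨η, hη⟩ : ∃ η : ℝ, η = 1 / (64 * 257 * M * (q : ℝ) ^ 4) := ⟨_, rfl⟩
  have hη0 : 0 ≤ η := by rw [hη]; positivity
  have hηD : η * (64 * 257 * M * (q : ℝ) ^ 4) ≤ 1 := by
    rw [hη]
    exact (div_mul_cancel₀ (1 : ℝ) hD0.ne').le
  have hD1 : 1 ≤ 64 * 257 * M * (q : ℝ) ^ 4 := by
    have h1 : (1 : ℝ) ≤ (q : ℝ) ^ 4 := one_le_pow₀ (by linarith)
    have h2 : (1 : ℝ) ≤ 64 * 257 * M := by linarith
    nlinarith
  have hη1 : η ≤ 1 := by
    rw [hη]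
    exact (div_le_one hD0).2 hD1
  obtain ⟨Λ, hΛ, hΛ2⟩ := gl (unif T) ⟨unif_nonneg T, sum_unif T hTn⟩ M hM1 hent hq2' hqM η hη0 hηD
  refine ⟨Λ, 1 / (4 * (q : ℝ)), ?_, ?_, ?_⟩
  · have h1 : 15 * M / Real.log q ≤ 15 * t := by
      rw [div_le_iff₀ hlq0, hM]
      have := mul_le_mul_of_nonneg_left hlq (by positivity : 0 ≤ 15 * t)
      linarith
    linarith
  · exact one_div_le_one_div_of_le (by positivity) (by linarith)
  · intro x hx
    have hk1 : 1 ≤ k := by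
      by_contra hcon
      have hk0 : k = 0 := by omega
      rw [hk0] at hk
      have : (0 : ℝ) < (10 * t) ^ 8 := by positivity
      rw [Nat.cast_zero] at hk
      linarith
    refine mem_sum T hTn k hk1 η hη0 hη1 ?_ x ?_
    · have hnum := SumB_num ht (by linarith) hM2 (by linarith) hq2 hk
      have hc : ((k - 1 : ℕ) : ℝ) = (k : ℝ) - 1 := by
        rw [Nat.cast_sub hk1, Nat.cast_one]
      have h1 : M < η * ((k : ℝ) - 1) := by
        rw [hη, div_mul_eq_mul_div, one_mul, lt_div_iff₀ hD0]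
        exact hnum
      have h2 := SumB_exp hη0 hη1 (k - 1) hc.ge h1
      refine lt_of_le_of_lt ?_ h2
      exact mul_le_mul_of_nonneg_left hratio (pow_nonneg (by linarith) _)
    · intro γ hγ
      refine (hΛ2 x hx γ hγ).trans ?_
      exact one_div_le_one_div_of_le (by norm_num) (by linarith)

end Pool.H84.IT
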