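import Pool.Agent.H84.IT.Rep
import Pool.Agent.H84.CP.Bcd

set_option autoImplicit false

/-!
Row IT_SumC. A Bohr set contains an iterated sumset.

`T` = the Bohr set of radius `ε / (2k)` (a filter of `univ`), `k = ⌈(260 t)^8⌉₊`
(`10 * (26 t) = 260 t`); `bohr_card`: `N ≤ |T| (1 + 2k/ε)^|Γ| ≤ |T| (1 + 2 k t)^t`, and
`1 + 2 k t ≤ (260 t)^10`, `(260 t)^(10 t) ≤ (26 t)^(26 t)` (`log (260 t) ≤ 1.6 log (26 t)` for
`t ≥ 2`). `∑ a_i - ∑ b_i` is in the Bohr set: `bn` is subadditive (`bn_eq_norm`).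
-/

namespace Pool.H84.IT

open Pool.H84.CP

theorem SumC_bn_sum {N k : ℕ} [NeZero N] (γ : ZMod N) (a b : Fin k → ZMod N) (δ : ℝ)
    (ha : ∀ i, bn (γ * a i) ≤ δ) (hb : ∀ i, bn (γ * b i) ≤ δ) :
    bn (γ * (∑ i, a i - ∑ i, b i)) ≤ 2 * k * δ := by
  rw [bn_eq_norm, mul_sub, map_sub, Finset.mul_sum, Finset.mul_sum, map_sum, map_sum]
  have h1 : ‖∑ i, ZMod.toAddCircle (γ * a i)‖ ≤ k * δ := by
    refine (norm_sum_le _ _).trans ?_
    have : ∑ i : Fin k, ‖(ZMod.toAddCircle (γ * a i) : UnitAddCircle)‖ ≤ ∑ _i : Fin k, δ :=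
      Finset.sum_le_sum fun i _ => by rw [← bn_eq_norm]; exact ha i
    refine this.trans ?_
    simp
  have h2 : ‖∑ i, ZMod.toAddCircle (γ * b i)‖ ≤ k * δ := by
    refine (norm_sum_le _ _).trans ?_
    have : ∑ i : Fin k, ‖(ZMod.toAddCircle (γ * b i) : UnitAddCircle)‖ ≤ ∑ _i : Fin k, δ :=
      Finset.sum_le_sum fun i _ => by rw [← bn_eq_norm]; exact hb i
    refine this.trans ?_
    simp
  refine (norm_sub_le _ _).trans ?_
  linarith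

theorem bohr_to_sumset {N : ℕ} [NeZero N] (t : ℝ) (ht : 2 ≤ t) (Γ : Finset (ZMod N)) (ε : ℝ)
    (hΓ : (Γ.card : ℝ) ≤ t) (hε : 1 / t ≤ ε) :
    ∃ (T : Finset (ZMod N)) (k : ℕ), (26 * t) ^ (-(26 * t)) * (N : ℝ) ≤ (T.card : ℝ) ∧
      (10 * (26 * t)) ^ 8 ≤ (k : ℝ) ∧
      ∀ a b : Fin k → ZMod N, (∀ i, a i ∈ T) → (∀ i, b i ∈ T) →
        ∀ γ ∈ Γ, bn (γ * (∑ i, a i - ∑ i, b i)) ≤ ε := by
  classical
  have ht0 : 0 < t := by linarith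
  have hε0 : 0 < ε := lt_of_lt_of_le (by positivity) hε
  obtain ⟨Y, hY⟩ : ∃ Y : ℝ, Y = 26 * t := ⟨_, rfl⟩
  have hY52 : 52 ≤ Y := by rw [hY]; linarith
  have hY0 : 0 < Y := by linarith
  obtain ⟨k, hk⟩ : ∃ k : ℕ, k = ⌈(10 * Y) ^ 8⌉₊ := ⟨_, rfl⟩
  have hk1 : (10 * Y) ^ 8 ≤ (k : ℝ) := by rw [hk]; exact Nat.le_ceil _
  have hk2 : (k : ℝ) ≤ (10 * Y) ^ 8 + 1 := by
    rw [hk]; exact (Nat.ceil_lt_add_one (by positivity)).le
  have hk0 : (0 : ℝ) < k := lt_of_lt_of_le (by positivity) hk1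
  obtain ⟨T, hT⟩ : ∃ T : Finset (ZMod N),
      T = Finset.univ.filter (fun x => ∀ γ ∈ Γ, bn (γ * x) ≤ ε / (2 * k)) := ⟨_, rfl⟩
  have hTm : ∀ x, x ∈ T ↔ ∀ γ ∈ Γ, bn (γ * x) ≤ ε / (2 * k) := by
    intro x; rw [hT]; simp
  refine ⟨T, k, ?_, by rw [← hY]; exact hk1, ?_⟩
  · rw [← hY]
    have h1 := bohr_card Γ (ε / (2 * k)) (by positivity) T hTm
    have h2 : 1 + 1 / (ε / (2 * k)) ≤ Y ^ 26 := by
      have e1 : 1 / (ε / (2 * k)) = 2 * k * (1 / ε) := by field_simp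
      have e2 : 1 / ε ≤ t := by
        rw [div_le_iff₀ hε0]
        rw [div_le_iff₀ ht0] at hε
        linarith
      have e3 : 1 + 1 / (ε / (2 * k)) ≤ 1 + 2 * ((10 * Y) ^ 8 + 1) * t := by
        rw [e1]
        have : 2 * (k : ℝ) * (1 / ε) ≤ 2 * ((10 * Y) ^ 8 + 1) * t := by
          apply mul_le_mul (by linarith) e2 (by positivity) (by positivity)
        linarith
      refine e3.trans ?_
      have e4 : t = Y / 26 := by rw [hY]; ring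
      rw [e4]
      have hY17 : (10 : ℝ) ^ 10 ≤ Y ^ 17 := by
        calc (10 : ℝ) ^ 10 ≤ 52 ^ 17 := by norm_num
          _ ≤ Y ^ 17 := by gcongr
      have hY9 : (1 : ℝ) ≤ Y ^ 9 := one_le_pow₀ (by linarith)
      have hY8 : Y ≤ Y ^ 9 := by
        calc Y = Y ^ 1 := (pow_one Y).symm
          _ ≤ Y ^ 9 := pow_le_pow_right₀ (by linarith) (by norm_num)
      have e5 : 1 + 2 * ((10 * Y) ^ 8 + 1) * (Y / 26) = 1 + Y / 13 + (10 ^ 8 / 13) * Y ^ 9 := by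
        ring
      rw [e5]
      have e6 : Y ^ 26 = Y ^ 17 * Y ^ 9 := by ring
      rw [e6]
      have e7 : (10 : ℝ) ^ 10 * Y ^ 9 ≤ Y ^ 17 * Y ^ 9 :=
        mul_le_mul_of_nonneg_right hY17 (by positivity)
      nlinarith
    have h3 : (1 + 1 / (ε / (2 * k))) ^ Γ.card ≤ Y ^ (26 * t) := by
      calc (1 + 1 / (ε / (2 * k))) ^ Γ.card ≤ (Y ^ 26) ^ Γ.card :=
            pow_le_pow_left₀ (by positivity) h2 _
        _ = (Y ^ 26) ^ ((Γ.card : ℕ) : ℝ) := (Real.rpow_natCast _ _).symm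
        _ ≤ (Y ^ 26) ^ t := Real.rpow_le_rpow_of_exponent_le (one_le_pow₀ (by linarith)) hΓ
        _ = Y ^ (26 * t) := by
            rw [← Real.rpow_natCast Y 26, ← Real.rpow_mul hY0.le]
            norm_num
    have h4 : (N : ℝ) ≤ (T.card : ℝ) * Y ^ (26 * t) :=
      h1.trans (mul_le_mul_of_nonneg_left h3 (Nat.cast_nonneg _))
    have h5 : Y ^ (-Y) = (Y ^ (26 * t))⁻¹ := by
      rw [← hY, Real.rpow_neg hY0.le]
    rw [h5]
    have h6 : 0 < Y ^ (26 * t) := Real.rpow_pos_of_pos hY0 _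
    rw [inv_mul_le_iff₀ h6]
    linarith
  · intro a b ha hb γ hγ
    refine (SumC_bn_sum γ a b (ε / (2 * k)) (fun i => (hTm _).1 (ha i) γ hγ)
      (fun i => (hTm _).1 (hb i) γ hγ)).trans (le_of_eq ?_)
    field_simp

end Pool.H84.IT
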