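import Pool.Agent.H84.IT.Defs
import Pool.Agent.H84.CP.Bn

set_option autoImplicit false

/-!
Row IT_Rep. Elementary facts on representatives.

`toC` is the homomorphism from `Z_N` to the circle `R / Z` (`ZMod.toAddCircle`); `bn` is its norm
(`AddCircle.norm_eq` / `UnitAddCircle.norm_eq`). `rep_unique`: `v` and `rep y` differ by an integer
and `|v| < 1/2`, `|rep y| ≤ 1/2`; if the integer is not `0` then it is `± 1` and `|rep y| > 1/2`.
`MM_add`, ..: the set `MM` is a subgroup (the values `(p.1 * τ j).val / N` are additive modulo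
integers: use `toC`).
-/

namespace Pool.H84.IT

open Pool.H84.CP

theorem Rep_coe_iff (a b : ℝ) :
    ((a : UnitAddCircle) = (b : UnitAddCircle)) ↔ ∃ z : ℤ, b - a = z := by
  rw [← sub_eq_zero, ← AddCircle.coe_sub, AddCircle.coe_eq_zero_iff]
  constructor
  · rintro ⟨n, hn⟩
    refine ⟨-n, ?_⟩
    rw [zsmul_eq_mul, mul_one] at hn
    push_cast
    linarith
  · rintro ⟨z, hz⟩
    refine ⟨-z, ?_⟩
    rw [zsmul_eq_mul, mul_one]
    push_cast
    linarith

theorem bn_eq_norm {N : ℕ} [NeZero N] (y : ZMod N) : bn y = ‖ZMod.toAddCircle y‖ := by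
  rw [ZMod.toAddCircle_apply, UnitAddCircle.norm_eq]
  rfl

theorem toC_eq {N : ℕ} [NeZero N] (y : ZMod N) :
    (ZMod.toAddCircle y : UnitAddCircle) = (((y.val : ℝ) / (N : ℝ) : ℝ) : UnitAddCircle) := by
  exact ZMod.toAddCircle_apply y

theorem toC_rep {N : ℕ} [NeZero N] (y : ZMod N) :
    (ZMod.toAddCircle y : UnitAddCircle) = ((rep y : ℝ) : UnitAddCircle) := by
  rw [toC_eq, Rep_coe_iff]
  refine ⟨-round ((y.val : ℝ) / (N : ℝ)), ?_⟩
  unfold rep
  push_cast
  ring

theorem rep_unique {N : ℕ} [NeZero N] (y : ZMod N) (v : ℝ) (hv : |v| < 1 / 2)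
    (h : (ZMod.toAddCircle y : UnitAddCircle) = ((v : ℝ) : UnitAddCircle)) : rep y = v := by
  rw [toC_rep, Rep_coe_iff] at h
  obtain ⟨z, hz⟩ := h
  have h1 : |rep y| ≤ 1 / 2 := abs_sub_round _
  have h2 : |(z : ℝ)| < 1 := by
    rw [← hz]
    have := abs_sub v (rep y)
    linarith
  have h3 : z = 0 := by
    have : |z| < 1 := by exact_mod_cast h2
    exact Int.abs_lt_one_iff.mp this
  rw [h3] at hz
  push_cast at hz
  linarith

theorem bn_le_of_rep {N : ℕ} [NeZero N] (y : ZMod N) (v : ℝ)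
    (h : (ZMod.toAddCircle y : UnitAddCircle) = ((v : ℝ) : UnitAddCircle)) : bn y ≤ |v| := by
  rw [bn_eq_norm, h, UnitAddCircle.norm_eq]
  have := round_le v 0
  simpa using this

theorem mem_MM {N d k : ℕ} [NeZero N] (τ : Fin d → ZMod N) (c : Fin k → (Fin d → ℝ))
    (p : ZMod N × (Fin k → ℝ)) :
    p ∈ MM τ c ↔ ∀ j, (ZMod.toAddCircle (p.1 * τ j) : UnitAddCircle)
      = (((∑ i, p.2 i * c i j : ℝ)) : UnitAddCircle) := by
  unfold MM
  rw [Set.mem_ofPred_eq]
  refine forall_congr' fun j => ?_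
  rw [toC_eq, Rep_coe_iff]

/-- `MM` as a subgroup. -/
noncomputable def MG {N d k : ℕ} [NeZero N] (τ : Fin d → ZMod N) (c : Fin k → (Fin d → ℝ)) :
    AddSubgroup (ZMod N × (Fin k → ℝ)) where
  carrier := MM τ c
  zero_mem' := by
    rw [mem_MM]
    intro j
    simp
  add_mem' := by
    intro a b ha hb
    rw [mem_MM] at ha hb ⊢
    intro j
    rw [Prod.fst_add, Prod.snd_add, add_mul, map_add, ha j, hb j, ← AddCircle.coe_add,
      ← Finset.sum_add_distrib]
    congr 1
    refine Finset.sum_congr rfl fun i _ => ?_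
    rw [Pi.add_apply, add_mul]
  neg_mem' := by
    intro a ha
    rw [mem_MM] at ha ⊢
    intro j
    rw [Prod.fst_neg, Prod.snd_neg, neg_mul, map_neg, ha j, ← AddCircle.coe_neg,
      ← Finset.sum_neg_distrib]
    congr 1
    refine Finset.sum_congr rfl fun i _ => ?_
    rw [Pi.neg_apply, neg_mul]

end Pool.H84.IT
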