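import Mathlib

set_option autoImplicit false

/-! A character of a finitely generated group that is small on the generators. -/

namespace Pool.H84.IT

private theorem Chn_norm {n : ℕ} (hn : 0 < n) {z : UnitAddCircle} (h : n • z = 0) (hz : ‖z‖ < 1 / (n : ℝ)) :
    z = 0 := by
  induction z using QuotientAddGroup.induction_on with
  | H x =>
    change n • (x : UnitAddCircle) = 0 at h
    change ‖(x : UnitAddCircle)‖ < _ at hz
    change (x : UnitAddCircle) = 0
    rw [UnitAddCircle.norm_eq] at hz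
    have h1 : ((n * x : ℝ) : UnitAddCircle) = 0 := by
      rw [← nsmul_eq_mul, AddCircle.coe_nsmul]
      exact h
    obtain ⟨k, hk⟩ := (AddCircle.coe_eq_zero_iff (1 : ℝ)).1 h1
    rw [zsmul_eq_mul, mul_one] at hk
    have hn' : (0 : ℝ) < n := by exact_mod_cast hn
    have h2 : |(n : ℝ) * (x - round x)| < 1 := by
      rw [abs_mul, abs_of_pos hn', mul_comm]
      exact (lt_div_iff₀ hn').1 hz
    have h3 : (n : ℝ) * (x - round x) = ((k - n * round x : ℤ) : ℝ) := by
      push_cast
      rw [hk]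
      ring
    rw [h3, ← Int.cast_abs] at h2
    have h4 : |k - n * round x| < 1 := by exact_mod_cast h2
    have h5 : k - n * round x = 0 := Int.abs_lt_one_iff.1 h4
    rw [h5, Int.cast_zero] at h3
    have h6 : x = round x := by
      rcases mul_eq_zero.1 h3 with h7 | h7
      · exact absurd h7 hn'.ne'
      · linarith
    rw [h6]
    exact (AddCircle.coe_eq_zero_iff (1 : ℝ)).2 ⟨round x, by rw [zsmul_eq_mul, mul_one]⟩

theorem chain (m : ℕ) : ∀ (M : Type) [AddCommGroup M] (E : AddSubgroup M) (f : Fin m → M),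
    E.index ≠ 0 → E ⊔ AddSubgroup.closure (Set.range f) = ⊤ →
    ∃ n : Fin m → ℕ, (∀ j, 0 < n j) ∧ ∏ j, n j = E.index ∧
      ∀ Ψ : M →+ UnitAddCircle, (∀ e ∈ E, Ψ e = 0) →
        (∀ j, ‖Ψ (f j)‖ < 1 / (n j : ℝ)) → ∀ x, Ψ x = 0 := by
  induction m with
  | zero =>
    intro M _ E f hE h
    have h1 : E = ⊤ := by
      rw [Set.range_eq_empty, AddSubgroup.closure_empty, sup_bot_eq] at h
      exact h
    refine ⟨fun j => 1, fun j => one_pos, ?_, fun Ψ hΨ _ x => hΨ x (by rw [h1]; trivial)⟩
    rw [h1, AddSubgroup.index_top]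
    simp
  | succ m ih =>
    intro M _ E f hE h
    have hle : E ≤ E ⊔ AddSubgroup.zmultiples (f 0) := le_sup_left
    have hmul := AddSubgroup.relIndex_mul_index hle
    have h0 : (E ⊔ AddSubgroup.zmultiples (f 0)).index ≠ 0 := by
      intro h0
      rw [h0, mul_zero] at hmul
      exact hE hmul.symm
    have hr : E.relIndex (E ⊔ AddSubgroup.zmultiples (f 0)) ≠ 0 := by
      intro h0
      rw [h0, zero_mul] at hmul
      exact hE hmul.symm
    have htop : (E ⊔ AddSubgroup.zmultiples (f 0)) ⊔ AddSubgroup.closure (Set.range (Fin.tail f)) = ⊤ := by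
      rw [← h, Fin.range_fin_succ, Set.insert_eq, AddSubgroup.closure_union, sup_assoc,
        AddSubgroup.zmultiples_eq_closure]
    obtain ⟨n, hn1, hn2, hn3⟩ := ih M (E ⊔ AddSubgroup.zmultiples (f 0)) (Fin.tail f) h0 htop
    refine ⟨Fin.cons (E.relIndex (E ⊔ AddSubgroup.zmultiples (f 0))) n, fun j => ?_, ?_, fun Ψ hΨ hs => ?_⟩
    · refine Fin.cases ?_ (fun i => ?_) j
      · rw [Fin.cons_zero]
        exact Nat.pos_of_ne_zero hr
      · rw [Fin.cons_succ]
        exact hn1 i
    · rw [Fin.prod_univ_succ]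
      simp only [Fin.cons_zero, Fin.cons_succ]
      rw [hn2, hmul]
    · have h1 : E.relIndex (E ⊔ AddSubgroup.zmultiples (f 0)) • f 0 ∈ E := by
        have h2 := AddSubgroup.nsmul_index_mem (E.addSubgroupOf (E ⊔ AddSubgroup.zmultiples (f 0)))
          ⟨f 0, (le_sup_right : AddSubgroup.zmultiples (f 0) ≤ E ⊔ AddSubgroup.zmultiples (f 0))
            (AddSubgroup.mem_zmultiples (f 0))⟩
        exact AddSubgroup.mem_addSubgroupOf.1 h2
      have h3 : Ψ (f 0) = 0 := by
        refine Chn_norm (Nat.pos_of_ne_zero hr) ?_ ?_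
        · rw [← map_nsmul]
          exact hΨ _ h1
        · have := hs 0
          rw [Fin.cons_zero] at this
          exact this
      have h4 : E ⊔ AddSubgroup.zmultiples (f 0) ≤ Ψ.ker :=
        sup_le (fun e he => AddMonoidHom.mem_ker.2 (hΨ e he))
          (AddSubgroup.zmultiples_le_of_mem (AddMonoidHom.mem_ker.2 h3))
      refine hn3 Ψ (fun e he => AddMonoidHom.mem_ker.1 (h4 he)) fun j => ?_
      have := hs j.succ
      rw [Fin.cons_succ] at this
      exact this

end Pool.H84.IT
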