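import Mathlib
import Pool.Agent.H84.CP.Defs

set_option autoImplicit false

/-!
MP_169871_nt: Bohr sets of linear rank in iterated sumsets. Definitions.
Paper proof: H84_169871_IT.md. `bn y` is the distance of `y / N` to the nearest integer.
-/

namespace Pool.H84.IT

open Pool.H84.CP

/-- The real representative in `[-1/2, 1/2]` of `y / N` modulo `1`. -/
noncomputable def rep {N : ℕ} (y : ZMod N) : ℝ :=
  (y.val : ℝ) / (N : ℝ) - ((round ((y.val : ℝ) / (N : ℝ)) : ℤ) : ℝ)

/-- The vector of representatives of `γ τ_j / N`. -/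
noncomputable def Lv {N d : ℕ} (τ : Fin d → ZMod N) (γ : ZMod N) : Fin d → ℝ :=
  fun j => rep (γ * τ j)

/-- The polar set of the points `τ_j`. -/
def pol {N d : ℕ} (τ : Fin d → ZMod N) (s : ℝ) : Set (ZMod N) :=
  {γ | ∀ j, bn (γ * τ j) ≤ s}

/-- The group of the pairs `(γ, t)` for which `∑ t_i c_i` represents `γ τ / N` modulo `1`. -/
def MM {N d k : ℕ} (τ : Fin d → ZMod N) (c : Fin k → (Fin d → ℝ)) :
    Set (ZMod N × (Fin k → ℝ)) :=
  {p | ∀ j, ∃ z : ℤ, (∑ i, p.2 i * c i j) - ((p.1 * τ j).val : ℝ) / (N : ℝ) = z}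

theorem abs_rep {N : ℕ} (y : ZMod N) : |rep y| = bn y := rfl

end Pool.H84.IT
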