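import Mathlib

set_option autoImplicit false

/-!
Row IT_Dig. Digits on the circle: if `‖q^l z‖ < 1/(2q)` for all `l ≤ J` then
`‖z‖ < 1/(2q) / q^J`. (For `‖z‖ < 1/(2q)` one has `‖q z‖ = q ‖z‖`: write `z = (r : ℝ)` with
`|r| = ‖z‖`, `|q r| < 1/2`. Induction on `J`.)
-/

namespace Pool.H84.IT

theorem Dig_mul (q : ℕ) (z : UnitAddCircle) (h : (q : ℝ) * ‖z‖ < 1 / 2) :
    ‖(q : ℕ) • z‖ = (q : ℝ) * ‖z‖ := by
  obtain ⟨x, rfl⟩ := QuotientAddGroup.mk_surjective z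
  have hx : ‖(x : UnitAddCircle)‖ = |x - round x| := UnitAddCircle.norm_eq
  have h' : (q : ℝ) * ‖(x : UnitAddCircle)‖ < 1 / 2 := h
  rw [hx] at h'
  have e : (q : ℕ) • ((x : ℝ) : UnitAddCircle)
      = (((q : ℝ) * (x - round x) : ℝ) : UnitAddCircle) := by
    rw [← AddCircle.coe_nsmul, nsmul_eq_mul, mul_sub, AddCircle.coe_sub]
    have : (((q : ℝ) * (round x : ℝ) : ℝ) : UnitAddCircle) = 0 := by
      rw [AddCircle.coe_eq_zero_iff]
      exact ⟨(q : ℤ) * round x, by push_cast; simp⟩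
    rw [this, sub_zero]
  change ‖(q : ℕ) • ((x : ℝ) : UnitAddCircle)‖ = (q : ℝ) * ‖(x : UnitAddCircle)‖
  rw [hx, e, UnitAddCircle.norm_eq]
  have hab : |(q : ℝ) * (x - round x)| < 1 / 2 := by
    rw [abs_mul, Nat.abs_cast]
    exact h'
  have hr : round ((q : ℝ) * (x - round x)) = 0 := by
    rw [round_eq_zero_iff]
    rw [abs_lt] at hab
    constructor
    · linarith [hab.1]
    · exact hab.2
  rw [hr, Int.cast_zero, sub_zero, abs_mul, Nat.abs_cast]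

theorem digits (q : ℕ) (hq : 2 ≤ q) (z : UnitAddCircle) (J : ℕ)
    (h : ∀ l ≤ J, ‖(q ^ l : ℕ) • z‖ < 1 / (2 * (q : ℝ))) :
    ‖z‖ < 1 / (2 * (q : ℝ)) / (q : ℝ) ^ J := by
  have hq0 : (0 : ℝ) < q := by
    have : 0 < q := by omega
    exact_mod_cast this
  induction J generalizing z with
  | zero =>
    have := h 0 le_rfl
    simpa using this
  | succ J ih =>
    have h0 : ‖z‖ < 1 / (2 * (q : ℝ)) := by
      have := h 0 (Nat.zero_le _)
      simpa using this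
    have h1 : ‖(q : ℕ) • z‖ < 1 / (2 * (q : ℝ)) / (q : ℝ) ^ J := by
      apply ih
      intro l hl
      have := h (l + 1) (by omega)
      rwa [pow_succ, mul_nsmul'] at this
    have h2 : (q : ℝ) * ‖z‖ < 1 / 2 := by
      calc (q : ℝ) * ‖z‖ < (q : ℝ) * (1 / (2 * (q : ℝ))) := mul_lt_mul_of_pos_left h0 hq0
        _ = 1 / 2 := by field_simp
    rw [Dig_mul q z h2] at h1
    rw [pow_succ, ← div_div, lt_div_iff₀ hq0, mul_comm]
    exact h1

theorem digits_le (q : ℕ) (hq : 2 ≤ q) (z : UnitAddCircle)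
    (h0 : ‖z‖ ≤ 1 / (4 * (q : ℝ))) (h1 : ‖(q : ℕ) • z‖ ≤ 1 / (4 * (q : ℝ))) :
    ‖z‖ ≤ 1 / (4 * (q : ℝ) ^ 2) := by
  have hq0 : (0 : ℝ) < q := by
    have : 0 < q := by omega
    exact_mod_cast this
  have h2 : (q : ℝ) * ‖z‖ < 1 / 2 := by
    calc (q : ℝ) * ‖z‖ ≤ (q : ℝ) * (1 / (4 * (q : ℝ))) := mul_le_mul_of_nonneg_left h0 hq0.le
      _ = 1 / 4 := by field_simp
      _ < 1 / 2 := by norm_num
  rw [Dig_mul q z h2] at h1
  have e : 1 / (4 * (q : ℝ) ^ 2) = 1 / (4 * (q : ℝ)) / q := by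
    rw [div_div]; ring_nf
  rw [e, le_div_iff₀ hq0, mul_comm]
  exact h1

end Pool.H84.IT
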