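import Pool.Agent.H84.IT.Rep

set_option autoImplicit false

/-!
Row IT_Dim. The dimension bound.

`k' = min k q`. For `n : Fin k' → {0..q}` the vector `v = ∑ n_i Lv τ (γ_i)` has
`|v_j| ≤ k' * q / (8 q^2) ≤ 1 / 8` and represents `(∑ n_i γ_i) * τ j` modulo `1`, so
`Lv τ (∑ n_i γ_i) = v` (`rep_unique`), `∑ n_i γ_i ∈ pol τ (1/8)`, and different `n` give different
`v` (linear independence) and so different `∑ n_i γ_i`. Hence `(q+1)^k' ≤ h`,
`k' * log q ≤ log h ≤ (q / 2) * log q`, so `k' < q`, `k' = k`.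
-/

namespace Pool.H84.IT

open Pool.H84.CP

theorem Dim_coe_sum {ι : Type} (s : Finset ι) (f : ι → ℝ) :
    ((∑ i ∈ s, f i : ℝ) : UnitAddCircle) = ∑ i ∈ s, ((f i : ℝ) : UnitAddCircle) := by
  classical
  induction s using Finset.induction_on with
  | empty => simp
  | insert a s ha ih => rw [Finset.sum_insert ha, Finset.sum_insert ha, AddCircle.coe_add, ih]

theorem Dim_bound {N d m q : ℕ} (τ : Fin d → ZMod N) (hq : 2 ≤ q)
    (γ : Fin m → ZMod N) (hγ : ∀ i, γ i ∈ pol τ (1 / (8 * (q : ℝ) ^ 2))) (hm : m ≤ q)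
    (n : Fin m → Fin (q + 1)) (j : Fin d) :
    |∑ i, ((n i : ℕ) : ℝ) * rep (γ i * τ j)| ≤ 1 / 8 := by
  have hq0 : (0 : ℝ) < q := by exact_mod_cast (by omega : 0 < q)
  have h1 : ∀ i, |((n i : ℕ) : ℝ) * rep (γ i * τ j)| ≤ q * (1 / (8 * (q : ℝ) ^ 2)) := by
    intro i
    rw [abs_mul, abs_rep, abs_of_nonneg (Nat.cast_nonneg _)]
    refine mul_le_mul ?_ (hγ i j) (abs_nonneg _) hq0.le
    exact_mod_cast Nat.lt_succ_iff.mp (n i).2
  calc |∑ i, ((n i : ℕ) : ℝ) * rep (γ i * τ j)|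
      ≤ ∑ i, |((n i : ℕ) : ℝ) * rep (γ i * τ j)| := Finset.abs_sum_le_sum_abs _ _
    _ ≤ ∑ _i : Fin m, (q : ℝ) * (1 / (8 * (q : ℝ) ^ 2)) := Finset.sum_le_sum fun i _ => h1 i
    _ = (m : ℝ) * (q * (1 / (8 * (q : ℝ) ^ 2))) := by
        rw [Finset.sum_const, Finset.card_univ, Fintype.card_fin, nsmul_eq_mul]
    _ ≤ (q : ℝ) * (q * (1 / (8 * (q : ℝ) ^ 2))) := by
        have : (m : ℝ) ≤ q := by exact_mod_cast hm
        gcongr
    _ = 1 / 8 := by field_simp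

theorem Dim_rep {N d m q : ℕ} [NeZero N] (τ : Fin d → ZMod N) (hq : 2 ≤ q)
    (γ : Fin m → ZMod N) (hγ : ∀ i, γ i ∈ pol τ (1 / (8 * (q : ℝ) ^ 2))) (hm : m ≤ q)
    (n : Fin m → Fin (q + 1)) (j : Fin d) :
    rep ((∑ i, (n i : ℕ) • γ i) * τ j) = ∑ i, ((n i : ℕ) : ℝ) * rep (γ i * τ j) := by
  have hb := Dim_bound τ hq γ hγ hm n j
  refine rep_unique _ _ (lt_of_le_of_lt hb (by norm_num)) ?_
  rw [Dim_coe_sum, Finset.sum_mul, map_sum]
  refine Finset.sum_congr rfl fun i _ => ?_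
  rw [smul_mul_assoc, map_nsmul, toC_rep, ← AddCircle.coe_nsmul, nsmul_eq_mul]

theorem Dim_card {N d m q : ℕ} [NeZero N] (τ : Fin d → ZMod N) (hq : 2 ≤ q)
    (γ : Fin m → ZMod N) (hγ : ∀ i, γ i ∈ pol τ (1 / (8 * (q : ℝ) ^ 2))) (hm : m ≤ q)
    (hli : LinearIndependent ℝ (fun i => Lv τ (γ i))) :
    (q + 1) ^ m ≤ (pol τ (1 / 8)).ncard := by
  classical
  have hfin : (pol τ (1 / 8)).Finite := Set.toFinite _
  rw [Set.ncard_eq_toFinset_card _ hfin]
  have hc : (Finset.univ : Finset (Fin m → Fin (q + 1))).card = (q + 1) ^ m := by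
    rw [Finset.card_univ, Fintype.card_fun, Fintype.card_fin, Fintype.card_fin]
  rw [← hc]
  refine Finset.card_le_card_of_injOn (fun n => ∑ i, (n i : ℕ) • γ i) ?_ ?_
  · intro n _
    have hmem : (∑ i, (n i : ℕ) • γ i) ∈ pol τ (1 / 8) := by
      intro j
      rw [← abs_rep, Dim_rep τ hq γ hγ hm n j]
      exact Dim_bound τ hq γ hγ hm n j
    simpa using hmem
  · intro n _ n' _ hnn
    have hnn' : ∑ i, (n i : ℕ) • γ i = ∑ i, (n' i : ℕ) • γ i := hnn
    have hz : ∑ i, (((n i : ℕ) : ℝ) - ((n' i : ℕ) : ℝ)) • Lv τ (γ i) = 0 := by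
      funext j
      have h1 := Dim_rep τ hq γ hγ hm n j
      have h2 := Dim_rep τ hq γ hγ hm n' j
      rw [hnn'] at h1
      rw [Finset.sum_apply, Pi.zero_apply]
      have h3 : ∀ i, ((((n i : ℕ) : ℝ) - ((n' i : ℕ) : ℝ)) • Lv τ (γ i)) j =
          ((n i : ℕ) : ℝ) * rep (γ i * τ j) - ((n' i : ℕ) : ℝ) * rep (γ i * τ j) := by
        intro i
        rw [Pi.smul_apply, smul_eq_mul, sub_mul]
        rfl
      rw [Finset.sum_congr rfl fun i _ => h3 i, Finset.sum_sub_distrib, ← h1, ← h2, sub_self]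
    have h4 := Fintype.linearIndependent_iff.1 hli _ hz
    funext i
    apply Fin.ext
    have h5 := sub_eq_zero.1 (h4 i)
    exact_mod_cast h5

theorem dim_bound {N d k q : ℕ} [NeZero N] (τ : Fin d → ZMod N) (hq : 2 ≤ q) (γ : Fin k → ZMod N)
    (hγ : ∀ i, γ i ∈ pol τ (1 / (8 * (q : ℝ) ^ 2)))
    (hli : LinearIndependent ℝ (fun i => Lv τ (γ i))) (h : ℕ)
    (hh : (pol τ (1 / 8)).ncard ≤ h) (hqh : 2 * Real.log h ≤ q * Real.log q) :
    k < q ∧ (k : ℝ) * Real.log q ≤ Real.log h := by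
  have hm : min k q ≤ q := min_le_right _ _
  have hc := Dim_card τ hq (fun i : Fin (min k q) => γ (Fin.castLE (min_le_left k q) i))
    (fun i => hγ _) hm (hli.comp (Fin.castLE (min_le_left k q)) (Fin.castLE_injective _))
  have h1 : (q + 1) ^ (min k q) ≤ h := hc.trans hh
  have hq1 : (1 : ℝ) < q := by exact_mod_cast (by omega : 1 < q)
  have hlq : 0 < Real.log q := Real.log_pos hq1
  have h2 : ((q : ℝ)) ^ (min k q) ≤ h := by
    have h3 : ((q : ℝ)) ^ (min k q) ≤ ((q : ℝ) + 1) ^ (min k q) := by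
      gcongr
      linarith
    refine h3.trans ?_
    exact_mod_cast h1
  have h4 : ((min k q : ℕ) : ℝ) * Real.log q ≤ Real.log h := by
    rw [← Real.log_pow]
    exact Real.log_le_log (pow_pos (by linarith) _) h2
  have h5 : 2 * ((min k q : ℕ) : ℝ) ≤ q := by
    have h6 : (2 * ((min k q : ℕ) : ℝ)) * Real.log q ≤ q * Real.log q := by
      calc (2 * ((min k q : ℕ) : ℝ)) * Real.log q = 2 * (((min k q : ℕ) : ℝ) * Real.log q) := by
            ring
        _ ≤ 2 * Real.log h := by linarith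
        _ ≤ q * Real.log q := hqh
    exact le_of_mul_le_mul_right h6 hlq
  have h7 : 2 * min k q ≤ q := by exact_mod_cast h5
  have h8 : k < q := by
    by_contra hkq
    rw [min_eq_right (by omega)] at h7
    omega
  refine ⟨h8, ?_⟩
  rw [min_eq_left h8.le] at h4
  exact h4

end Pool.H84.IT
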