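import Mathlib

set_option autoImplicit false

/-!
Row IT_Gen. Number of generators.

`M ≤ Z_N × R^k` contains elements over the unit vectors and `M / E` is finite, `E` the subgroup
they generate, `h` its index in `M`. Let `K = {(γ, 0) ∈ M}`: it is the image of a subgroup of the
cyclic group `Z_N`, so generated by one element. Let `P` be the image of `M` in `R^k`: as
`h • M ≤ E`, `h • P ≤ Z^k`, so `P ≅ h • P` is a submodule of `Z^k`, free of rank `≤ k`
(`Submodule.basisOfPid` or `Submodule.exists_smith..`, any), generated by `k` elements (pad with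
zeros). Lift these `k` elements to `M` and add the generator of `K`.
-/

namespace Pool.H84.IT

theorem Gen_int {N k : ℕ} [NeZero N] (M : AddSubgroup (ZMod N × (Fin k → ℝ))) (g : Fin k → M)
    (hg : ∀ i, ((g i : M) : ZMod N × (Fin k → ℝ)).2 = Pi.single i 1) (m : M)
    (hm : m ∈ AddSubgroup.closure (Set.range g)) (i : Fin k) :
    ∃ z : ℤ, (m : ZMod N × (Fin k → ℝ)).2 i = z := by
  induction hm using AddSubgroup.closure_induction with
  | mem x hx =>
    obtain ⟨j, rfl⟩ := hx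
    rw [hg j]
    by_cases h : i = j
    · subst h
      exact ⟨1, by simp⟩
    · exact ⟨0, by rw [Pi.single_eq_of_ne h]; simp⟩
  | zero => exact ⟨0, by simp⟩
  | add x y _ _ hx hy =>
    obtain ⟨a, ha⟩ := hx
    obtain ⟨b, hb⟩ := hy
    exact ⟨a + b, by push_cast; rw [← ha, ← hb]; rfl⟩
  | neg x _ hx =>
    obtain ⟨a, ha⟩ := hx
    exact ⟨-a, by push_cast; rw [← ha]; rfl⟩

theorem gens {N k : ℕ} [NeZero N] (M : AddSubgroup (ZMod N × (Fin k → ℝ))) (g : Fin k → M)
    (hg : ∀ i, ((g i : M) : ZMod N × (Fin k → ℝ)).2 = Pi.single i 1)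
    (hfin : (AddSubgroup.closure (Set.range g)).index ≠ 0) :
    ∃ f : Fin (k + 1) → M, AddSubgroup.closure (Set.range f) = ⊤ := by
  classical
  obtain ⟨h, hh⟩ : ∃ h : ℕ, h = (AddSubgroup.closure (Set.range g)).index := ⟨_, rfl⟩
  rw [← hh] at hfin
  have hint : ∀ (m : M) (i : Fin k), ∃ z : ℤ, (h : ℝ) * (m : ZMod N × (Fin k → ℝ)).2 i = z := by
    intro m i
    have h1 : h • m ∈ AddSubgroup.closure (Set.range g) := by
      rw [hh]
      exact AddSubgroup.nsmul_index_mem _ m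
    obtain ⟨z, hz⟩ := Gen_int M g hg _ h1 i
    refine ⟨z, ?_⟩
    rw [← hz]
    simp
  choose ζ hζ using hint
  obtain ⟨ψ, hψ⟩ : ∃ ψ : M →+ (Fin k → ℤ), ∀ m i, ψ m i = ζ m i := by
    refine ⟨AddMonoidHom.mk' (fun m i => ζ m i) ?_, fun m i => rfl⟩
    intro a b
    funext i
    have h1 := hζ (a + b) i
    have h2 := hζ a i
    have h3 := hζ b i
    have h4 : ((a + b : M) : ZMod N × (Fin k → ℝ)).2 i =
        (a : ZMod N × (Fin k → ℝ)).2 i + (b : ZMod N × (Fin k → ℝ)).2 i := rfl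
    rw [h4, mul_add, h2, h3] at h1
    have h5 : ζ a i + ζ b i = ζ (a + b) i := by exact_mod_cast h1
    exact h5.symm
  have hψ0 : ∀ m : M, ψ m = 0 → (m : ZMod N × (Fin k → ℝ)).2 = 0 := by
    intro m hm
    funext i
    have h1 := hζ m i
    rw [← hψ m i, hm] at h1
    have hr : (h : ℝ) ≠ 0 := by exact_mod_cast hfin
    have h2 : (h : ℝ) * (m : ZMod N × (Fin k → ℝ)).2 i = 0 := by
      rw [h1]; simp
    exact (mul_eq_zero.1 h2).resolve_left hr
  -- the kernel is cyclic
  have hcyc : IsAddCyclic ψ.ker := by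
    refine isAddCyclic_of_injective
      ((AddMonoidHom.fst (ZMod N) (Fin k → ℝ)).comp (M.subtype.comp ψ.ker.subtype)) ?_
    rw [injective_iff_map_eq_zero]
    intro x hx
    have h1 : ((x : M) : ZMod N × (Fin k → ℝ)).1 = 0 := hx
    have h2 := hψ0 (x : M) x.2
    apply Subtype.ext
    apply Subtype.ext
    exact Prod.ext h1 h2
  obtain ⟨κ, hκ⟩ := hcyc.exists_generator
  -- a basis of the image
  obtain ⟨n, b⟩ := Submodule.basisOfPid (Pi.basisFun ℤ (Fin k)) (AddSubgroup.toIntSubmodule ψ.range)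
  have hn : n ≤ k := by
    have h1 := Module.finrank_eq_card_basis b
    rw [Fintype.card_fin] at h1
    have h2 := Submodule.finrank_le (AddSubgroup.toIntSubmodule ψ.range)
    rw [h1, Module.finrank_fin_fun] at h2
    exact h2
  have hlift : ∀ i : Fin n, ∃ m : M, ψ m = (b i : Fin k → ℤ) := by
    intro i
    exact (b i).2
  choose μ hμ using hlift
  refine ⟨Fin.cons (κ : M) (fun i : Fin k => if hi : (i : ℕ) < n then μ ⟨i, hi⟩ else 0), ?_⟩
  rw [eq_top_iff]
  intro m _
  obtain ⟨S, hS⟩ : ∃ S, S = AddSubgroup.closure (Set.range (Fin.cons (κ : M)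
    (fun i : Fin k => if hi : (i : ℕ) < n then μ ⟨i, hi⟩ else 0) : Fin (k + 1) → M)) := ⟨_, rfl⟩
  rw [← hS]
  have hκS : (κ : M) ∈ S := by
    rw [hS]
    apply AddSubgroup.subset_closure
    exact ⟨0, rfl⟩
  have hμS : ∀ i : Fin n, μ i ∈ S := by
    intro i
    rw [hS]
    apply AddSubgroup.subset_closure
    refine ⟨Fin.succ ⟨i, by omega⟩, ?_⟩
    rw [Fin.cons_succ]
    dsimp only
    rw [dif_pos i.2]
  have hmem : ψ m ∈ AddSubgroup.toIntSubmodule ψ.range := ⟨m, rfl⟩
  have hrepr := b.sum_repr ⟨ψ m, hmem⟩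
  obtain ⟨s, hs⟩ : ∃ s : M, s = ∑ i, (b.repr ⟨ψ m, hmem⟩ i) • μ i := ⟨_, rfl⟩
  have hsS : s ∈ S := by
    rw [hs]
    exact AddSubgroup.sum_mem _ fun i _ => AddSubgroup.zsmul_mem _ (hμS i) _
  have hψs : ψ s = ψ m := by
    rw [hs, map_sum]
    simp only [map_zsmul, hμ]
    have h1 := congrArg Subtype.val hrepr
    simp only [AddSubmonoidClass.coe_finsetSum, Submodule.coe_smul] at h1
    exact h1
  have hker : m - s ∈ ψ.ker := by
    rw [AddMonoidHom.mem_ker, map_sub, hψs, sub_self]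
  obtain ⟨z, hz⟩ := hκ ⟨m - s, hker⟩
  have hz' : z • (κ : M) = m - s := by
    have := congrArg (fun x : ψ.ker => (x : M)) hz
    simpa using this
  have : m = z • (κ : M) + s := by rw [hz']; abel
  rw [this]
  exact S.add_mem (S.zsmul_mem hκS z) hsS

end Pool.H84.IT
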