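import Pool.Agent.H84.IT.Rep

set_option autoImplicit false

/-!
Row IT_Ind. The index of `E` in `MM`, and representatives in the unit cell.

`red`: subtract `∑ ⌊t_i⌋ • g_i`. `index_bound`: every class of `MG / E` has a representative with
`t ∈ [0,1)^k`; then `|∑ t_i c_i j| ≤ k r ≤ 1 / 8`, so `p.1 ∈ pol τ (1/8)` and
`Lv τ p.1 = ∑ t_i c_i` (`rep_unique`), so `p.1` determines `t` (linear independence). So the map
(class) ↦ `p.1` is an injection of `MG / E` into `pol τ (1/8)`.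
-/

namespace Pool.H84.IT

open Pool.H84.CP

theorem single_mem {N d k : ℕ} [NeZero N] (τ : Fin d → ZMod N) (γ : Fin k → ZMod N) (i : Fin k) :
    ((γ i, Pi.single i 1) : ZMod N × (Fin k → ℝ)) ∈ MG τ (fun i => Lv τ (γ i)) := by
  have h : ((γ i, Pi.single i 1) : ZMod N × (Fin k → ℝ)) ∈ MM τ (fun i => Lv τ (γ i)) := by
    rw [mem_MM]
    intro j
    rw [toC_rep]
    congr 1
    rw [Finset.sum_eq_single i]
    · simp [Lv]
    · intro b _ hb
      simp [Pi.single_eq_of_ne hb]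
    · intro hi
      exact absurd (Finset.mem_univ i) hi
  exact h

theorem red {N d k : ℕ} [NeZero N] (τ : Fin d → ZMod N) (γ : Fin k → ZMod N)
    (p : MG τ (fun i => Lv τ (γ i))) :
    ∃ p' : MG τ (fun i => Lv τ (γ i)),
      p - p' ∈ AddSubgroup.closure (Set.range fun i =>
        (⟨(γ i, Pi.single i 1), single_mem τ γ i⟩ : MG τ (fun i => Lv τ (γ i)))) ∧
      ∀ i, 0 ≤ (p' : ZMod N × (Fin k → ℝ)).2 i ∧ (p' : ZMod N × (Fin k → ℝ)).2 i < 1 := by
  obtain ⟨g, hg⟩ : ∃ g : Fin k → MG τ (fun i => Lv τ (γ i)),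
      g = fun i => ⟨(γ i, Pi.single i 1), single_mem τ γ i⟩ := ⟨_, rfl⟩
  rw [← hg]
  refine ⟨p - ∑ i, ⌊(p : ZMod N × (Fin k → ℝ)).2 i⌋ • g i, ?_, fun i => ?_⟩
  · rw [sub_sub_cancel]
    exact sum_mem fun i _ => zsmul_mem (AddSubgroup.subset_closure (Set.mem_range_self i)) _
  · have h1 : ((p - ∑ i, ⌊(p : ZMod N × (Fin k → ℝ)).2 i⌋ • g i : MG τ (fun i => Lv τ (γ i))) :
        ZMod N × (Fin k → ℝ)).2 i = Int.fract ((p : ZMod N × (Fin k → ℝ)).2 i) := by
      have h2 : ((∑ i, ⌊(p : ZMod N × (Fin k → ℝ)).2 i⌋ • g i : MG τ (fun i => Lv τ (γ i))) :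
          ZMod N × (Fin k → ℝ)).2 i = (⌊(p : ZMod N × (Fin k → ℝ)).2 i⌋ : ℝ) := by
        rw [AddSubgroup.val_finsetSum, Prod.snd_sum, Finset.sum_apply, Finset.sum_eq_single i]
        · rw [hg]
          simp
        · intro b _ hb
          rw [hg]
          simp [Pi.single_eq_of_ne hb.symm]
        · intro hi
          exact absurd (Finset.mem_univ i) hi
      rw [AddSubgroup.coe_sub, Prod.snd_sub, Pi.sub_apply, h2]
      rfl
    rw [h1]
    exact ⟨Int.fract_nonneg _, Int.fract_lt_one _⟩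

theorem Ind_rep {N d k : ℕ} [NeZero N] (τ : Fin d → ZMod N) (γ : Fin k → ZMod N) (r : ℝ)
    (hγ : ∀ i, γ i ∈ pol τ r) (hkr : (k : ℝ) * r ≤ 1 / 8) (p : MG τ (fun i => Lv τ (γ i)))
    (hp : ∀ i, 0 ≤ (p : ZMod N × (Fin k → ℝ)).2 i ∧ (p : ZMod N × (Fin k → ℝ)).2 i < 1) :
    (p : ZMod N × (Fin k → ℝ)).1 ∈ pol τ (1 / 8) ∧
      Lv τ (p : ZMod N × (Fin k → ℝ)).1 = ∑ i, (p : ZMod N × (Fin k → ℝ)).2 i • Lv τ (γ i) := by
  have hm : (p : ZMod N × (Fin k → ℝ)) ∈ MM τ (fun i => Lv τ (γ i)) := p.2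
  rw [mem_MM] at hm
  have hb : ∀ j, |∑ i, (p : ZMod N × (Fin k → ℝ)).2 i * Lv τ (γ i) j| ≤ 1 / 8 := by
    intro j
    calc |∑ i, (p : ZMod N × (Fin k → ℝ)).2 i * Lv τ (γ i) j|
        ≤ ∑ i, |(p : ZMod N × (Fin k → ℝ)).2 i * Lv τ (γ i) j| := Finset.abs_sum_le_sum_abs _ _
      _ ≤ ∑ _i : Fin k, r := by
          refine Finset.sum_le_sum fun i _ => ?_
          rw [abs_mul, abs_of_nonneg (hp i).1]
          have h1 : |Lv τ (γ i) j| ≤ r := hγ i j
          calc (p : ZMod N × (Fin k → ℝ)).2 i * |Lv τ (γ i) j| ≤ 1 * |Lv τ (γ i) j| :=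
                mul_le_mul_of_nonneg_right (hp i).2.le (abs_nonneg _)
            _ = |Lv τ (γ i) j| := one_mul _
            _ ≤ r := h1
      _ = (k : ℝ) * r := by
          rw [Finset.sum_const, Finset.card_univ, Fintype.card_fin, nsmul_eq_mul]
      _ ≤ 1 / 8 := hkr
  have hr : ∀ j, rep ((p : ZMod N × (Fin k → ℝ)).1 * τ j) =
      ∑ i, (p : ZMod N × (Fin k → ℝ)).2 i * Lv τ (γ i) j := fun j =>
    rep_unique _ _ ((hb j).trans_lt (by norm_num)) (hm j)
  constructor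
  · intro j
    rw [← abs_rep, hr j]
    exact hb j
  · funext j
    rw [Finset.sum_apply]
    exact hr j

theorem index_bound {N d k : ℕ} [NeZero N] (τ : Fin d → ZMod N) (γ : Fin k → ZMod N) (r : ℝ)
    (hγ : ∀ i, γ i ∈ pol τ r) (hkr : (k : ℝ) * r ≤ 1 / 8)
    (hli : LinearIndependent ℝ (fun i => Lv τ (γ i))) :
    (AddSubgroup.closure (Set.range fun i =>
        (⟨(γ i, Pi.single i 1), single_mem τ γ i⟩ : MG τ (fun i => Lv τ (γ i))))).index ≠ 0 ∧
    (AddSubgroup.closure (Set.range fun i =>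
        (⟨(γ i, Pi.single i 1), single_mem τ γ i⟩ : MG τ (fun i => Lv τ (γ i))))).index
      ≤ (pol τ (1 / 8)).ncard := by
  have hred := red τ γ
  obtain ⟨E, hE⟩ : ∃ E : AddSubgroup (MG τ (fun i => Lv τ (γ i))),
      E = AddSubgroup.closure (Set.range fun i =>
        (⟨(γ i, Pi.single i 1), single_mem τ γ i⟩ : MG τ (fun i => Lv τ (γ i)))) := ⟨_, rfl⟩
  rw [← hE] at hred ⊢
  choose ρ hρ1 hρ2 using hred
  obtain ⟨F, hF⟩ : ∃ F : (MG τ (fun i => Lv τ (γ i))) ⧸ E → pol τ (1 / 8),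
      ∀ q, (F q : ZMod N) = ((ρ q.out : MG τ (fun i => Lv τ (γ i))) : ZMod N × (Fin k → ℝ)).1 :=
    ⟨fun q => ⟨_, (Ind_rep τ γ r hγ hkr (ρ q.out) (hρ2 _)).1⟩, fun q => rfl⟩
  have hinj : Function.Injective F := by
    intro a b hab
    have h1 : ((ρ a.out : MG τ (fun i => Lv τ (γ i))) : ZMod N × (Fin k → ℝ)).1 =
        ((ρ b.out : MG τ (fun i => Lv τ (γ i))) : ZMod N × (Fin k → ℝ)).1 := by
      rw [← hF, ← hF, hab]
    have h2 := (Ind_rep τ γ r hγ hkr (ρ a.out) (hρ2 _)).2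
    have h3 := (Ind_rep τ γ r hγ hkr (ρ b.out) (hρ2 _)).2
    have h4 : ∑ i, (((ρ a.out : MG τ (fun i => Lv τ (γ i))) : ZMod N × (Fin k → ℝ)).2 i -
        ((ρ b.out : MG τ (fun i => Lv τ (γ i))) : ZMod N × (Fin k → ℝ)).2 i) • Lv τ (γ i) = 0 := by
      simp only [sub_smul]
      rw [Finset.sum_sub_distrib, ← h2, ← h3, h1, sub_self]
    have h5 := Fintype.linearIndependent_iff.1 hli _ h4
    have h6 : ρ a.out = ρ b.out := by
      apply Subtype.ext
      refine Prod.ext h1 ?_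
      funext i
      have := h5 i
      linarith
    have h7 : a.out - b.out ∈ E := by
      have h8 := E.sub_mem (hρ1 a.out) (hρ1 b.out)
      rw [h6] at h8
      simpa using h8
    rw [← QuotientAddGroup.out_eq' a, ← QuotientAddGroup.out_eq' b]
    rw [QuotientAddGroup.eq]
    have h9 := E.neg_mem h7
    have h10 : -a.out + b.out = -(a.out - b.out) := by abel
    rw [h10]
    exact h9
  have hfin : Finite ((MG τ (fun i => Lv τ (γ i))) ⧸ E) := Finite.of_injective F hinj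
  constructor
  · exact Nat.card_pos.ne'
  · have h1 := Nat.card_le_card_of_injective F hinj
    rw [Nat.card_coe_set_eq] at h1
    exact h1

end Pool.H84.IT
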