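import Pool.Agent.H84.IT.QB
import Pool.Agent.H18.LQ.Main

set_option autoImplicit false

/-!
Row IT_LA. A large set whose `l`-fold differences lie in `2A - 2A`, `A` of doubling `exp k`.

Follow `doubling_base` in `Pool/Agent/H18/LQ/Main.lean` up to the set `X` (model `A₂, φ, M`,
`E = A₂.image φ`, `L' = log (M / |E|) ≤ 12 k + 6`), with `Pool.H84.IT.quad_base` instead of
`QB.quad_base`: `|Γ'| ≤ C L'^2`, `ρ ≥ c/(L'+2)^2`. `m = ⌈2 l / min ρ 1⌉₊`, `B'` the Bohr set of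
radius `1/m`, `pullback` with `2 l` summands gives `X`, `0 ∈ X`, `-X = X`,
`M ≤ m ^ |Γ'| * |X|`, `(2 l) • X ⊆ (A₂ + A₂) - (A₂ + A₂)`; a difference `∑ a_i - ∑ b_i` is in
`(2 l) • X`. `log (N/|X|) ≤ log (N/|A|) + log 72 + |Γ'| log m` and
`log m ≤ C (log (l+1) + log (k+2))`.
-/

namespace Pool.H84.IT

open Pool.H84.CP Pool.Agent.H18
open scoped Pointwise

lemma LA_sum {N : ℕ} [NeZero N] (X : Finset (ZMod N)) :
    ∀ (l : ℕ) (a : Fin l → ZMod N), (∀ i, a i ∈ X) → ∑ i, a i ∈ l • X := by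
  intro l
  induction l with
  | zero =>
    intro a _
    simp
  | succ l ih =>
    intro a ha
    rw [Fin.sum_univ_castSucc, succ_nsmul]
    exact Finset.add_mem_add (ih (fun i => a i.castSucc) (fun i => ha _)) (ha _)

lemma LA_diff {N : ℕ} [NeZero N] (X : Finset (ZMod N)) (hX : -X = X) (l : ℕ)
    (a b : Fin l → ZMod N) (ha : ∀ i, a i ∈ X) (hb : ∀ i, b i ∈ X) :
    ∑ i, a i - ∑ i, b i ∈ (2 * l) • X := by
  have h1 := LA_sum X l a ha
  have h2 := LA_sum X l (fun i => - b i) (fun i => by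
    rw [← hX]
    exact Finset.neg_mem_neg (hb i))
  rw [Finset.sum_neg_distrib] at h2
  rw [two_mul, add_nsmul, sub_eq_add_neg]
  exact Finset.add_mem_add h1 h2

lemma LA_num (C₀ c₀ : ℝ) (hC₀ : 0 < C₀) (hc₀ : 0 < c₀) :
    ∃ C : ℝ, 0 < C ∧ ∀ (k L ρ : ℝ) (g l m : ℕ), 1 ≤ k → 1 / 2 ≤ L → L ≤ 12 * k + 6 →
      0 < ρ → (g : ℝ) ≤ C₀ * L ^ 2 → c₀ / (L + 2) ^ 2 ≤ ρ → 1 ≤ l →
      m = ⌈2 * (l : ℝ) / min ρ 1⌉₊ →
      (g : ℝ) * Real.log m + 5 ≤ C * (k ^ 2 * (Real.log (k + 2) + Real.log (l + 1))) := by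
  set c' : ℝ := min c₀ 1 with hc'
  have hc'0 : 0 < c' := lt_min hc₀ one_pos
  set D : ℝ := 2 + Real.log 3 + 2 * Real.log 12 + |Real.log c'| with hD
  have hl3 : 0 ≤ Real.log 3 := Real.log_nonneg (by norm_num)
  have hl12 : 0 ≤ Real.log 12 := Real.log_nonneg (by norm_num)
  have hD0 : 0 < D := by
    have := abs_nonneg (Real.log c')
    rw [hD]; linarith
  refine ⟨C₀ * 324 * D + 5, by positivity, ?_⟩
  intro k L ρ g l m hk hL1 hL2 hρ hg hρ2 hl hm
  have hlr : (1 : ℝ) ≤ l := by exact_mod_cast hl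
  have hmin : 0 < min ρ 1 := lt_min hρ one_pos
  have hLp : 0 < L + 2 := by linarith
  have hmin2 : c' / (L + 2) ^ 2 ≤ min ρ 1 := by
    refine le_min (le_trans ?_ hρ2) ?_
    · gcongr
      exact min_le_left _ _
    · rw [div_le_one (by positivity)]
      have h1 : c' ≤ 1 := min_le_right _ _
      nlinarith
  have hm1 : (1 : ℝ) ≤ 2 * (l : ℝ) / min ρ 1 := by
    rw [le_div_iff₀ hmin]
    have : min ρ 1 ≤ 1 := min_le_right _ _
    linarith
  have hmle : (m : ℝ) ≤ 3 * l * (12 * (k + 2)) ^ 2 / c' := by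
    have h1 : (m : ℝ) ≤ 2 * (l : ℝ) / min ρ 1 + 1 := by
      rw [hm]
      exact (Nat.ceil_lt_add_one (by linarith)).le
    have h2 : (1 : ℝ) ≤ (l : ℝ) / min ρ 1 := by
      rw [le_div_iff₀ hmin]
      have : min ρ 1 ≤ 1 := min_le_right _ _
      linarith
    have h3 : (m : ℝ) ≤ 3 * (l : ℝ) / min ρ 1 := by
      have h4 : 3 * (l : ℝ) / min ρ 1 = 2 * (l : ℝ) / min ρ 1 + (l : ℝ) / min ρ 1 := by ring
      rw [h4]; linarith
    refine h3.trans ?_
    calc 3 * (l : ℝ) / min ρ 1 ≤ 3 * (l : ℝ) / (c' / (L + 2) ^ 2) := by gcongr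
      _ = 3 * l * (L + 2) ^ 2 / c' := by field_simp
      _ ≤ 3 * l * (12 * (k + 2)) ^ 2 / c' := by
          gcongr
          linarith
  have hmpos : (1 : ℝ) ≤ m := by
    rw [hm]
    exact hm1.trans (Nat.le_ceil _)
  set T : ℝ := Real.log (k + 2) + Real.log (l + 1) with hT
  have hk2 : 1 ≤ Real.log (k + 2) := by
    rw [Real.le_log_iff_exp_le (by linarith)]
    have := Real.exp_one_lt_d9
    linarith
  have hl2 : 0 ≤ Real.log ((l : ℝ) + 1) := Real.log_nonneg (by linarith)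
  have hT1 : 1 ≤ T := by rw [hT]; linarith
  have hlogm : Real.log m ≤ D * T := by
    have h1 := Real.log_le_log (by linarith) hmle
    rw [Real.log_div (by positivity) hc'0.ne', Real.log_mul (by positivity) (by positivity),
      Real.log_mul (by norm_num) (by positivity), Real.log_pow,
      Real.log_mul (by norm_num) (by positivity)] at h1
    have h2 : Real.log (l : ℝ) ≤ Real.log ((l : ℝ) + 1) :=
      Real.log_le_log (by linarith) (by linarith)
    have h3 : - Real.log c' ≤ |Real.log c'| := neg_le_abs _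
    push_cast at h1
    have h4 : Real.log 3 ≤ Real.log 3 * T := le_mul_of_one_le_right hl3 hT1
    have h5 : Real.log 12 ≤ Real.log 12 * T := le_mul_of_one_le_right hl12 hT1
    have h6 : |Real.log c'| ≤ |Real.log c'| * T := le_mul_of_one_le_right (abs_nonneg _) hT1
    have h7 : D * T = 2 * T + Real.log 3 * T + 2 * (Real.log 12 * T) + |Real.log c'| * T := by
      rw [hD]; ring
    rw [h7]
    have h8 : 2 * Real.log (k + 2) + Real.log ((l : ℝ) + 1) ≤ 2 * T := by rw [hT]; linarith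
    linarith
  have hlogm0 : 0 ≤ Real.log m := Real.log_nonneg hmpos
  have hg2 : (g : ℝ) ≤ C₀ * 324 * k ^ 2 := by
    refine hg.trans ?_
    have h1 : L ^ 2 ≤ (18 * k) ^ 2 := by
      have : L ≤ 18 * k := by linarith
      gcongr
    calc C₀ * L ^ 2 ≤ C₀ * (18 * k) ^ 2 := by gcongr
      _ = C₀ * 324 * k ^ 2 := by ring
  have h1 : (g : ℝ) * Real.log m ≤ (C₀ * 324 * k ^ 2) * (D * T) := by
    gcongr
  have h2 : 1 ≤ k ^ 2 * T := by
    have : 1 ≤ k ^ 2 := one_le_pow₀ hk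
    calc (1 : ℝ) = 1 * 1 := by norm_num
      _ ≤ k ^ 2 * T := by gcongr
  have h3 : (C₀ * 324 * D + 5) * (k ^ 2 * T) = (C₀ * 324 * k ^ 2) * (D * T) + 5 * (k ^ 2 * T) := by
    ring
  rw [h3]
  linarith

theorem local_set :
    ∃ C : ℝ, 0 < C ∧ ∀ N : ℕ, ∀ _ : NeZero N, ∀ A : Finset (ZMod N), A.Nonempty →
      ∀ k : ℝ, 1 ≤ k → ((A - A).card : ℝ) ≤ Real.exp k * A.card → ∀ l : ℕ, 1 ≤ l →
      ∃ X : Finset (ZMod N), X.Nonempty ∧
        Real.log ((N : ℝ) / (X.card : ℝ)) ≤ Real.log ((N : ℝ) / (A.card : ℝ))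
          + C * (k ^ 2 * (Real.log (k + 2) + Real.log (l + 1))) ∧
        ∀ a b : Fin l → ZMod N, (∀ i, a i ∈ X) → (∀ i, b i ∈ X) →
          ∃ a₁ ∈ A, ∃ a₂ ∈ A, ∃ a₃ ∈ A, ∃ a₄ ∈ A,
            ∑ i, a i - ∑ i, b i = a₁ + a₂ - a₃ - a₄ := by
  obtain ⟨C₀, hC₀, c₀, hc₀, hbase⟩ := quad_base
  obtain ⟨C, hC, hnum⟩ := LA_num C₀ c₀ hC₀ hc₀
  refine ⟨C, hC, ?_⟩
  intro N _ A hA k hk hAK l hl
  have hN : (0 : ℝ) < N := by exact_mod_cast Nat.pos_of_ne_zero (NeZero.ne N)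
  have hc : (0 : ℝ) < A.card := by exact_mod_cast hA.card_pos
  set K : ℝ := Real.exp k with hK
  have hK1 : 1 ≤ K := Real.one_le_exp (by linarith)
  have hK0 : 0 < K := by linarith
  -- the model
  obtain ⟨M, hMne, A₂, φ, hA₂A, hA₂ne, hA₂c, h2A₂, hMD, hφ⟩ := LQ.model A hA
  have hM0 : 0 < M := Nat.pos_of_ne_zero hMne.out
  have hMpos : (0 : ℝ) < M := by exact_mod_cast hM0
  have hAA₂ : (A.card : ℝ) ≤ 72 * A₂.card := by exact_mod_cast hA₂c
  have hc₂ : (0 : ℝ) < A₂.card := by exact_mod_cast hA₂ne.card_pos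
  set E : Finset (ZMod M) := A₂.image φ with hE
  have hinj : Set.InjOn φ (A₂ : Set (ZMod N)) := by
    intro a ha b hb hab
    obtain ⟨a₀, ha₀⟩ := hA₂ne
    have h2 := (hφ ![a, a₀, a₀, a₀, a₀, a₀] ![b, a₀, a₀, a₀, a₀, a₀] (by
        intro i
        fin_cases i <;> first | exact ha | exact ha₀) (by
        intro i
        fin_cases i <;> first | exact hb | exact ha₀)).2 (by
        rw [Fin.sum_univ_six, Fin.sum_univ_six]
        simp [hab])
    rw [Fin.sum_univ_six, Fin.sum_univ_six] at h2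
    simpa using h2
  have hEc : E.card = A₂.card := Finset.card_image_of_injOn hinj
  have hEne : E.Nonempty := hA₂ne.image φ
  have h2A₂M : 2 * (A₂.card : ℝ) ≤ M := by exact_mod_cast h2A₂
  have hdens : (E.card : ℝ) / (M : ℝ) ≤ 1 / 2 := by
    rw [hEc, div_le_iff₀ hMpos]; linarith
  have hMle : (M : ℝ) ≤ 216 * K ^ 12 * A₂.card := by
    have h1 := LQ.plu A hA K hAK 6 6
    have h4 : (1 : ℝ) ≤ A₂.card := by exact_mod_cast hA₂ne.card_pos
    have h5 : (1 : ℝ) ≤ K ^ 12 := one_le_pow₀ hK1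
    have h6 : (M : ℝ) ≤ 2 * (((6 • A) - (6 • A)).card : ℝ) + 1 := by exact_mod_cast hMD
    have h7 : K ^ 12 * (A.card : ℝ) ≤ K ^ 12 * (72 * A₂.card) := by gcongr
    have h8 : 1 ≤ K ^ 12 * (A₂.card : ℝ) := by
      calc (1 : ℝ) = 1 * 1 := by norm_num
        _ ≤ K ^ 12 * A₂.card := by gcongr
    norm_num at h1
    linarith
  set L : ℝ := Real.log ((M : ℝ) / (E.card : ℝ)) with hL
  have hLk : L ≤ 12 * k + 6 := by
    rw [hL, hEc]
    have h1 : (M : ℝ) / A₂.card ≤ 216 * K ^ 12 := by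
      rw [div_le_iff₀ hc₂]; exact hMle
    have h2 := Real.log_le_log (by positivity) h1
    rw [Real.log_mul (by norm_num) (by positivity), Real.log_pow, hK, Real.log_exp] at h2
    have h3 : Real.log 216 ≤ 6 := by
      rw [Real.log_le_iff_le_exp (by norm_num)]
      have h4 : Real.exp 6 = Real.exp 1 ^ 6 := by rw [← Real.exp_nat_mul]; norm_num
      rw [h4]
      have h5 : (2.7 : ℝ) ≤ Real.exp 1 := by
        have := Real.exp_one_gt_d9
        linarith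
      calc (216 : ℝ) ≤ 2.7 ^ 6 := by norm_num
        _ ≤ Real.exp 1 ^ 6 := pow_le_pow_left₀ (by norm_num) h5 6
    push_cast at h2
    linarith
  have hLlow : 1 / 2 ≤ L := by
    have h1 : (2 : ℝ) ≤ (M : ℝ) / E.card := by
      rw [hEc, le_div_iff₀ hc₂]; exact h2A₂M
    have h2 := Real.log_le_log (by norm_num) h1
    have h3 := Real.log_two_gt_d9
    rw [hL]; linarith
  obtain ⟨Γ', ρ, hρ, hΓ', hρ2, hincl'⟩ := hbase M hM0 E hEne hdens L hL
  have hn := hnum k L ρ Γ'.card l _ hk hLlow hLk hρ hΓ' hρ2 hl rfl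
  set m : ℕ := ⌈2 * (l : ℝ) / min ρ 1⌉₊ with hm
  have hlr : (1 : ℝ) ≤ l := by exact_mod_cast hl
  have hmin : 0 < min ρ 1 := lt_min hρ one_pos
  have hmr : 2 * (l : ℝ) / min ρ 1 ≤ m := Nat.le_ceil _
  have hmpos : (0 : ℝ) < m := lt_of_lt_of_le (by positivity) hmr
  have hm1 : 0 < m := by exact_mod_cast hmpos
  have hnm : 2 * (l : ℝ) / m ≤ ρ := by
    rw [div_le_iff₀ hmpos]
    have h1 : 2 * (l : ℝ) ≤ m * min ρ 1 := by
      rwa [div_le_iff₀ hmin] at hmr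
    have h2 : (m : ℝ) * min ρ 1 ≤ m * ρ := by
      gcongr
      exact min_le_left _ _
    linarith
  -- the small Bohr set
  set B' : Finset (ZMod M) := LQ.bohr Γ' (1 / (m : ℝ)) with hB'
  have hB'c : M ≤ m ^ Γ'.card * B'.card := LQ.bohr_card Γ' m hm1
  have hB'c' : (M : ℝ) ≤ (m : ℝ) ^ Γ'.card * B'.card := by exact_mod_cast hB'c
  obtain ⟨X, hX0, hXneg, hXc, hXl⟩ := LQ.pullback A₂ hA₂ne φ hφ (LQ.bohr Γ' ρ) B' (by
      intro x hx
      rw [LQ.mem_bohr] at hx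
      obtain ⟨a₁, h1, a₂, h2, a₃, h3, a₄, h4, h5⟩ := hincl' x hx
      rw [h5, sub_sub]
      exact Finset.sub_mem_sub (Finset.add_mem_add h1 h2) (Finset.add_mem_add h3 h4))
    (LQ.zero_mem_bohr _ _ (by positivity)) (LQ.neg_bohr _ _) (2 * l) (by omega) (by
      intro j hj
      refine (LQ.nsmul_bohr_subset Γ' _ j).trans (LQ.bohr_mono _ _ _ ?_)
      refine le_trans ?_ hnm
      rw [mul_one_div]
      have : (j : ℝ) ≤ 2 * (l : ℝ) := by exact_mod_cast hj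
      gcongr)
  have hXc' : (M : ℝ) ≤ (m : ℝ) ^ Γ'.card * X.card := by rw [hXc]; exact hB'c'
  have hXpos : (0 : ℝ) < X.card := by exact_mod_cast Finset.card_pos.2 ⟨0, hX0⟩
  have hA₂X : (A₂.card : ℝ) ≤ (m : ℝ) ^ Γ'.card * X.card := by linarith
  refine ⟨X, ⟨0, hX0⟩, ?_, ?_⟩
  · have h1 : (N : ℝ) / X.card ≤ (N : ℝ) / A.card * 72 * (m : ℝ) ^ Γ'.card := by
      rw [div_le_iff₀ hXpos]
      calc (N : ℝ) = (N : ℝ) / A.card * A.card := by field_simp
        _ ≤ (N : ℝ) / A.card * (72 * ((m : ℝ) ^ Γ'.card * X.card)) := by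
            gcongr
            linarith
        _ = _ := by ring
    have h2 := Real.log_le_log (by positivity) h1
    rw [Real.log_mul (by positivity) (by positivity), Real.log_mul (by positivity) (by norm_num),
      Real.log_pow] at h2
    have h3 : Real.log 72 ≤ 5 := by
      rw [Real.log_le_iff_le_exp (by norm_num)]
      have h4 : Real.exp 5 = Real.exp 1 ^ 5 := by rw [← Real.exp_nat_mul]; norm_num
      rw [h4]
      have h5 : (2.7 : ℝ) ≤ Real.exp 1 := by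
        have := Real.exp_one_gt_d9
        linarith
      calc (72 : ℝ) ≤ 2.7 ^ 5 := by norm_num
        _ ≤ Real.exp 1 ^ 5 := pow_le_pow_left₀ (by norm_num) h5 5
    linarith
  · intro a b ha hb
    have h1 := hXl (LA_diff X hXneg l a b ha hb)
    obtain ⟨u, hu, v, hv, huv⟩ := Finset.mem_sub.mp h1
    obtain ⟨a₁, h1, a₂, h2, rfl⟩ := Finset.mem_add.mp hu
    obtain ⟨a₃, h3, a₄, h4, rfl⟩ := Finset.mem_add.mp hv
    exact ⟨a₁, hA₂A h1, a₂, hA₂A h2, a₃, hA₂A h3, a₄, hA₂A h4, by rw [← huv]; ring⟩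

end Pool.H84.IT
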