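import Pool.Agent.H84.IT.SumG
import Pool.Agent.H84.IT.LA
import Pool.Agent.H33.QB.Multi

set_option autoImplicit false

/-!
Bohr sets in `2A - 2A`, `A` of doubling `exp k` (all radii).
-/

namespace Pool.H84.IT

open Pool.H84.CP Pool.Agent.H18
open scoped Pointwise

private theorem LB_E1 (L k : ℝ) (hL : 0 ≤ L) (hk : 1 ≤ k) :
    k ^ 2 * Real.log (L + 2) ≤ 6 * (L + k ^ 2 * Real.log (k + 2)) := by
  have hl1 : 1 ≤ Real.log (k + 2) := by
    rw [Real.le_log_iff_exp_le (by linarith)]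
    have := Real.exp_one_lt_d9
    linarith
  have hk2 : 1 ≤ k ^ 2 := by nlinarith
  have hkl : k ^ 2 ≤ k ^ 2 * Real.log (k + 2) := le_mul_of_one_le_right (by positivity) hl1
  rcases le_or_gt (Real.log (L + 2)) (3 * Real.log (k + 2)) with h | h
  · have h1 := mul_le_mul_of_nonneg_left h (by positivity : 0 ≤ k ^ 2)
    nlinarith
  · obtain ⟨t, ht⟩ : ∃ t, t = Real.log (L + 2) / 3 := ⟨_, rfl⟩
    have e1 : L + 2 = Real.exp t ^ 3 := by
      rw [← Real.exp_nat_mul, ht]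
      rw [show ((3 : ℕ) : ℝ) * (Real.log (L + 2) / 3) = Real.log (L + 2) by push_cast; ring]
      rw [Real.exp_log (by linarith)]
    have e2 : k ≤ Real.exp t := by
      have h2 : Real.log (k + 2) ≤ t := by linarith
      have h3 := Real.exp_le_exp.2 h2
      rw [Real.exp_log (by linarith)] at h3
      linarith
    have e3 : t ≤ Real.exp t := by
      have := Real.add_one_le_exp t
      linarith
    have ht0 : 0 ≤ t := by
      have : 0 ≤ Real.log (L + 2) := Real.log_nonneg (by linarith)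
      rw [ht]
      positivity
    have e4 : k ^ 2 ≤ Real.exp t ^ 2 := pow_le_pow_left₀ (by linarith) e2 2
    have e5 : k ^ 2 * t ≤ Real.exp t ^ 2 * Real.exp t := mul_le_mul e4 e3 ht0 (by positivity)
    have e6 : k ^ 2 * Real.log (L + 2) ≤ 3 * (L + 2) := by
      rw [e1]
      have : Real.log (Real.exp t ^ 3) = 3 * t := by
        rw [← e1, ht]
        ring
      rw [this]
      nlinarith
    linarith

private theorem LB_a : ∃ K C0 : ℝ, 1 ≤ K ∧ 16451 ≤ C0 ∧ ∀ N : ℕ, ∀ _ : NeZero N, ∀ A : Finset (ZMod N), A.Nonempty →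
      ∀ k : ℝ, 1 ≤ k → ((A - A).card : ℝ) ≤ Real.exp k * A.card →
      ∀ q : ℕ, C0 * (Real.log ((N : ℝ) / (A.card : ℝ)) + k + 2) ^ 3 ≤ q →
      ∃ Γ : Finset (ZMod N),
        (Γ.card : ℝ) ≤ K * (k ^ 2 + (Real.log ((N : ℝ) / (A.card : ℝ))
          + k ^ 2 * Real.log (k + 2)) / Real.log q) ∧
        ∀ x : ZMod N, (∀ γ ∈ Γ, bn (γ * x) ≤ 1 / (4 * (q : ℝ))) →
          ∃ a₁ ∈ A, ∃ a₂ ∈ A, ∃ a₃ ∈ A, ∃ a₄ ∈ A, x = a₁ + a₂ - a₃ - a₄ := by
  obtain ⟨Ca, hCa, hset⟩ := local_set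
  obtain ⟨C1, hC1⟩ : ∃ C1, C1 = 1 + 9 * Ca := ⟨_, rfl⟩
  have hC11 : 1 ≤ C1 := by linarith
  refine ⟨15 * C1 + 2, 16451 + 14 * C1, by linarith, by linarith, ?_⟩
  intro N _ A hA k hk hd q hq
  have hN0 : (0 : ℝ) < N := by exact_mod_cast Nat.pos_of_ne_zero (NeZero.ne N)
  have hA0 : (0 : ℝ) < A.card := by exact_mod_cast hA.card_pos
  have hAN : (A.card : ℝ) ≤ N := by
    have h1 := Finset.card_le_univ A
    rw [ZMod.card] at h1
    exact_mod_cast h1
  obtain ⟨L, hLdef⟩ : ∃ L, L = Real.log ((N : ℝ) / (A.card : ℝ)) := ⟨_, rfl⟩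
  have hL : 0 ≤ L := by
    rw [hLdef]
    exact Real.log_nonneg ((one_le_div hA0).2 hAN)
  rw [← hLdef] at hq ⊢
  obtain ⟨Y, hY⟩ : ∃ Y, Y = (L + k + 2) ^ 3 := ⟨_, rfl⟩
  rw [← hY] at hq
  have hY27 : 27 ≤ Y := by
    rw [hY]
    have : (3 : ℝ) ^ 3 ≤ (L + k + 2) ^ 3 := pow_le_pow_left₀ (by norm_num) (by linarith) 3
    linarith
  have hqR : (16451 : ℝ) ≤ q := by nlinarith
  have hq2 : 2 ≤ q := by
    have : (2 : ℝ) ≤ q := by linarith
    exact_mod_cast this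
  have hq0 : (0 : ℝ) < q := by linarith
  obtain ⟨lq, hlq⟩ : ∃ lq, lq = Real.log (q : ℝ) := ⟨_, rfl⟩
  obtain ⟨lk, hlk⟩ : ∃ lk, lk = Real.log (k + 2) := ⟨_, rfl⟩
  rw [← hlq, ← hlk]
  have hlq1 : 1 ≤ lq := by
    rw [hlq, Real.le_log_iff_exp_le hq0]
    have := Real.exp_one_lt_d9
    linarith
  have hlk1 : 1 ≤ lk := by
    rw [hlk, Real.le_log_iff_exp_le (by linarith)]
    have := Real.exp_one_lt_d9
    linarith
  have hlkk : lk ≤ k + 1 := by
    rw [hlk]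
    have := Real.log_le_sub_one_of_pos (show 0 < k + 2 by linarith)
    linarith
  have hlqq : lq ≤ q := by
    rw [hlq]
    have := Real.log_le_sub_one_of_pos hq0
    linarith
  have hk2 : 1 ≤ k ^ 2 := by nlinarith
  obtain ⟨D, hD⟩ : ∃ D, D = L + k ^ 2 * lk := ⟨_, rfl⟩
  have hk2lk : k ^ 2 ≤ k ^ 2 * lk := le_mul_of_one_le_right (by positivity) hlk1
  have hD1 : 1 ≤ D := by linarith
  have hDY : D ≤ Y := by
    have h1 : k ^ 2 * lk ≤ k ^ 2 * (k + 1) := mul_le_mul_of_nonneg_left hlkk (by positivity)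
    have h2 : Y = (k + 2) ^ 3 + 3 * (k + 2) ^ 2 * L + 3 * (k + 2) * L ^ 2 + L ^ 3 := by
      rw [hY]
      ring
    have h3 : k ^ 2 * (k + 1) ≤ (k + 2) ^ 3 := by nlinarith [sq_nonneg k]
    have h4 : L ≤ 3 * (k + 2) ^ 2 * L := by
      have : 1 ≤ 3 * (k + 2) ^ 2 := by nlinarith
      nlinarith
    have h5 : 0 ≤ 3 * (k + 2) * L ^ 2 := by positivity
    have h6 : 0 ≤ L ^ 3 := by positivity
    linarith
  have hkY : k ^ 2 ≤ Y := by linarith
  obtain ⟨M, hM⟩ : ∃ M, M = C1 * (D + k ^ 2 * lq) := ⟨_, rfl⟩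
  have hk2lq : k ^ 2 ≤ k ^ 2 * lq := le_mul_of_one_le_right (by positivity) hlq1
  have hM1 : 1 ≤ M := by
    rw [hM]
    nlinarith
  have hM0 : 0 < M := by linarith
  have hMlog : M ≤ 2 * C1 * Y * lq := by
    have h1 : D ≤ Y * lq := hDY.trans (le_mul_of_one_le_right (by linarith) hlq1)
    have h2 : k ^ 2 * lq ≤ Y * lq := mul_le_mul_of_nonneg_right hkY (by linarith)
    rw [hM]
    have h3 := mul_le_mul_of_nonneg_left (add_le_add h1 h2) (by linarith : 0 ≤ C1)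
    linarith
  have hCY : 14 * (C1 * Y) ≤ q := by nlinarith
  have hMq : M ≤ (q : ℝ) ^ 2 := by
    have h1 : 2 * C1 * Y ≤ q := by nlinarith
    calc M ≤ 2 * C1 * Y * lq := hMlog
      _ ≤ q * q := mul_le_mul h1 hlqq (by linarith) hq0.le
      _ = (q : ℝ) ^ 2 := by ring
  have h6M : 6 * M ≤ q * Real.log q := by
    rw [← hlq]
    have h1 : 12 * (C1 * Y) ≤ q := by
      have : 0 ≤ C1 * Y := by nlinarith
      linarith
    have h2 := mul_le_mul_of_nonneg_right h1 (by linarith : 0 ≤ lq)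
    linarith
  -- the number of summands
  obtain ⟨l, hl⟩ : ∃ l : ℕ, l = ⌊64 * 257 * M ^ 2 * (q : ℝ) ^ 4⌋₊ + 2 := ⟨_, rfl⟩
  have hlow : 64 * 257 * M ^ 2 * (q : ℝ) ^ 4 + 1 < (l : ℝ) := by
    rw [hl]
    push_cast
    have := Nat.lt_floor_add_one (64 * 257 * M ^ 2 * (q : ℝ) ^ 4)
    linarith
  have hupp : (l : ℝ) + 1 ≤ 16451 * (M ^ 2 * (q : ℝ) ^ 4) := by
    rw [hl]
    push_cast
    have h1 := Nat.floor_le (show 0 ≤ 64 * 257 * M ^ 2 * (q : ℝ) ^ 4 by positivity)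
    have h2 : 1 ≤ M ^ 2 * (q : ℝ) ^ 4 := by
      have h3 : 1 ≤ M ^ 2 := by nlinarith
      have h4 : 1 ≤ (q : ℝ) ^ 4 := one_le_pow₀ (by linarith)
      nlinarith
    linarith
  have hllog : Real.log (l + 1) ≤ 9 * lq := by
    have h1 : (l : ℝ) + 1 ≤ (q : ℝ) ^ 9 := by
      have h2 : M ^ 2 ≤ ((q : ℝ) ^ 2) ^ 2 := pow_le_pow_left₀ hM0.le hMq 2
      have h3 : M ^ 2 * (q : ℝ) ^ 4 ≤ ((q : ℝ) ^ 2) ^ 2 * (q : ℝ) ^ 4 :=
        mul_le_mul_of_nonneg_right h2 (by positivity)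
      calc (l : ℝ) + 1 ≤ 16451 * (M ^ 2 * (q : ℝ) ^ 4) := hupp
        _ ≤ q * (((q : ℝ) ^ 2) ^ 2 * (q : ℝ) ^ 4) := mul_le_mul hqR h3 (by positivity) hq0.le
        _ = (q : ℝ) ^ 9 := by ring
    have h4 := Real.log_le_log (by positivity) h1
    rw [Real.log_pow, ← hlq] at h4
    exact_mod_cast h4
  obtain ⟨X, hX, hXlog, hXsum⟩ := hset N inferInstance A hA k hk hd l (by omega)
  rw [← hLdef, ← hlk] at hXlog
  have hXM : Real.log ((N : ℝ) / (X.card : ℝ)) ≤ M := by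
    have h1 : k ^ 2 * (lk + Real.log (l + 1)) ≤ k ^ 2 * (lk + 9 * lq) :=
      mul_le_mul_of_nonneg_left (by linarith) (by positivity)
    have h2 := mul_le_mul_of_nonneg_left h1 hCa.le
    have h3 : 0 ≤ Ca * L := by positivity
    have h4 : 0 ≤ Ca * (k ^ 2 * lk) := by positivity
    have h5 : 0 ≤ k ^ 2 * lk := by positivity
    have h6 : 0 ≤ k ^ 2 * lq := by positivity
    rw [hM, hC1, hD]
    nlinarith
  obtain ⟨Λ, hΛ, hΛ2⟩ := sum_gen X hX M hM1 hXM hq2 h6M l hlow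
  refine ⟨Λ, ?_, fun x hx => ?_⟩
  · rw [← hlq] at hΛ
    refine hΛ.trans ?_
    have h1 : 15 * M / lq = 15 * C1 * (D / lq) + 15 * C1 * k ^ 2 := by
      rw [hM]
      field_simp
    rw [h1, ← hD]
    have h2 : 0 ≤ D / lq := by positivity
    nlinarith
  · obtain ⟨a, b, ha, hb, hab⟩ := hΛ2 x hx
    obtain ⟨a₁, h1, a₂, h2, a₃, h3, a₄, h4, h5⟩ := hXsum a b ha hb
    exact ⟨a₁, h1, a₂, h2, a₃, h3, a₄, h4, hab.trans h5⟩

theorem local_bohr :
    ∃ C : ℝ, 0 < C ∧ ∀ N : ℕ, ∀ _ : NeZero N, ∀ A : Finset (ZMod N), A.Nonempty →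
      ∀ k : ℝ, 1 ≤ k → ((A - A).card : ℝ) ≤ Real.exp k * A.card →
      ∀ ε : ℝ, 0 < ε → ε ≤ 1 / 8 →
      ∃ Γ : Finset (ZMod N),
        (Γ.card : ℝ) ≤ C * (k ^ 2 + (Real.log ((N : ℝ) / (A.card : ℝ))
          + k ^ 2 * Real.log (k + 2)) / Real.log (1 / ε)) ∧
        ∀ x : ZMod N, (∀ γ ∈ Γ, bn (γ * x) ≤ ε) →
          ∃ a₁ ∈ A, ∃ a₂ ∈ A, ∃ a₃ ∈ A, ∃ a₄ ∈ A, x = a₁ + a₂ - a₃ - a₄ := by
  obtain ⟨K, C0, hK1, hC0, hbase⟩ := LB_a
  have hlC0 : 0 ≤ Real.log (2 * C0) := Real.log_nonneg (by linarith)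
  refine ⟨12 * K * (Real.log (2 * C0) + 22), by positivity, ?_⟩
  intro N _ A hA k hk hd ε hε hε8
  have hN0 : (0 : ℝ) < N := by exact_mod_cast Nat.pos_of_ne_zero (NeZero.ne N)
  have hA0 : (0 : ℝ) < A.card := by exact_mod_cast hA.card_pos
  have hAN : (A.card : ℝ) ≤ N := by
    have h1 := Finset.card_le_univ A
    rw [ZMod.card] at h1
    exact_mod_cast h1
  have hbase' := hbase N inferInstance A hA k hk hd
  obtain ⟨L, hLdef⟩ : ∃ L, L = Real.log ((N : ℝ) / (A.card : ℝ)) := ⟨_, rfl⟩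
  have hL : 0 ≤ L := by
    rw [hLdef]
    exact Real.log_nonneg ((one_le_div hA0).2 hAN)
  rw [← hLdef] at hbase' ⊢
  have hlk1 : 1 ≤ Real.log (k + 2) := by
    rw [Real.le_log_iff_exp_le (by linarith)]
    have := Real.exp_one_lt_d9
    linarith
  obtain ⟨D, hD⟩ : ∃ D, D = L + k ^ 2 * Real.log (k + 2) := ⟨_, rfl⟩
  have hk2 : 1 ≤ k ^ 2 := by nlinarith
  have hk2lk : k ^ 2 ≤ k ^ 2 * Real.log (k + 2) := le_mul_of_one_le_right (by positivity) hlk1
  have hD1 : 1 ≤ D := by linarith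
  have hkD : k ^ 2 ≤ D := by linarith
  rw [← hD] at hbase' ⊢
  obtain ⟨Y, hY⟩ : ∃ Y, Y = (L + k + 2) ^ 3 := ⟨_, rfl⟩
  rw [← hY] at hbase'
  have hY27 : 27 ≤ Y := by
    rw [hY]
    have : (3 : ℝ) ^ 3 ≤ (L + k + 2) ^ 3 := pow_le_pow_left₀ (by norm_num) (by linarith) 3
    linarith
  have hCY : 16451 ≤ C0 * Y := by nlinarith
  obtain ⟨q0, hq0⟩ : ∃ q0 : ℕ, q0 = ⌈C0 * Y⌉₊ := ⟨_, rfl⟩
  have hq0l : C0 * Y ≤ q0 := by
    rw [hq0]
    exact Nat.le_ceil _
  have hq0u : (q0 : ℝ) ≤ 2 * C0 * Y := by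
    rw [hq0]
    have := Nat.ceil_lt_add_one (show 0 ≤ C0 * Y by linarith)
    linarith
  have hq0R : (16451 : ℝ) ≤ q0 := by linarith
  have hlogε : 0 < Real.log (1 / ε) := by
    apply Real.log_pos
    rw [lt_div_iff₀ hε]
    linarith
  have hQ : 0 ≤ D / Real.log (1 / ε) := by positivity
  rcases le_or_gt ε (1 / (4 * (q0 : ℝ))) with hcase | hcase
  · -- small radius
    obtain ⟨q, hq⟩ : ∃ q : ℕ, q = ⌊1 / (4 * ε)⌋₊ := ⟨_, rfl⟩
    have h4 : (q0 : ℝ) ≤ 1 / (4 * ε) := by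
      rw [le_div_iff₀ (by positivity)] at hcase ⊢
      linarith
    have hqq0 : (q0 : ℝ) ≤ q := by
      have : q0 ≤ q := by
        rw [hq]
        exact Nat.le_floor h4
      exact_mod_cast this
    have hqu : (q : ℝ) ≤ 1 / (4 * ε) := by
      rw [hq]
      exact Nat.floor_le (by positivity)
    have hql : 1 / (4 * ε) < q + 1 := by
      rw [hq]
      exact Nat.lt_floor_add_one _
    have hq1 : (0 : ℝ) < q := by linarith
    obtain ⟨Γ, hΓ, hΓ2⟩ := hbase' q (hq0l.trans hqq0)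
    refine ⟨Γ, ?_, fun x hx => hΓ2 x fun γ hγ => (hx γ hγ).trans ?_⟩
    · have hε2 : 4 * (16451 : ℝ) ≤ 1 / ε := by
        have e1 : 1 / ε = 4 * (1 / (4 * ε)) := by field_simp
        rw [e1]
        linarith
      have hsq : Real.log (1 / ε) ≤ 2 * Real.log q := by
        have h1 : 1 / ε ≤ (q : ℝ) ^ 2 := by
          have e1 : 1 / ε = 4 * (1 / (4 * ε)) := by field_simp
          rw [e1]
          nlinarith
        have h2 := Real.log_le_log (by positivity) h1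
        rw [Real.log_pow] at h2
        exact_mod_cast h2
      have hlq : 0 < Real.log q := by linarith
      have h1 : D / Real.log q ≤ 2 * (D / Real.log (1 / ε)) := by
        rw [div_le_iff₀ hlq]
        have h3 : D = D / Real.log (1 / ε) * Real.log (1 / ε) := by field_simp
        have h4 := mul_le_mul_of_nonneg_left hsq hQ
        nlinarith
      refine hΓ.trans ?_
      have h2 : K * (k ^ 2 + D / Real.log q) ≤ K * (2 * (k ^ 2 + D / Real.log (1 / ε))) :=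
        mul_le_mul_of_nonneg_left (by linarith) (by linarith)
      refine h2.trans ?_
      have h3 : 0 ≤ K * (k ^ 2 + D / Real.log (1 / ε)) := by positivity
      have h4 : 0 ≤ K * (k ^ 2 + D / Real.log (1 / ε)) * Real.log (2 * C0) := by positivity
      nlinarith
    · rw [le_div_iff₀ (by positivity)]
      rw [le_div_iff₀ (by positivity)] at hqu
      linarith
  · -- large radius
    obtain ⟨Γ, hΓ, hΓ2⟩ := hbase' q0 hq0l
    have hq00 : (0 : ℝ) < q0 := by linarith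
    have hρ1 : 1 / (4 * (q0 : ℝ)) ≤ 1 := by
      rw [div_le_one (by positivity)]
      linarith
    obtain ⟨m, s, hm, hmε, hms, hs⟩ := Pool.Agent.H33.QB.params ε (1 / (4 * (q0 : ℝ))) hε hε8 (by positivity) hρ1
    obtain ⟨Γ', hΓ', hΓ'2⟩ := Pool.Agent.H33.QB.multi Γ m s ε (1 / (4 * (q0 : ℝ))) hm hmε hms
    refine ⟨Γ', ?_, fun x hx => hΓ2 x fun γ hγ => hΓ'2 x (fun γ' hγ' => hx γ' hγ') γ hγ⟩
    rw [one_div_one_div] at hs
    have hlq0 : 0 < Real.log q0 := Real.log_pos (by linarith)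
    have h4q : Real.log (4 * q0) ≤ 2 * Real.log q0 := by
      have h1 : 4 * (q0 : ℝ) ≤ (q0 : ℝ) ^ 2 := by nlinarith
      have h2 := Real.log_le_log (by positivity) h1
      rw [Real.log_pow] at h2
      exact_mod_cast h2
    have hεq : Real.log (1 / ε) ≤ Real.log (4 * q0) := by
      apply Real.log_le_log (by positivity)
      rw [div_lt_iff₀ (by positivity)] at hcase
      rw [div_le_iff₀ hε]
      linarith
    obtain ⟨lε, hlε⟩ : ∃ lε, lε = Real.log (1 / ε) := ⟨_, rfl⟩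
    obtain ⟨lq, hlq⟩ : ∃ lq, lq = Real.log (q0 : ℝ) := ⟨_, rfl⟩
    rw [← hlε] at hlogε hεq hs ⊢
    rw [← hlq] at hΓ h4q hlq0
    have hs2 : (s : ℝ) + 1 ≤ 12 * (lq / lε) := by
      have h1 : Real.log (4 * q0) / lε ≤ 2 * (lq / lε) := by
        rw [div_le_iff₀ hlogε]
        have : 2 * (lq / lε) * lε = 2 * lq := by field_simp
        rw [this]
        exact h4q
      have h2 : 1 ≤ Real.log (4 * q0) / lε := by
        rw [one_le_div hlogε]
        exact hεq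
      linarith
    have hcard : (Γ'.card : ℝ) ≤ ((s : ℝ) + 1) * Γ.card := by exact_mod_cast hΓ'
    have hfin : (Γ'.card : ℝ) ≤ 12 * (lq / lε) * (K * (k ^ 2 + D / lq)) := by
      refine hcard.trans ?_
      exact mul_le_mul hs2 hΓ (by positivity) (by positivity)
    have heq : 12 * (lq / lε) * (K * (k ^ 2 + D / lq)) = 12 * K * ((k ^ 2 * lq + D) / lε) := by
      field_simp
    have hlqle : lq ≤ Real.log (2 * C0) + 3 * (Real.log (L + 2) + Real.log (k + 2)) := by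
      have h1 : (L + k + 2) ≤ (L + 2) * (k + 2) := by nlinarith
      have h2 : Real.log (L + k + 2) ≤ Real.log (L + 2) + Real.log (k + 2) := by
        rw [← Real.log_mul (by linarith) (by linarith)]
        exact Real.log_le_log (by linarith) h1
      have h3 : lq ≤ Real.log (2 * C0 * Y) := by
        rw [hlq]
        exact Real.log_le_log hq00 hq0u
      rw [Real.log_mul (by linarith) (by linarith), hY, Real.log_pow] at h3
      push_cast at h3
      linarith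
    have hE1 := LB_E1 L k hL hk
    rw [← hD] at hE1
    have hklq : k ^ 2 * lq ≤ (Real.log (2 * C0) + 21) * D := by
      have h1 := mul_le_mul_of_nonneg_left hlqle (by positivity : 0 ≤ k ^ 2)
      have h2 : k ^ 2 * Real.log (2 * C0) ≤ D * Real.log (2 * C0) := mul_le_mul_of_nonneg_right hkD hlC0
      have h3 : k ^ 2 * Real.log (k + 2) ≤ D := by linarith
      nlinarith
    have hlast : (k ^ 2 * lq + D) / lε ≤ (Real.log (2 * C0) + 22) * (D / lε) := by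
      rw [← mul_div_assoc]
      apply div_le_div_of_nonneg_right _ hlogε.le
      linarith
    rw [heq] at hfin
    refine hfin.trans ?_
    have h5 : 12 * K * ((k ^ 2 * lq + D) / lε) ≤ 12 * K * ((Real.log (2 * C0) + 22) * (D / lε)) :=
      mul_le_mul_of_nonneg_left hlast (by positivity)
    refine h5.trans ?_
    have h6 : 0 ≤ 12 * K * (Real.log (2 * C0) + 22) * k ^ 2 := by positivity
    have h7 : 12 * K * ((Real.log (2 * C0) + 22) * (D / lε)) = 12 * K * (Real.log (2 * C0) + 22) * (D / lε) := by ring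
    rw [h7]
    nlinarith

end Pool.H84.IT
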