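import Pool.Agent.H84.IT.LB
import Pool.Agent.H18.BSG

set_option autoImplicit false

/-!
Row IT_LC. The local theorem in terms of the additive energy.

Exactly as in `Pool/Agent/Results/MP_169871_nt/LocalBohr.lean` (proof of `base`: the bounds
`0 ≤ Q ≤ L`, `bsg`, `K0 = exp Q`, `A'` with `|A' - A'| ≤ exp (11 + 4 Q) |A'|` and
`log (N/|A'|) ≤ L + Q + 1`), with `local_bohr` for `A'`, `k = 11 + 4 Q`:
`k^2 ≤ C (1 + Q^2)`, `log (k + 2) ≤ C log (Q + 2)`, `Q ≤ L`, `L ≥ 1/2`,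
`(1 + Q^2) log (Q + 2) ≤ C (L + Q^2 log (Q+2))` (case `Q ≤ 1` / `Q ≥ 1`).
-/

namespace Pool.H84.IT

open Pool.H84.CP Pool.Agent.H18

lemma LC_log_const_le : Real.log 43691 ≤ 11 := by
  rw [Real.log_le_iff_le_exp (by norm_num)]
  have h1 : Real.exp 11 = Real.exp 1 ^ 11 := by rw [← Real.exp_nat_mul]; norm_num
  rw [h1]
  have h2 : (2.7 : ℝ) ≤ Real.exp 1 := by
    have := Real.exp_one_gt_d9
    linarith
  calc (43691 : ℝ) ≤ 2.7 ^ 11 := by norm_num
    _ ≤ Real.exp 1 ^ 11 := pow_le_pow_left₀ (by norm_num) h2 11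

lemma LC_log_two_le (Q : ℝ) (hQ : 0 ≤ Q) : 1 / 2 ≤ Real.log (Q + 2) := by
  have h1 : Real.log 2 ≤ Real.log (Q + 2) := Real.log_le_log (by norm_num) (by linarith)
  have := Real.log_two_gt_d9
  linarith

lemma LC_log_k (Q : ℝ) (hQ : 0 ≤ Q) :
    Real.log (11 + 4 * Q + 2) ≤ 5 * Real.log (Q + 2) := by
  have h0 := LC_log_two_le Q hQ
  have h2 : 11 + 4 * Q + 2 ≤ 7 * (Q + 2) := by linarith
  have h3 := Real.log_le_log (by positivity) h2
  rw [Real.log_mul (by norm_num) (by positivity)] at h3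
  have h4 : Real.log 7 ≤ 2 := by
    rw [Real.log_le_iff_le_exp (by norm_num)]
    have h4 : Real.exp 2 = Real.exp 1 ^ 2 := by rw [← Real.exp_nat_mul]; norm_num
    rw [h4]
    have h5 : (2.7 : ℝ) ≤ Real.exp 1 := by
      have := Real.exp_one_gt_d9
      linarith
    calc (7 : ℝ) ≤ 2.7 ^ 2 := by norm_num
      _ ≤ Real.exp 1 ^ 2 := pow_le_pow_left₀ (by norm_num) h5 2
  linarith

lemma LC_param (L Q : ℝ) (hL : 1 / 2 ≤ L) (hQ : 0 ≤ Q) :
    (1 + Q ^ 2) * Real.log (Q + 2) ≤ 5 * (L + Q ^ 2 * Real.log (Q + 2)) := by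
  have h0 := LC_log_two_le Q hQ
  set ℓ : ℝ := Real.log (Q + 2) with hℓ
  have h6 : 0 ≤ Q ^ 2 * ℓ := by positivity
  rcases le_total Q 1 with h | h
  · have h4 : ℓ ≤ 2 := by
      have h5 := Real.log_le_sub_one_of_pos (show 0 < Q + 2 by linarith)
      linarith
    nlinarith
  · have h4 : 1 ≤ Q ^ 2 := by nlinarith
    have h5 : 1 * ℓ ≤ Q ^ 2 * ℓ := by gcongr
    linarith

theorem local_energy :
    ∃ C : ℝ, 0 < C ∧
      ∀ N : ℕ, 0 < N → ∀ A : Finset (ZMod N), A.Nonempty →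
        (A.card : ℝ) / (N : ℝ) ≤ 1 / 2 →
        ∀ L Q : ℝ, L = Real.log ((N : ℝ) / (A.card : ℝ)) →
          Q = Real.log ((A.card : ℝ) ^ 3 / (A.addEnergy A : ℝ)) →
          0 ≤ Q ∧ Q ≤ L ∧
          ∀ ε : ℝ, 0 < ε → ε ≤ 1 / 8 →
            ∃ Γ : Finset (ZMod N),
              (Γ.card : ℝ) ≤ C * (1 + Q ^ 2
                + (L + Q ^ 2 * Real.log (Q + 2)) / Real.log (1 / ε)) ∧
              ∀ x : ZMod N,
                (∀ γ ∈ Γ,
                  |((γ * x).val : ℝ) / (N : ℝ) - ((round (((γ * x).val : ℝ) / (N : ℝ)) : ℤ) : ℝ)|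
                    ≤ ε) →
                ∃ a₁ ∈ A, ∃ a₂ ∈ A, ∃ a₃ ∈ A, ∃ a₄ ∈ A, x = a₁ + a₂ - a₃ - a₄ := by
  obtain ⟨C₁, hC₁, hmain⟩ := local_bohr
  refine ⟨C₁ * 6054, by positivity, ?_⟩
  intro N hN0 A hA hdens L Q hL hQ
  have hNe : NeZero N := ⟨hN0.ne'⟩
  have hN : (0 : ℝ) < N := by exact_mod_cast hN0
  have hc : (0 : ℝ) < A.card := by exact_mod_cast hA.card_pos
  have hEpos : (0 : ℝ) < (A.addEnergy A : ℝ) := by
    exact_mod_cast Finset.addEnergy_pos hA hA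
  have hE1 : (A.addEnergy A : ℝ) ≤ (A.card : ℝ) ^ 3 := by
    have h1 : A.addEnergy A ≤ A.card ^ 3 := by
      rw [energy_eq]
      calc ∑ d, repD A d ^ 2 ≤ ∑ d, A.card * repD A d := by
            refine Finset.sum_le_sum fun d _ => ?_
            rw [sq]
            exact Nat.mul_le_mul_right _ (repD_le A d)
        _ = A.card ^ 3 := by rw [← Finset.mul_sum, sum_repD]; ring
    exact_mod_cast h1
  have hE2 : (A.card : ℝ) ^ 4 ≤ N * (A.addEnergy A : ℝ) := by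
    have h1 := sq_sum_le_card_mul_sum_sq (s := (Finset.univ : Finset (ZMod N)))
      (f := fun d => (repD A d : ℝ))
    have h2 : ∑ d, (repD A d : ℝ) = (A.card : ℝ) ^ 2 := by exact_mod_cast sum_repD A
    have h3 : ∑ d, (repD A d : ℝ) ^ 2 = (A.addEnergy A : ℝ) := by
      rw [energy_eq]; push_cast; rfl
    rw [h2, h3, Finset.card_univ, ZMod.card] at h1
    calc (A.card : ℝ) ^ 4 = ((A.card : ℝ) ^ 2) ^ 2 := by ring
      _ ≤ _ := h1
  set K0 : ℝ := (A.card : ℝ) ^ 3 / (A.addEnergy A : ℝ) with hK0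
  have hK01 : 1 ≤ K0 := by rw [hK0, le_div_iff₀ hEpos]; linarith
  have hK0pos : 0 < K0 := by linarith
  have hQ0 : 0 ≤ Q := by rw [hQ]; exact Real.log_nonneg hK01
  have hQL : Q ≤ L := by
    rw [hQ, hL]
    apply Real.log_le_log hK0pos
    rw [hK0, div_le_div_iff₀ hEpos hc]
    calc (A.card : ℝ) ^ 3 * A.card = (A.card : ℝ) ^ 4 := by ring
      _ ≤ _ := hE2
  have hLlow : 1 / 2 ≤ L := by
    have h1 : (2 : ℝ) ≤ (N : ℝ) / A.card := by
      rw [le_div_iff₀ hc]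
      rw [div_le_iff₀ hN] at hdens
      linarith
    have h2 := Real.log_le_log (by norm_num) h1
    have h3 := Real.log_two_gt_d9
    rw [hL]; linarith
  refine ⟨hQ0, hQL, ?_⟩
  intro ε hε hε8
  obtain ⟨A', hA'A, hA'ne, hA'card, hA'dbl⟩ := bsg A hA K0 hK01 (by
    rw [hK0, div_mul_cancel₀ _ hEpos.ne'])
  have hc' : (0 : ℝ) < A'.card := by exact_mod_cast hA'ne.card_pos
  have hKe : 43691 * K0 ^ 4 ≤ Real.exp (11 + 4 * Q) := by
    rw [← Real.log_le_iff_le_exp (by positivity), Real.log_mul (by norm_num) (by positivity),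
      Real.log_pow, ← hQ]
    have := LC_log_const_le
    norm_num
    linarith
  obtain ⟨Γ, hΓ, hincl⟩ := hmain N hNe A' hA'ne (11 + 4 * Q) (by linarith)
    (hA'dbl.trans (mul_le_mul_of_nonneg_right hKe hc'.le)) ε hε hε8
  refine ⟨Γ, ?_, ?_⟩
  · have hlogε : 0 < Real.log (1 / ε) := by
      apply Real.log_pos
      rw [lt_div_iff₀ hε]; linarith
    have h1 : Real.log ((N : ℝ) / A'.card) ≤ L + Q + 1 := by
      have h2 : (N : ℝ) / A'.card ≤ (N : ℝ) / A.card * K0 * (8 / 3) := by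
        rw [div_le_iff₀ hc']
        have h3 : (N : ℝ) / A.card * K0 * (8 / 3) * A'.card
            = (N : ℝ) / A.card * (8 / 3) * (K0 * A'.card) := by ring
        rw [h3]
        calc (N : ℝ) = (N : ℝ) / A.card * (8 / 3) * (3 / 8 * A.card) := by field_simp
          _ ≤ (N : ℝ) / A.card * (8 / 3) * (K0 * A'.card) := by gcongr
      have h4 := Real.log_le_log (by positivity) h2
      rw [Real.log_mul (by positivity) (by norm_num), Real.log_mul (by positivity) hK0pos.ne',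
        ← hL, ← hQ] at h4
      have h5 : Real.log (8 / 3) ≤ 1 := by
        rw [Real.log_le_iff_le_exp (by norm_num)]
        have := Real.exp_one_gt_d9
        linarith
      linarith
    have hl := LC_log_two_le Q hQ0
    have hk := LC_log_k Q hQ0
    have hp := LC_param L Q hLlow hQ0
    set ℓ : ℝ := Real.log (Q + 2) with hℓ
    have hl0 : 0 ≤ ℓ := by linarith
    have h2 : (11 + 4 * Q) ^ 2 ≤ 242 * (1 + Q ^ 2) := by nlinarith [sq_nonneg (Q - 1)]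
    have h3 : (11 + 4 * Q) ^ 2 * Real.log (11 + 4 * Q + 2) ≤ 6050 * (L + Q ^ 2 * ℓ) := by
      calc (11 + 4 * Q) ^ 2 * Real.log (11 + 4 * Q + 2)
          ≤ (11 + 4 * Q) ^ 2 * (5 * ℓ) := by gcongr
        _ ≤ (242 * (1 + Q ^ 2)) * (5 * ℓ) := by gcongr
        _ = 1210 * ((1 + Q ^ 2) * ℓ) := by ring
        _ ≤ 1210 * (5 * (L + Q ^ 2 * ℓ)) := by gcongr
        _ = 6050 * (L + Q ^ 2 * ℓ) := by ring
    have hQl : 0 ≤ Q ^ 2 * ℓ := by positivity
    have h4 : Real.log ((N : ℝ) / A'.card) + (11 + 4 * Q) ^ 2 * Real.log (11 + 4 * Q + 2)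
        ≤ 6054 * (L + Q ^ 2 * ℓ) := by linarith
    have h5 : (Real.log ((N : ℝ) / A'.card)
        + (11 + 4 * Q) ^ 2 * Real.log (11 + 4 * Q + 2)) / Real.log (1 / ε)
        ≤ 6054 * ((L + Q ^ 2 * ℓ) / Real.log (1 / ε)) := by
      rw [← mul_div_assoc]
      exact div_le_div_of_nonneg_right h4 hlogε.le
    calc (Γ.card : ℝ) ≤ _ := hΓ
      _ ≤ C₁ * (6054 * (1 + Q ^ 2) + 6054 * ((L + Q ^ 2 * ℓ) / Real.log (1 / ε))) := by
        apply mul_le_mul_of_nonneg_left _ hC₁.le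
        have h6 : 242 * (1 + Q ^ 2) ≤ 6054 * (1 + Q ^ 2) := by nlinarith [sq_nonneg Q]
        linarith
      _ = _ := by ring
  · intro x hx
    obtain ⟨a₁, h1, a₂, h2, a₃, h3, a₄, h4, h5⟩ := hincl x (fun γ hγ => hx γ hγ)
    exact ⟨a₁, hA'A h1, a₂, hA'A h2, a₃, hA'A h3, a₄, hA'A h4, h5⟩

end Pool.H84.IT
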