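import Pool.Agent.H84.IT.GL

set_option autoImplicit false

/-!
Row IT_Noise. `bohr_of_noise` (Pool/Agent/H18/Quad.lean) for points `x` that are almost annihilated
by all characters with `‖wft σ γ‖ ≥ 1 - η`, instead of a Bohr set given by Chang's theorem.
-/

namespace Pool.H84.IT

open Pool.H84.CP Pool.Agent.H18
open scoped Pointwise

theorem Noise_lift {N : ℕ} [NeZero N] (y : ZMod N) (h : bn y ≤ 1 / 250) :
    ∃ θ : ℤ, (θ : ZMod N) = y ∧ |(θ : ℝ)| ≤ N / 250 := by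
  have hN : (0 : ℝ) < N := by exact_mod_cast Nat.pos_of_ne_zero (NeZero.ne N)
  refine ⟨(y.val : ℤ) - N * round ((y.val : ℝ) / (N : ℝ)), ?_, ?_⟩
  · push_cast
    rw [ZMod.natCast_self, zero_mul, sub_zero, ZMod.natCast_zmod_val]
  · unfold bn at h
    have e1 : (((y.val : ℤ) - N * round ((y.val : ℝ) / (N : ℝ)) : ℤ) : ℝ)
        = N * ((y.val : ℝ) / (N : ℝ) - ((round ((y.val : ℝ) / (N : ℝ)) : ℤ) : ℝ)) := by
      push_cast
      field_simp
    rw [e1, abs_mul, abs_of_pos hN]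
    calc (N : ℝ) * |(y.val : ℝ) / (N : ℝ) - ((round ((y.val : ℝ) / (N : ℝ)) : ℤ) : ℝ)|
        ≤ N * (1 / 250) := by gcongr
      _ = N / 250 := by ring

theorem mem_of_noise {N : ℕ} [NeZero N] (A : Finset (ZMod N)) (hA : A.Nonempty)
    (ν₁ ν₂ σ : ZMod N → ℝ) (hν₁ : IsPr ν₁) (hν₂ : IsPr ν₂) (hσ : IsPr σ) (n : ℕ) (K η : ℝ)
    (hη : 0 ≤ η) (hη1 : η ≤ 1) (hAK : ((A - A).card : ℝ) ≤ K * A.card)
    (hn : K * (1 - η) ^ n ≤ 1 / 64)
    (hQ : 3 / 5 ≤ Qf ((smo σ)^[n] (gA A)) (cnv ν₁ (unif (-A))) (cnv ν₂ (unif A)))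
    (x : ZMod N) (hx : ∀ γ, 1 - η ≤ ‖wft σ γ‖ → bn (γ * x) ≤ 1 / 250) :
    ∃ a₁ ∈ A, ∃ a₂ ∈ A, ∃ a₃ ∈ A, ∃ a₄ ∈ A, x = a₁ + a₂ - a₃ - a₄ := by
  classical
  have hη2 : 0 ≤ 1 - η := by linarith
  have hN : (0 : ℝ) < N := by exact_mod_cast Nat.pos_of_ne_zero (NeZero.ne N)
  have hc : (0 : ℝ) < A.card := by exact_mod_cast hA.card_pos
  have huA : IsPr (unif A) := ⟨unif_nonneg _, sum_unif _ hA⟩
  have hunA : IsPr (unif (-A)) := ⟨unif_nonneg _, sum_unif _ hA.neg⟩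
  set π := cnv ν₁ (unif (-A)) with hπ
  set ω := cnv ν₂ (unif A) with hω
  have hπP : IsPr π := hν₁.cnv hunA
  have hωP : IsPr ω := hν₂.cnv huA
  -- the spectrum
  set Sp : Finset (ZMod N) := Finset.univ.filter (fun γ => 1 - η ≤ ‖wft σ γ‖) with hSp
  set u := (smo σ)^[n] (gA A) with hu
  have hub : ∀ z, 0 ≤ u z ∧ u z ≤ 1 := by
    have : ∀ m, ∀ z, 0 ≤ (smo σ)^[m] (gA A) z ∧ (smo σ)^[m] (gA A) z ≤ 1 := by
      intro m
      induction m with
      | zero => exact fun z => ⟨gA_nonneg A z, gA_le_one A z⟩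
      | succ m ih =>
        intro z
        rw [Function.iterate_succ_apply']
        exact smo_mem σ _ hσ (fun y => (ih y).1) (fun y => (ih y).2) z
    exact this n
  set F := cnv (rv π) (cnv (rv ω) u) with hF
  have hF0 : F 0 = Qf u π ω := by
    rw [hF, cnv_rv]
    simp_rw [cnv_rv]
    unfold Qf
    refine Finset.sum_congr rfl fun z _ => ?_
    rw [Finset.mul_sum]
    refine Finset.sum_congr rfl fun w _ => ?_
    rw [zero_add]; ring
  have hFb : ∀ z, 0 ≤ F z ∧ F z ≤ 1 := fun z =>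
    ⟨cnv_nonneg _ _ hπP.rv.1 (cnv_nonneg _ _ hωP.rv.1 (fun y => (hub y).1)) z,
      cnv_le_one _ _ hπP.rv.1 hπP.rv.2
        (cnv_le_one _ _ hωP.rv.1 hωP.rv.2 (fun y => (hub y).2)) z⟩
  -- Fourier expansion
  have hrepF := rep_cnv (rv π) _ _ (rep_cnv (rv ω) _ _
    (rep_smo_iter σ (gA A) _ (rep_inv (gA A)) n))
  set c : ZMod N → ℂ := fun γ => wft (gA A) γ / N * ((((‖wft σ γ‖ ^ 2) ^ n : ℝ)) : ℂ)
    * wft (rv ω) γ * wft (rv π) γ with hcc
  have hrepF' : ∀ z, (F z : ℂ) = ∑ γ, c γ * ee (γ * z) := hrepF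
  -- coefficient bounds
  have hcb : ∀ γ, ‖c γ‖ ≤ (A - A).card / N * ‖wft (unif A) γ‖ ^ 2
      * (‖wft σ γ‖ ^ 2) ^ n := by
    intro γ
    have e1 : ‖wft (gA A) γ‖ ≤ (A - A).card := by
      refine (norm_wft_le _ (gA_nonneg A) γ).trans (le_of_eq ?_)
      unfold gA
      rw [Finset.sum_ite_mem, Finset.univ_inter, Finset.sum_const, nsmul_eq_mul, mul_one]
    have e2 : ‖wft (rv ω) γ‖ ≤ ‖wft (unif A) γ‖ := by
      rw [norm_wft_rv, hω, wft_cnv, norm_mul]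
      calc ‖wft ν₂ γ‖ * ‖wft (unif A) γ‖ ≤ 1 * ‖wft (unif A) γ‖ := by
            gcongr; exact norm_wft_le_one ν₂ hν₂ γ
        _ = _ := one_mul _
    have e3 : ‖wft (rv π) γ‖ ≤ ‖wft (unif A) γ‖ := by
      rw [norm_wft_rv, hπ, wft_cnv, norm_mul, wft_unif_neg, RCLike.norm_conj]
      calc ‖wft ν₁ γ‖ * ‖wft (unif A) γ‖ ≤ 1 * ‖wft (unif A) γ‖ := by
            gcongr; exact norm_wft_le_one ν₁ hν₁ γ
        _ = _ := one_mul _
    rw [hcc]
    beta_reduce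
    rw [norm_mul, norm_mul, norm_mul, norm_div,
      Complex.norm_natCast, Complex.norm_real, Real.norm_eq_abs,
      abs_of_nonneg (by positivity : (0 : ℝ) ≤ (‖wft σ γ‖ ^ 2) ^ n)]
    calc ‖wft (gA A) γ‖ / N * (‖wft σ γ‖ ^ 2) ^ n * ‖wft (rv ω) γ‖ * ‖wft (rv π) γ‖
        ≤ (A - A).card / N * (‖wft σ γ‖ ^ 2) ^ n * ‖wft (unif A) γ‖ * ‖wft (unif A) γ‖ := by
          gcongr
      _ = _ := by ring
  -- the tail
  have htail : ∀ z, ‖∑ γ ∈ Spᶜ, c γ * ee (γ * z)‖ ≤ 1 / 64 := by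
    intro z
    have e0 : ∀ γ ∈ Spᶜ, ‖c γ * ee (γ * z)‖
        ≤ ((A - A).card / N * (1 - η) ^ n) * ‖wft (unif A) γ‖ ^ 2 := by
      intro γ hγ
      rw [Finset.mem_compl, hSp, Finset.mem_filter] at hγ
      push Not at hγ
      have e2 := (hγ (Finset.mem_univ γ)).le
      have e3 : (‖wft σ γ‖ ^ 2) ^ n ≤ (1 - η) ^ n := by
        apply pow_le_pow_left₀ (by positivity)
        have h1 := norm_nonneg (wft σ γ)
        nlinarith
      rw [norm_mul, norm_ee, mul_one]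
      refine (hcb γ).trans ?_
      calc ((A - A).card : ℝ) / N * ‖wft (unif A) γ‖ ^ 2 * (‖wft σ γ‖ ^ 2) ^ n
          ≤ ((A - A).card : ℝ) / N * ‖wft (unif A) γ‖ ^ 2 * (1 - η) ^ n := by gcongr
        _ = _ := by ring
    refine (norm_sum_le _ _).trans ((Finset.sum_le_sum e0).trans ?_)
    rw [← Finset.mul_sum]
    have e4 : ∑ γ ∈ Spᶜ, ‖wft (unif A) γ‖ ^ 2 ≤ N / A.card := by
      rw [← sum_wft_unif_sq A hA]
      exact Finset.sum_le_sum_of_subset_of_nonneg (Finset.subset_univ _)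
        fun _ _ _ => by positivity
    have e5 : ((A - A).card : ℝ) / N * (1 - η) ^ n * (N / A.card) ≤ K * (1 - η) ^ n := by
      have : ((A - A).card : ℝ) / N * (1 - η) ^ n * (N / A.card)
          = (A - A).card / A.card * (1 - η) ^ n := by field_simp
      rw [this]
      refine mul_le_mul_of_nonneg_right ?_ (by positivity)
      rw [div_le_iff₀ hc]; exact hAK
    have e6 : K * (1 - η) ^ n ≤ 1 / 64 := hn
    calc ((A - A).card : ℝ) / N * (1 - η) ^ n * ∑ γ ∈ Spᶜ, ‖wft (unif A) γ‖ ^ 2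
        ≤ ((A - A).card : ℝ) / N * (1 - η) ^ n * (N / A.card) := by gcongr
      _ ≤ 1 / 64 := e5.trans e6
  have hsplit : ∀ z, (F z : ℂ) = ∑ γ ∈ Sp, c γ * ee (γ * z) + ∑ γ ∈ Spᶜ, c γ * ee (γ * z) := by
    intro z
    rw [hrepF' z, Finset.sum_add_sum_compl]
  -- integer representatives
  have hθex : ∀ γ ∈ Sp, ∃ θ : ℤ, (θ : ZMod N) = γ * x ∧ |(θ : ℝ)| ≤ N / 250 := by
    intro γ hγ
    rw [hSp, Finset.mem_filter] at hγ
    exact Noise_lift (γ * x) (hx γ hγ.2)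
  choose! θ hθ1 hθ2 using hθex
  set m : ℕ := N / 250 with hm
  have hm4 : 4 * m + 1 ≤ N := by
    have : 0 < N := Nat.pos_of_ne_zero (NeZero.ne N)
    omega
  have hmN : (m : ℝ) / N ≤ 1 / 250 := by
    rw [div_le_iff₀ hN]
    have : (m : ℝ) ≤ (N : ℝ) / 250 := by rw [hm]; exact_mod_cast Nat.cast_div_le
    linarith
  have hθm : ∀ γ ∈ Sp, |θ γ| ≤ m := by
    intro γ hγ
    have h1 := hθ2 γ hγ
    have h2 : ((|θ γ| : ℤ) : ℝ) ≤ (N : ℝ) / 250 := by rw [Int.cast_abs]; exact h1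
    have h3 : (|θ γ| : ℤ) = ((θ γ).natAbs : ℤ) := Int.abs_eq_natAbs _
    rw [h3] at h2 ⊢
    have h4 : (((θ γ).natAbs : ℕ) : ℝ) ≤ (N : ℝ) / 250 := by
      rw [Nat.cast_natAbs, Int.cast_abs]; exact h1
    have h5 : (θ γ).natAbs ≤ N / 250 := by
      rw [Nat.le_div_iff_mul_le (by norm_num)]
      rw [le_div_iff₀ (by norm_num)] at h4
      exact_mod_cast h4
    rw [hm]
    exact_mod_cast h5
  have hbern := bernstein (N := N) Sp c θ m hm4 hθm (65 / 64) (by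
    intro j
    have e1 : ∑ γ ∈ Sp, c γ * ee (j * (θ γ : ZMod N)) = ∑ γ ∈ Sp, c γ * ee (γ * (j * x)) := by
      refine Finset.sum_congr rfl fun γ hγ => ?_
      rw [hθ1 γ hγ]
      congr 2; ring
    rw [e1]
    have e2 : ∑ γ ∈ Sp, c γ * ee (γ * (j * x))
        = (F (j * x) : ℂ) - ∑ γ ∈ Spᶜ, c γ * ee (γ * (j * x)) := by
      rw [hsplit (j * x)]; ring
    rw [e2]
    refine (norm_sub_le _ _).trans ?_
    have e3 := htail (j * x)
    have e4 : ‖(F (j * x) : ℂ)‖ ≤ 1 := by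
      rw [Complex.norm_real, Real.norm_eq_abs, abs_of_nonneg (hFb _).1]
      exact (hFb _).2
    linarith)
  have e1 : ∑ γ ∈ Sp, c γ * ee ((θ γ : ℤ) : ZMod N) = ∑ γ ∈ Sp, c γ * ee (γ * x) := by
    refine Finset.sum_congr rfl fun γ hγ => ?_
    rw [hθ1 γ hγ]
  have e2 : ∑ γ ∈ Sp, c γ = ∑ γ ∈ Sp, c γ * ee (γ * 0) := by
    refine Finset.sum_congr rfl fun γ _ => ?_
    rw [mul_zero, ee_zero, mul_one]
  rw [e1, e2] at hbern
  have e3 : ‖(F x : ℂ) - (F 0 : ℂ)‖ ≤ 27 * (m / N) * (65 / 64) + 1 / 64 + 1 / 64 := by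
    have e4 : (F x : ℂ) - (F 0 : ℂ)
        = (∑ γ ∈ Sp, c γ * ee (γ * x) - ∑ γ ∈ Sp, c γ * ee (γ * 0))
          + ∑ γ ∈ Spᶜ, c γ * ee (γ * x) - ∑ γ ∈ Spᶜ, c γ * ee (γ * 0) := by
      rw [hsplit x, hsplit 0]; ring
    rw [e4]
    refine (norm_sub_le _ _).trans ?_
    have e5 := norm_add_le (∑ γ ∈ Sp, c γ * ee (γ * x) - ∑ γ ∈ Sp, c γ * ee (γ * 0))
      (∑ γ ∈ Spᶜ, c γ * ee (γ * x))
    have e6 := htail x
    have e7 := htail 0
    linarith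
  rw [← Complex.ofReal_sub, Complex.norm_real, Real.norm_eq_abs] at e3
  have e8 := abs_le.mp e3
  have hsum : 1 < F 0 + F x := by
    have : 27 * ((m : ℝ) / N) * (65 / 64) ≤ 27 * (1 / 250) * (65 / 64) := by gcongr
    norm_num at this
    rw [← hF0] at hQ
    linarith [e8.1]
  -- the two shifted copies of the difference set meet
  obtain ⟨μ, hμ, hμu⟩ := smo_iter_eq_cnv σ (gA A) hσ n
  set μ' := cnv (rv π) (cnv (rv ω) μ) with hμ'
  have hμ'P : IsPr μ' := hπP.rv.cnv (hωP.rv.cnv hμ)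
  have hFμ : F = cnv μ' (gA A) := by
    rw [hF, hu, hμu, hμ']
    funext z
    rw [cnv_assoc]
    have : cnv (cnv (rv ω) μ) (gA A) = cnv (rv ω) (cnv μ (gA A)) :=
      funext fun z => cnv_assoc _ _ _ z
    rw [this]
  have hex : ∃ y, 1 < gA A (0 - y) + gA A (x - y) := by
    by_contra hno
    push Not at hno
    have h1 : F 0 + F x ≤ 1 := by
      rw [hFμ]
      unfold cnv
      rw [← Finset.sum_add_distrib]
      calc ∑ s, (μ' s * gA A (0 - s) + μ' s * gA A (x - s))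
          ≤ ∑ s, μ' s * 1 := by
            refine Finset.sum_le_sum fun s _ => ?_
            rw [← mul_add]
            exact mul_le_mul_of_nonneg_left (hno s) (hμ'P.1 s)
        _ = 1 := by simp_rw [mul_one]; exact hμ'P.2
    linarith
  obtain ⟨y, hy⟩ := hex
  have hy1 := gA_le_one A (0 - y)
  have hy2 := gA_le_one A (x - y)
  have hm1 := mem_of_gA_ne_zero A (0 - y) (by intro h; rw [h] at hy; linarith)
  have hm2 := mem_of_gA_ne_zero A (x - y) (by intro h; rw [h] at hy; linarith)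
  obtain ⟨a1, ha1, a2, ha2, h12⟩ := Finset.mem_sub.mp hm1
  obtain ⟨a3, ha3, a4, ha4, h34⟩ := Finset.mem_sub.mp hm2
  refine ⟨a3, ha3, a2, ha2, a4, ha4, a1, ha1, ?_⟩
  have h5 : x = (x - y) - (0 - y) := by ring
  rw [h5, ← h12, ← h34]; ring

end Pool.H84.IT
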