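import Pool.Agent.H84.IT.Defs
import Pool.Agent.H18.Quad

set_option autoImplicit false

/-!
Row IT_Par. The size of a polar set (Parseval).

`bn (γ y) ≤ 1/8` for `y ∈ T`: `Re ee (-(γ y)) = cos (2π * ..) ≥ cos (π/4) = √2/2`, so
`‖wft (unif T) γ‖ ≥ √2/2`, and `∑ ‖wft (unif T) γ‖^2 = N / |T|` (`sum_wft_unif_sq`).
`ee x = exp (2 π i x.val / N)` (`ZMod.stdAddChar_apply`, `ZMod.toCircle_apply` or so).
-/

namespace Pool.H84.IT

open Pool.H84.CP Pool.Agent.H18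

theorem Par_rep {N : ℕ} [NeZero N] (y : ZMod N) : ∃ r : ℝ, |r| = bn y ∧ |r| ≤ 1 / 2 ∧
    ee y = Complex.exp ((2 * Real.pi * r : ℝ) * Complex.I) := by
  refine ⟨(y.val : ℝ) / (N : ℝ) - ((round ((y.val : ℝ) / (N : ℝ)) : ℤ) : ℝ), rfl,
    abs_sub_round _, ?_⟩
  unfold ee
  rw [ZMod.stdAddChar_apply, ZMod.toCircle_apply]
  have hN : (N : ℂ) ≠ 0 := by exact_mod_cast NeZero.ne N
  have h : (2 * Real.pi * Complex.I * (y.val : ℂ) / (N : ℂ)) =
      ((2 * Real.pi * ((y.val : ℝ) / (N : ℝ) - ((round ((y.val : ℝ) / (N : ℝ)) : ℤ) : ℝ)) : ℝ) : ℂ)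
        * Complex.I + (round ((y.val : ℝ) / (N : ℝ)) : ℤ) * (2 * Real.pi * Complex.I) := by
    push_cast
    field_simp
    ring
  rw [h]
  exact Complex.exp_periodic.int_mul _ _

theorem Par_re {N : ℕ} [NeZero N] (y : ZMod N) (h : bn y ≤ 1 / 8) :
    1 / 2 ≤ (ee y).re ^ 2 ∧ 0 ≤ (ee y).re := by
  obtain ⟨r, h1, h2, h3⟩ := Par_rep y
  rw [h3, Complex.exp_ofReal_mul_I_re]
  rw [← h1] at h
  have h4 : Real.cos (Real.pi / 4) ≤ Real.cos (2 * Real.pi * r) := by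
    rw [← Real.cos_abs (2 * Real.pi * r), abs_mul, abs_of_pos (by positivity : (0:ℝ) < 2 * Real.pi)]
    apply Real.cos_le_cos_of_nonneg_of_le_pi (by positivity) <;> nlinarith [Real.pi_pos]
  rw [Real.cos_pi_div_four] at h4
  have h5 : (0:ℝ) ≤ √2 / 2 := by positivity
  constructor
  · have : (√2 / 2) ^ 2 = 1 / 2 := by
      rw [div_pow, Real.sq_sqrt (by norm_num)]; norm_num
    rw [← this]
    exact pow_le_pow_left₀ h5 h4 2
  · exact h5.trans h4

theorem card_pol {N : ℕ} [NeZero N] (T : Finset (ZMod N)) (hT : T.Nonempty) :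
    (({γ : ZMod N | ∀ y ∈ T, bn (γ * y) ≤ 1 / 8}.ncard : ℕ) : ℝ) * (T.card : ℝ) ≤ 2 * (N : ℝ) := by
  classical
  have hc : (0:ℝ) < T.card := by exact_mod_cast hT.card_pos
  have hs := sum_wft_unif_sq T hT
  have hset : {γ : ZMod N | ∀ y ∈ T, bn (γ * y) ≤ 1 / 8} =
      ((Finset.univ.filter fun γ : ZMod N => ∀ y ∈ T, bn (γ * y) ≤ 1 / 8 : Finset (ZMod N)) :
        Set (ZMod N)) := by
    ext γ; simp
  rw [hset, Set.ncard_coe_finset]
  have h1 : ∀ γ ∈ Finset.univ.filter (fun γ : ZMod N => ∀ y ∈ T, bn (γ * y) ≤ 1 / 8),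
      (1:ℝ) / 2 ≤ ‖wft (unif T) γ‖ ^ 2 := by
    intro γ hγ
    have hγ' := (Finset.mem_filter.1 hγ).2
    have hre : ∀ y ∈ T, √2 / 2 ≤ (ee (-(γ * y))).re := by
      intro y hy
      rw [ee_neg, Complex.conj_re]
      obtain ⟨h1, h2⟩ := Par_re (γ * y) (hγ' y hy)
      have : √2 / 2 = √(1 / 2) := by
        rw [Real.sqrt_div (by norm_num)]
        have := Real.sqrt_pos.2 (by norm_num : (0:ℝ) < 2)
        have h3 := Real.mul_self_sqrt (by norm_num : (0:ℝ) ≤ 2)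
        rw [Real.sqrt_one, div_eq_div_iff (by norm_num) (by positivity)]
        linarith
      rw [this]
      exact Real.sqrt_le_iff.2 ⟨h2, h1⟩
    have hn : √2 / 2 ≤ ‖wft (unif T) γ‖ := by
      refine le_trans ?_ (Complex.re_le_norm _)
      rw [wft_unif]
      have : ((T.card : ℂ)⁻¹ * fs T γ).re = (T.card : ℝ)⁻¹ * ∑ y ∈ T, (ee (-(γ * y))).re := by
        have e : ((T.card : ℂ)⁻¹) = (((T.card : ℝ)⁻¹ : ℝ) : ℂ) := by push_cast; rfl
        rw [e, Complex.re_ofReal_mul, fs, Complex.re_sum]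
      rw [this, inv_mul_eq_div, le_div_iff₀ hc]
      calc √2 / 2 * (T.card : ℝ) = ∑ y ∈ T, √2 / 2 := by
            rw [Finset.sum_const, nsmul_eq_mul]; ring
        _ ≤ _ := Finset.sum_le_sum hre
    calc (1:ℝ) / 2 = (√2 / 2) ^ 2 := by
          rw [div_pow, Real.sq_sqrt (by norm_num)]; norm_num
      _ ≤ _ := pow_le_pow_left₀ (by positivity) hn 2
  have h2 : ((Finset.univ.filter (fun γ : ZMod N => ∀ y ∈ T, bn (γ * y) ≤ 1 / 8)).card : ℝ) *
      (1 / 2) ≤ (N : ℝ) / T.card := by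
    rw [← hs, ← nsmul_eq_mul, ← Finset.sum_const]
    exact (Finset.sum_le_sum h1).trans
      (Finset.sum_le_sum_of_subset_of_nonneg (Finset.subset_univ _) fun _ _ _ => by positivity)
  rw [le_div_iff₀ hc] at h2
  linarith

/-- also used elsewhere: the distance to 1 of a character value. -/
theorem four_bn_le {N : ℕ} [NeZero N] (y : ZMod N) : 4 * bn y ≤ ‖1 - ee y‖ := by
  obtain ⟨r, h1, h2, h3⟩ := Par_rep y
  rw [h3, ← h1, norm_sub_rev, mul_comm _ Complex.I, Complex.norm_exp_I_mul_ofReal_sub_one,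
    Real.norm_eq_abs, abs_mul, abs_of_pos (by norm_num : (0:ℝ) < 2)]
  have e : 2 * Real.pi * r / 2 = Real.pi * r := by ring
  rw [e]
  have h4 : 2 * |r| ≤ |Real.sin (Real.pi * r)| := by
    have h5 : |Real.sin (Real.pi * r)| = |Real.sin (Real.pi * |r|)| := by
      rcases abs_cases r with ⟨h, _⟩ | ⟨h, _⟩
      · rw [h]
      · rw [h, mul_neg, Real.sin_neg, abs_neg]
    rw [h5]
    refine le_trans ?_ (le_abs_self _)
    have := Real.mul_le_sin (x := Real.pi * |r|) (by positivity) (by nlinarith [Real.pi_pos])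
    calc 2 * |r| = 2 / Real.pi * (Real.pi * |r|) := by
          field_simp
      _ ≤ _ := this
  linarith

theorem re_ee_nonneg {N : ℕ} [NeZero N] (y : ZMod N) (h : bn y ≤ 1 / 4) : 0 ≤ (ee y).re := by
  obtain ⟨r, h1, h2, h3⟩ := Par_rep y
  rw [h3, Complex.exp_ofReal_mul_I_re]
  rw [← h1] at h
  have := abs_le.1 h
  apply Real.cos_nonneg_of_neg_pi_div_two_le_of_le <;> nlinarith [Real.pi_pos]

end Pool.H84.IT
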