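import Pool.Agent.H84.IT.Rep
import Pool.Agent.H84.IT.Chn
import Pool.Agent.H84.IT.Gen
import Pool.Agent.H84.IT.Dim
import Pool.Agent.H84.IT.Ind
import Pool.Agent.H84.IT.Dig
import Pool.Agent.H84.CP.Auer

set_option autoImplicit false

/-!
Row IT_Pol. The key lemma (POL in H84_169871_IT.md).

`S` = the finite set of the `Lv τ γ`, `γ ∈ pol τ r`, `r = 1/(8 q^2)`; `auerbach` gives `k`,
`c i = Lv τ (γ i)`, independent, and every `Lv τ γ = ∑ t_i c_i`, `|t_i| ≤ 1`. `dim_bound` (`h` =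
`(pol τ (1/8)).ncard`), `index_bound` (`k r ≤ q / (8 q^2) ≤ 1/8`), `gens`, `chain` (for
`E = closure (range g)` and `f`; `E ⊔ closure (range f) = ⊤`). `J j = ⌈log (n j) / log q⌉₊`,
`q ^ J j ≥ n j`. For `j`, `l ≤ J j` let `ρ j l` be `(red (q^l • f j)).1.1`. `Λ` = all `γ i`,
`q γ i`, `ρ j l`. Count: `2 k + ∑ (2 + log (n j) / log q) ≤ 4 k + 2 + log h / log q`.
`x` given: `θ i = rep (γ i * x)`, `|θ i| ≤ 1/(4 q^2)` (`digits_le`);
`Ψ p = toAddCircle (p.1 * x) - (∑ t_i θ_i : ℝ)` on `MG`; `Ψ = 0` on the `g i`, so on `E`;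
`‖Ψ (q^l • f j)‖ = ‖Ψ (red ..)‖ ≤ 1/(4q) + k/(4 q^2) < 1/(2q)`; `digits`:
`‖Ψ (f j)‖ < 1/(2q)/q^J ≤ 1/(2 q n_j) ≤ 1/n_j`. So `Ψ = 0`, and for `γ ∈ pol τ r`, `(γ, t) ∈ MG`:
`bn (γ * x) ≤ |∑ t_i θ_i| ≤ k/(4 q^2) ≤ 1/(4q)`.
-/

namespace Pool.H84.IT

open Pool.H84.CP

theorem Pol_norm_coe (a : ℝ) : ‖((a : ℝ) : UnitAddCircle)‖ ≤ |a| := by
  rw [UnitAddCircle.norm_eq]
  have := round_le a 0
  simpa using this

theorem Pol_sum {k : ℕ} {q : ℕ} (hq : 2 ≤ q) (hk : k ≤ q) (t θ : Fin k → ℝ) (ht : ∀ i, |t i| ≤ 1)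
    (hθ : ∀ i, |θ i| ≤ 1 / (4 * (q : ℝ) ^ 2)) : |∑ i, t i * θ i| ≤ (k : ℝ) / (4 * (q : ℝ) ^ 2) := by
  calc |∑ i, t i * θ i| ≤ ∑ i, |t i * θ i| := Finset.abs_sum_le_sum_abs _ _
    _ ≤ ∑ _i : Fin k, 1 / (4 * (q : ℝ) ^ 2) := by
        refine Finset.sum_le_sum fun i _ => ?_
        rw [abs_mul]
        calc |t i| * |θ i| ≤ 1 * |θ i| := mul_le_mul_of_nonneg_right (ht i) (abs_nonneg _)
          _ = |θ i| := one_mul _
          _ ≤ _ := hθ i
    _ = (k : ℝ) / (4 * (q : ℝ) ^ 2) := by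
        rw [Finset.sum_const, Finset.card_univ, Fintype.card_fin, nsmul_eq_mul]
        ring

/-- The character of `MG`. -/
noncomputable def Pol_psi {N d k : ℕ} [NeZero N] (τ : Fin d → ZMod N) (c : Fin k → (Fin d → ℝ))
    (x : ZMod N) (θ : Fin k → ℝ) : MG τ c →+ UnitAddCircle where
  toFun p := ZMod.toAddCircle ((p : ZMod N × (Fin k → ℝ)).1 * x) -
    ((∑ i, (p : ZMod N × (Fin k → ℝ)).2 i * θ i : ℝ) : UnitAddCircle)
  map_zero' := by
    simp
  map_add' p p' := by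
    have e1 : ∑ i, ((p : ZMod N × (Fin k → ℝ)) + (p' : ZMod N × (Fin k → ℝ))).2 i * θ i =
        (∑ i, (p : ZMod N × (Fin k → ℝ)).2 i * θ i) + ∑ i, (p' : ZMod N × (Fin k → ℝ)).2 i * θ i := by
      rw [← Finset.sum_add_distrib]
      refine Finset.sum_congr rfl fun i _ => ?_
      rw [Prod.snd_add, Pi.add_apply]
      ring
    rw [AddSubgroup.coe_add, e1, Prod.fst_add, add_mul, map_add, AddCircle.coe_add]
    abel

theorem Pol_psi_apply {N d k : ℕ} [NeZero N] (τ : Fin d → ZMod N) (c : Fin k → (Fin d → ℝ))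
    (x : ZMod N) (θ : Fin k → ℝ) (p : MG τ c) : Pol_psi τ c x θ p =
      ZMod.toAddCircle ((p : ZMod N × (Fin k → ℝ)).1 * x) -
      ((∑ i, (p : ZMod N × (Fin k → ℝ)).2 i * θ i : ℝ) : UnitAddCircle) := rfl

theorem Pol_pow {q n : ℕ} (hq : 2 ≤ q) (hn : 0 < n) :
    (n : ℝ) ≤ (q : ℝ) ^ (⌈Real.log n / Real.log q⌉₊) ∧
      (⌈Real.log n / Real.log q⌉₊ : ℝ) + 1 ≤ 2 + Real.log n / Real.log q := by
  have hq1 : (1 : ℝ) < q := by exact_mod_cast (by omega : 1 < q)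
  have hn1 : (1 : ℝ) ≤ n := by exact_mod_cast hn
  have hlq : 0 < Real.log q := Real.log_pos hq1
  have hln : 0 ≤ Real.log n := Real.log_nonneg hn1
  have h0 : 0 ≤ Real.log n / Real.log q := by positivity
  constructor
  · have h1 : Real.log n / Real.log q ≤ (⌈Real.log n / Real.log q⌉₊ : ℝ) := Nat.le_ceil _
    rw [div_le_iff₀ hlq, ← Real.log_pow] at h1
    exact (Real.log_le_log_iff (by linarith) (by positivity)).1 h1
  · have := Nat.ceil_lt_add_one h0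
    linarith

theorem polar_bohr {N d q : ℕ} [NeZero N] (τ : Fin d → ZMod N) (hq : 2 ≤ q)
    (hqh : 2 * Real.log ((pol τ (1 / 8)).ncard : ℝ) ≤ q * Real.log q) :
    ∃ Λ : Finset (ZMod N),
      (Λ.card : ℝ) ≤ 5 * Real.log ((pol τ (1 / 8)).ncard : ℝ) / Real.log q + 2 ∧
      ∀ x : ZMod N, (∀ γ ∈ Λ, bn (γ * x) ≤ 1 / (4 * (q : ℝ))) →
        ∀ γ ∈ pol τ (1 / (8 * (q : ℝ) ^ 2)), bn (γ * x) ≤ 1 / (4 * (q : ℝ)) := by
  classical
  have hq1 : (1 : ℝ) < q := by exact_mod_cast (by omega : 1 < q)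
  have hq0 : (0 : ℝ) < q := by linarith
  have hlq : 0 < Real.log q := Real.log_pos hq1
  obtain ⟨h, hh⟩ : ∃ h : ℕ, h = (pol τ (1 / 8)).ncard := ⟨_, rfl⟩
  rw [← hh] at hqh ⊢
  obtain ⟨r, hr⟩ : ∃ r : ℝ, r = 1 / (8 * (q : ℝ) ^ 2) := ⟨_, rfl⟩
  rw [← hr]
  have hfin : ((Lv τ) '' (pol τ r)).Finite := (Set.toFinite _).image _
  obtain ⟨k, c, -, hcS, hli0, hspan⟩ := auerbach hfin.toFinset
  have hcS' : ∀ i, ∃ g : ZMod N, g ∈ pol τ r ∧ Lv τ g = c i := by
    intro i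
    have := hcS i
    rw [Set.Finite.mem_toFinset] at this
    exact this
  choose γ hγr hγc using hcS'
  have hcc : c = fun i => Lv τ (γ i) := by
    funext i
    exact (hγc i).symm
  subst hcc
  have hdim := dim_bound τ hq γ (fun i => hr ▸ hγr i) hli0 h hh.ge hqh
  obtain ⟨hkq, hklog⟩ := hdim
  have hkq' : (k : ℝ) < q := by exact_mod_cast hkq
  have hkr : (k : ℝ) * r ≤ 1 / 8 := by
    rw [hr]
    calc (k : ℝ) * (1 / (8 * (q : ℝ) ^ 2)) ≤ q * (1 / (8 * (q : ℝ) ^ 2)) :=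
          mul_le_mul_of_nonneg_right hkq'.le (by positivity)
      _ = 1 / (8 * q) := by field_simp
      _ ≤ 1 / 8 := by
          apply one_div_le_one_div_of_le (by norm_num)
          linarith
  obtain ⟨hidx0, hidx⟩ := index_bound τ γ r hγr hkr hli0
  rw [← hh] at hidx
  obtain ⟨g, hg⟩ : ∃ g : Fin k → MG τ (fun i => Lv τ (γ i)), g = fun i =>
        (⟨(γ i, Pi.single i 1), single_mem τ γ i⟩ : MG τ (fun i => Lv τ (γ i))) := ⟨_, rfl⟩
  rw [← hg] at hidx0 hidx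
  obtain ⟨f, hf⟩ := gens (MG τ (fun i => Lv τ (γ i))) g (fun i => by rw [hg]) hidx0
  obtain ⟨n, hn0, hnp, hch⟩ := chain (k + 1) (MG τ (fun i => Lv τ (γ i)))
    (AddSubgroup.closure (Set.range g)) f hidx0 (by rw [hf, sup_top_eq])
  obtain ⟨J, hJ⟩ : ∃ J : Fin (k + 1) → ℕ, J = fun j => ⌈Real.log (n j) / Real.log q⌉₊ := ⟨_, rfl⟩
  have hJ1 : ∀ j, (n j : ℝ) ≤ (q : ℝ) ^ (J j) := by
    intro j
    rw [hJ]
    exact (Pol_pow hq (hn0 j)).1
  have hJ2 : ∀ j, (J j : ℝ) + 1 ≤ 2 + Real.log (n j) / Real.log q := by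
    intro j
    rw [hJ]
    exact (Pol_pow hq (hn0 j)).2
  have hred : ∀ (j : Fin (k + 1)) (l : ℕ), ∃ p' : MG τ (fun i => Lv τ (γ i)),
      (q ^ l • f j) - p' ∈ AddSubgroup.closure (Set.range g) ∧
      ∀ i, 0 ≤ (p' : ZMod N × (Fin k → ℝ)).2 i ∧ (p' : ZMod N × (Fin k → ℝ)).2 i < 1 := by
    intro j l
    rw [hg]
    exact red τ γ (q ^ l • f j)
  choose P hP1 hP2 using hred
  obtain ⟨Λ1, hΛ1⟩ : ∃ s : Finset (ZMod N), s = Finset.univ.image γ := ⟨_, rfl⟩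
  obtain ⟨Λ2, hΛ2⟩ : ∃ s : Finset (ZMod N), s = Finset.univ.image (fun i => (q : ZMod N) * γ i) :=
    ⟨_, rfl⟩
  obtain ⟨Λ3, hΛ3⟩ : ∃ s : Finset (ZMod N), s = (Finset.univ : Finset (Fin (k + 1))).biUnion
    (fun j => (Finset.range (J j + 1)).image (fun l => (P j l : ZMod N × (Fin k → ℝ)).1)) := ⟨_, rfl⟩
  have hn1 : ∀ j, (0 : ℝ) < n j := fun j => by exact_mod_cast hn0 j
  have c1 : Λ1.card ≤ k := by
    rw [hΛ1]
    exact Finset.card_image_le.trans (by simp)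
  have c2 : Λ2.card ≤ k := by
    rw [hΛ2]
    exact Finset.card_image_le.trans (by simp)
  have c3 : Λ3.card ≤ ∑ j, (J j + 1) := by
    rw [hΛ3]
    refine Finset.card_biUnion_le.trans (Finset.sum_le_sum fun j _ => ?_)
    exact Finset.card_image_le.trans (by simp)
  have hprod : ∑ j, Real.log (n j) ≤ Real.log h := by
    rw [← Real.log_prod (fun j _ => (hn1 j).ne')]
    have e1 : ∏ j, (n j : ℝ) = ((AddSubgroup.closure (Set.range g)).index : ℝ) := by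
      rw [← hnp]
      push_cast
      rfl
    rw [e1]
    apply Real.log_le_log
    · have : 0 < (AddSubgroup.closure (Set.range g)).index := Nat.pos_of_ne_zero hidx0
      exact_mod_cast this
    · exact_mod_cast hidx
  refine ⟨Λ1 ∪ Λ2 ∪ Λ3, ?_, ?_⟩
  · have h1 : (Λ1 ∪ Λ2 ∪ Λ3).card ≤ k + k + ∑ j, (J j + 1) := by
      refine (Finset.card_union_le _ _).trans ?_
      have := Finset.card_union_le Λ1 Λ2
      omega
    have h2 : ((Λ1 ∪ Λ2 ∪ Λ3).card : ℝ) ≤ k + k + ∑ j, ((J j : ℝ) + 1) := by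
      exact_mod_cast h1
    have h3 : ∑ j, ((J j : ℝ) + 1) ≤ ∑ j, (2 + Real.log (n j) / Real.log q) :=
      Finset.sum_le_sum fun j _ => hJ2 j
    have h4 : ∑ j : Fin (k + 1), (2 + Real.log (n j) / Real.log q) =
        2 * (k + 1) + (∑ j, Real.log (n j)) / Real.log q := by
      rw [Finset.sum_add_distrib, Finset.sum_div, Finset.sum_const, Finset.card_univ,
        Fintype.card_fin, nsmul_eq_mul]
      push_cast
      ring
    have h5 : (∑ j, Real.log (n j)) / Real.log q ≤ Real.log h / Real.log q :=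
      div_le_div_of_nonneg_right hprod hlq.le
    have h6 : (k : ℝ) ≤ Real.log h / Real.log q := by
      rw [le_div_iff₀ hlq]
      exact hklog
    have h7 : 5 * Real.log h / Real.log q = 5 * (Real.log h / Real.log q) := by ring
    rw [h7]
    linarith
  · intro x hx γ' hγ'
    have hx1 : ∀ i, bn (γ i * x) ≤ 1 / (4 * (q : ℝ)) := by
      intro i
      apply hx
      rw [Finset.mem_union, Finset.mem_union, hΛ1]
      exact Or.inl (Or.inl (Finset.mem_image_of_mem _ (Finset.mem_univ i)))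
    have hx2 : ∀ i, bn ((q : ZMod N) * γ i * x) ≤ 1 / (4 * (q : ℝ)) := by
      intro i
      apply hx
      rw [Finset.mem_union, Finset.mem_union, hΛ2]
      exact Or.inl (Or.inr (Finset.mem_image.2 ⟨i, Finset.mem_univ i, rfl⟩))
    have hx3 : ∀ j, ∀ l ≤ J j, bn ((P j l : ZMod N × (Fin k → ℝ)).1 * x) ≤ 1 / (4 * (q : ℝ)) := by
      intro j l hl
      apply hx
      rw [Finset.mem_union, hΛ3]
      refine Or.inr (Finset.mem_biUnion.2 ⟨j, Finset.mem_univ j, ?_⟩)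
      exact Finset.mem_image.2 ⟨l, Finset.mem_range.2 (by omega), rfl⟩
    obtain ⟨θ, hθ⟩ : ∃ θ : Fin k → ℝ, θ = fun i => rep (γ i * x) := ⟨_, rfl⟩
    have hθb : ∀ i, |θ i| ≤ 1 / (4 * (q : ℝ) ^ 2) := by
      intro i
      rw [hθ]
      simp only
      rw [abs_rep, bn_eq_norm]
      apply digits_le q hq
      · rw [← bn_eq_norm]
        exact hx1 i
      · have e1 : (q : ℕ) • (ZMod.toAddCircle (γ i * x) : UnitAddCircle) =
            ZMod.toAddCircle ((q : ZMod N) * γ i * x) := by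
          rw [← map_nsmul, nsmul_eq_mul, mul_assoc]
        rw [e1, ← bn_eq_norm]
        exact hx2 i
    obtain ⟨Ψ, hΨ⟩ : ∃ Ψ : MG τ (fun i => Lv τ (γ i)) →+ UnitAddCircle,
      Ψ = Pol_psi τ (fun i => Lv τ (γ i)) x θ := ⟨_, rfl⟩
    have hΨa : ∀ p : MG τ (fun i => Lv τ (γ i)), Ψ p =
      ZMod.toAddCircle ((p : ZMod N × (Fin k → ℝ)).1 * x) -
      ((∑ i, (p : ZMod N × (Fin k → ℝ)).2 i * θ i : ℝ) : UnitAddCircle) := by
      intro p
      rw [hΨ, Pol_psi_apply]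
    have hΨE : ∀ e ∈ AddSubgroup.closure (Set.range g), Ψ e = 0 := by
      have h1 : AddSubgroup.closure (Set.range g) ≤ Ψ.ker := by
        rw [AddSubgroup.closure_le]
        rintro _ ⟨i, rfl⟩
        show Ψ (g i) = 0
        rw [hΨa, hg]
        simp only
        have e1 : ∑ j, (Pi.single i (1 : ℝ) : Fin k → ℝ) j * θ j = θ i := by
          rw [Finset.sum_eq_single i]
          · rw [Pi.single_eq_same, one_mul]
          · intro j _ hj
            rw [Pi.single_eq_of_ne hj, zero_mul]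
          · intro hi
            exact absurd (Finset.mem_univ i) hi
        rw [e1, toC_rep, hθ, sub_self]
      intro e he
      exact h1 he
    have hkk : (k : ℝ) / (4 * (q : ℝ) ^ 2) < 1 / (4 * (q : ℝ)) := by
      rw [div_lt_div_iff₀ (by positivity) (by positivity)]
      nlinarith
    have hΨq : ∀ j, ∀ l ≤ J j, ‖(q ^ l : ℕ) • Ψ (f j)‖ < 1 / (2 * (q : ℝ)) := by
      intro j l hl
      have e1 : (q ^ l : ℕ) • Ψ (f j) = Ψ (P j l) := by
        rw [← map_nsmul]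
        have := hΨE _ (hP1 j l)
        rw [map_sub, sub_eq_zero] at this
        exact this
      rw [e1, hΨa]
      have h1 : ‖(ZMod.toAddCircle ((P j l : ZMod N × (Fin k → ℝ)).1 * x) : UnitAddCircle)‖ ≤
          1 / (4 * (q : ℝ)) := by
        rw [← bn_eq_norm]
        exact hx3 j l hl
      have h2 := Pol_norm_coe (∑ i, (P j l : ZMod N × (Fin k → ℝ)).2 i * θ i)
      have h3 := Pol_sum hq hkq.le (P j l : ZMod N × (Fin k → ℝ)).2 θ (fun i => by
        rw [abs_of_nonneg (hP2 j l i).1]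
        exact (hP2 j l i).2.le) hθb
      have h4 := norm_sub_le (ZMod.toAddCircle ((P j l : ZMod N × (Fin k → ℝ)).1 * x) : UnitAddCircle)
        ((∑ i, (P j l : ZMod N × (Fin k → ℝ)).2 i * θ i : ℝ) : UnitAddCircle)
      have h5 : 1 / (4 * (q : ℝ)) + 1 / (4 * (q : ℝ)) = 1 / (2 * (q : ℝ)) := by
        field_simp
        norm_num
      linarith
    have hΨ0 : ∀ p, Ψ p = 0 := by
      refine hch Ψ hΨE ?_
      intro j
      have h1 := digits q hq (Ψ (f j)) (J j) (hΨq j)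
      refine h1.trans_le ?_
      rw [div_div]
      apply one_div_le_one_div_of_le (hn1 j)
      have h2 := hJ1 j
      have h3 : (0 : ℝ) ≤ (q : ℝ) ^ (J j) := by positivity
      nlinarith
    have hmem : Lv τ γ' ∈ hfin.toFinset := by
      rw [Set.Finite.mem_toFinset]
      exact ⟨γ', hγ', rfl⟩
    obtain ⟨t, ht1, ht2⟩ := hspan _ hmem
    have hMG : ((γ', t) : ZMod N × (Fin k → ℝ)) ∈ MG τ (fun i => Lv τ (γ i)) := by
      show ((γ', t) : ZMod N × (Fin k → ℝ)) ∈ MM τ (fun i => Lv τ (γ i))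
      rw [mem_MM]
      intro j
      have h1 := congrFun ht2 j
      rw [Finset.sum_apply] at h1
      simp only [Pi.smul_apply, smul_eq_mul] at h1
      rw [← h1, toC_rep]
      rfl
    have h1 := hΨ0 ⟨(γ', t), hMG⟩
    rw [hΨa, sub_eq_zero] at h1
    have h2 := bn_le_of_rep _ _ h1
    have h3 := Pol_sum hq hkq.le t θ ht1 hθb
    simp only at h2
    linarith

end Pool.H84.IT
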