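import Pool.Agent.H84.IT.QB

set_option autoImplicit false

/-!
Row IT_QBb. Every radius: use `quad_base`, `Pool.Agent.H33.QB.params`, `Pool.Agent.H33.QB.multi`
exactly as in the proof of `result` in `Pool/Agent/Results/MP_169871_nt/QuadraticBohr.lean`.
-/

namespace Pool.H84.IT

open Pool.H84.CP Pool.Agent.H18

theorem quad :
    ∃ C : ℝ, 0 < C ∧
      ∀ N : ℕ, 0 < N → ∀ A : Finset (ZMod N), A.Nonempty →
        (A.card : ℝ) / (N : ℝ) ≤ 1 / 2 →
        ∀ L : ℝ, L = Real.log ((N : ℝ) / (A.card : ℝ)) →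
          ∀ ε : ℝ, 0 < ε → ε ≤ 1 / 8 →
            ∃ Γ : Finset (ZMod N),
              (Γ.card : ℝ) ≤ C * (L ^ 2 * (1 + Real.log (L + 2) / Real.log (1 / ε))) ∧
              ∀ x : ZMod N,
                (∀ γ ∈ Γ,
                  |((γ * x).val : ℝ) / (N : ℝ) - ((round (((γ * x).val : ℝ) / (N : ℝ)) : ℤ) : ℝ)|
                    ≤ ε) →
                ∃ a₁ ∈ A, ∃ a₂ ∈ A, ∃ a₃ ∈ A, ∃ a₄ ∈ A, x = a₁ + a₂ - a₃ - a₄ := by
  obtain ⟨C, hC, c, hc, hmain⟩ := quad_base
  refine ⟨C * (2 + 4 * (2 * |Real.log (1 / c)| + 3)), by positivity, ?_⟩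
  intro N hN0 A hA hdens L hL ε hε hε8
  have : NeZero N := ⟨hN0.ne'⟩
  obtain ⟨Γ, ρ, hρ, hΓ, hρ2, hincl⟩ := hmain N hN0 A hA hdens L hL
  have hN : (0 : ℝ) < N := by exact_mod_cast hN0
  have hAc : (0 : ℝ) < A.card := by exact_mod_cast hA.card_pos
  have hLlow : 1 / 2 ≤ L := by
    have h1 : (2 : ℝ) ≤ (N : ℝ) / A.card := by
      rw [le_div_iff₀ hAc]
      rw [div_le_iff₀ hN] at hdens
      linarith
    have h2 := Real.log_le_log (by norm_num) h1
    have h3 := Real.log_two_gt_d9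
    rw [hL]; linarith
  have hL0 : 0 < L := by linarith
  set ℓ : ℝ := Real.log (L + 2) with hℓ
  have hℓ1 : 1 / 2 ≤ ℓ := by
    have h1 : Real.log 2 ≤ ℓ := Real.log_le_log (by norm_num) (by linarith)
    have := Real.log_two_gt_d9
    linarith
  have hℓ0 : 0 < ℓ := by linarith
  -- the radius `ρ` cut at 1
  set ρ' : ℝ := min ρ 1 with hρ'
  have hρ'0 : 0 < ρ' := lt_min hρ one_pos
  have hρ'1 : ρ' ≤ 1 := min_le_right _ _
  obtain ⟨m, s, hm, hmε, hms, hs⟩ := Pool.Agent.H33.QB.params ε ρ' hε hε8 hρ'0 hρ'1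
  obtain ⟨Γ', hΓ', hB⟩ := Pool.Agent.H33.QB.multi Γ m s ε ρ' hm hmε hms
  have hlogε : 0 < Real.log (1 / ε) := by
    apply Real.log_pos
    rw [lt_div_iff₀ hε]; linarith
  have hX : 0 < (L + 2) ^ 2 := by positivity
  -- bound for log (1 / ρ')
  have hlogρ : Real.log (1 / ρ') ≤ (2 * |Real.log (1 / c)| + 3) * ℓ := by
    have h2 : 0 ≤ |Real.log (1 / c)| := abs_nonneg _
    rcases le_total ρ 1 with h | h
    · rw [hρ', min_eq_left h]
      have h1 : 1 / ρ ≤ (1 / c) * (L + 2) ^ 2 := by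
        rw [div_le_iff₀ hρ]
        rw [div_le_iff₀ hX] at hρ2
        calc (1 : ℝ) = 1 / c * c := by field_simp
          _ ≤ 1 / c * (ρ * (L + 2) ^ 2) := by gcongr
          _ = _ := by ring
      have h3 : Real.log (1 / ρ) ≤ Real.log (1 / c) + 2 * ℓ := by
        have := Real.log_le_log (by positivity) h1
        rwa [Real.log_mul (by positivity) (by positivity), Real.log_pow, Nat.cast_ofNat] at this
      have h6 : Real.log (1 / c) ≤ 2 * |Real.log (1 / c)| * ℓ := by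
        have := le_abs_self (Real.log (1 / c))
        nlinarith
      nlinarith
    · rw [hρ', min_eq_right h]
      simp only [div_one, Real.log_one]
      positivity
  refine ⟨Γ', ?_, ?_⟩
  · have h1 : (Γ'.card : ℝ) ≤ ((s : ℝ) + 1) * Γ.card := by exact_mod_cast hΓ'
    have hG0 : (0 : ℝ) ≤ Γ.card := Nat.cast_nonneg _
    have h2 : ((s : ℝ) + 1) ≤ (2 + 4 * (2 * |Real.log (1 / c)| + 3)) *
        (1 + ℓ / Real.log (1 / ε)) := by
      refine hs.trans ?_
      have h3 : Real.log (1 / ρ') / Real.log (1 / ε) ≤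
          (2 * |Real.log (1 / c)| + 3) * ℓ / Real.log (1 / ε) := by gcongr
      have h4 : 0 ≤ ℓ / Real.log (1 / ε) := by positivity
      have h5 : 0 ≤ |Real.log (1 / c)| := abs_nonneg _
      rw [mul_div_assoc] at h3
      nlinarith
    calc (Γ'.card : ℝ) ≤ ((s : ℝ) + 1) * Γ.card := h1
      _ ≤ ((2 + 4 * (2 * |Real.log (1 / c)| + 3)) * (1 + ℓ / Real.log (1 / ε))) *
          (C * L ^ 2) := by
        apply mul_le_mul h2 hΓ hG0
        have h4 : 0 ≤ ℓ / Real.log (1 / ε) := by positivity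
        have h5 : 0 ≤ |Real.log (1 / c)| := abs_nonneg _
        positivity
      _ = _ := by ring
  · intro x hx
    refine hincl x (fun γ hγ => ?_)
    exact (hB x hx γ hγ).trans (min_le_left _ _)

end Pool.H84.IT
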