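import Pool.Agent.H84.IT.Par
import Pool.Agent.H18.Vari

set_option autoImplicit false

/-!
Rows IT_RegA, IT_RegB. Regularisation.

RegA: `ν_m = σ * .. * σ` (`m` factors, `m ≥ 1`; `ν_1 = σ`, `ν_(m+1) = cnv σ ν_m`). The entropies
`entT ν_m` increase (`ent_le_ent_cnv`) from `≥ log N - M` to `≤ log N`, so some `m` with
`1 ≤ m ≤ ⌈256 M⌉₊ ≤ 257 M` has `entT (cnv σ ν_m) - entT ν_m ≤ 1/256`. This is
`mi (jn2 σ ν)` (`entT_jn2`, `mgr_jn2`, `mgl (jn2 σ ν) = σ`). `pinsker` with the indicator of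
`{t | mgl t.1 * mgr t.2 < J t}` gives `∑_s σ s * δ s ≤ 1/16`,
`δ s = ∑_c max 0 (ν (c - s) - (σ*ν) c)`. `T = {s | δ s ≤ 1/4}` has `σ`-mass `≥ 3/4` (Markov); so it
is not empty, and by the entropy bound
`entT σ ≤ σ(T) log |T| + (1 - σ(T)) log N + log 2` one gets
`(3/4) (log N - log |T|) ≤ M + log 2`. For `s, s' ∈ T`:
`∑_c min (ν (c-s)) (ν (c-s')) ≥ 1 - δ s - δ s' ≥ 1/2`.
-/

namespace Pool.H84.IT

open Pool.H84.CP Pool.Agent.H18

/-- the `m`-fold convolution power, `m + 1` factors -/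
noncomputable def cpow {N : ℕ} [NeZero N] (σ : ZMod N → ℝ) : ℕ → (ZMod N → ℝ)
  | 0 => σ
  | m + 1 => cnv σ (cpow σ m)

theorem Reg_pr {N : ℕ} [NeZero N] (σ : ZMod N → ℝ) (hσ : IsPr σ) (m : ℕ) : IsPr (cpow σ m) := by
  induction m with
  | zero => exact hσ
  | succ m ih => exact hσ.cnv ih

theorem Reg_le_log {N : ℕ} [NeZero N] (σ : ZMod N → ℝ) (hσ : IsPr σ) :
    entT σ ≤ Real.log N := by
  have h := ent_le_log_card σ hσ.1 hσ.2 Finset.univ (fun x _ => Finset.mem_univ x)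
  rw [Finset.card_univ, ZMod.card] at h
  exact h

theorem Reg_exists {N : ℕ} [NeZero N] (σ : ZMod N → ℝ) (hσ : IsPr σ) (M : ℝ) (hM1 : 1 ≤ M)
    (hM : Real.log N - entT σ ≤ M) :
    ∃ m : ℕ, ((m : ℝ) + 1) ≤ 257 * M ∧ entT (cpow σ (m + 1)) - entT (cpow σ m) ≤ 1 / 256 := by
  by_contra hcon
  push Not at hcon
  have hK : ((⌈256 * M⌉₊ : ℕ) : ℝ) ≤ 257 * M := by
    have h1 := Nat.ceil_lt_add_one (show (0 : ℝ) ≤ 256 * M by linarith)
    linarith
  have hKl : 256 * M ≤ ((⌈256 * M⌉₊ : ℕ) : ℝ) := Nat.le_ceil _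
  have hstep : ∀ k : ℕ, k + 1 ≤ ⌈256 * M⌉₊ →
      entT σ + ((k : ℝ) + 1) / 256 < entT (cpow σ (k + 1)) := by
    intro k
    induction k with
    | zero =>
      intro hk
      have h1 : ((0 : ℕ) : ℝ) + 1 ≤ 257 * M := by
        have : ((0 + 1 : ℕ) : ℝ) ≤ ((⌈256 * M⌉₊ : ℕ) : ℝ) := by exact_mod_cast hk
        push_cast at this
        push_cast
        linarith
      have h2 := hcon 0 h1
      have h3 : entT (cpow σ 0) = entT σ := rfl
      rw [h3] at h2
      push_cast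
      linarith
    | succ k ih =>
      intro hk
      have h0 := ih (by omega)
      have h1 : ((k + 1 : ℕ) : ℝ) + 1 ≤ 257 * M := by
        have : ((k + 1 + 1 : ℕ) : ℝ) ≤ ((⌈256 * M⌉₊ : ℕ) : ℝ) := by exact_mod_cast hk
        push_cast at this
        push_cast
        linarith
      have h2 := hcon (k + 1) h1
      push_cast
      linarith
  have hpos : 0 < ⌈256 * M⌉₊ := Nat.ceil_pos.2 (by linarith)
  obtain ⟨k, hk⟩ : ∃ k, ⌈256 * M⌉₊ = k + 1 := ⟨⌈256 * M⌉₊ - 1, by omega⟩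
  have h1 := hstep k (by omega)
  have h2 := Reg_le_log _ (Reg_pr σ hσ (k + 1))
  have h3 : ((k : ℝ) + 1) = ((⌈256 * M⌉₊ : ℕ) : ℝ) := by rw [hk]; push_cast; ring
  rw [h3] at h1
  linarith

theorem Reg_min (a b r : ℝ) : a + b - r - max 0 (a - r) - max 0 (b - r) ≤ min a b := by
  have h1 := le_max_left 0 (a - r)
  have h2 := le_max_right 0 (a - r)
  have h3 := le_max_left 0 (b - r)
  have h4 := le_max_right 0 (b - r)
  apply le_min <;> linarith

/-- the Pinsker step -/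
theorem Reg_delta {N : ℕ} [NeZero N] (σ ν : ZMod N → ℝ) (hσ : IsPr σ) (hν : IsPr ν)
    (h : entT (cnv σ ν) - entT ν ≤ 1 / 256) :
    ∑ s, σ s * ∑ c, max 0 (ν (c - s) - cnv σ ν c) ≤ 1 / 16 := by
  classical
  have hJ0 : ∀ t, 0 ≤ jn2 σ ν t := fun t => mul_nonneg (hσ.1 _) (hν.1 _)
  have hml : mgl (jn2 σ ν) = σ := by
    funext s
    unfold mgl jn2
    simp only
    rw [← Finset.mul_sum, sum_sub_right ν s, hν.2, mul_one]
  have hJ1 : ∑ t, jn2 σ ν t = 1 := by
    rw [← sum_mgl, hml, hσ.2]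
  have hmi : mi (jn2 σ ν) ≤ 1 / 256 := by
    unfold mi
    rw [hml, mgr_jn2, entT_jn2 σ ν hσ.2 hν.2]
    linarith
  have hp := pinsker (jn2 σ ν) hJ0 hJ1
    (fun t => if σ t.1 * cnv σ ν t.2 < jn2 σ ν t then 1 else 0)
    (fun t => by split_ifs <;> norm_num)
    (fun t => by split_ifs <;> norm_num)
  rw [hml, mgr_jn2] at hp
  have hs : Real.sqrt (mi (jn2 σ ν)) ≤ 1 / 16 := by
    rw [Real.sqrt_le_iff]
    constructor
    · norm_num
    · exact hmi.trans (by norm_num)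
  refine le_trans (le_of_eq ?_) (hp.trans hs)
  rw [← Finset.sum_sub_distrib, Fintype.sum_prod_type]
  refine Finset.sum_congr rfl fun s _ => ?_
  rw [Finset.mul_sum]
  refine Finset.sum_congr rfl fun c _ => ?_
  have e : jn2 σ ν (s, c) = σ s * ν (c - s) := rfl
  simp only [e]
  by_cases hlt : σ s * cnv σ ν c < σ s * ν (c - s)
  · rw [if_pos hlt]
    have h1 : cnv σ ν c < ν (c - s) := lt_of_mul_lt_mul_left hlt (hσ.1 s)
    rw [max_eq_right (by linarith)]
    ring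
  · rw [if_neg hlt]
    rcases (hσ.1 s).eq_or_lt with h0 | h0
    · rw [← h0]
      ring
    · have h1 : ν (c - s) ≤ cnv σ ν c := by
        by_contra hc
        exact hlt (mul_lt_mul_of_pos_left (not_le.1 hc) h0)
      rw [max_eq_left (by linarith)]
      ring

/-- the entropy of a law with most of its mass on a set -/
theorem Reg_ent {N : ℕ} [NeZero N] (σ : ZMod N → ℝ) (hσ : IsPr σ) (T : Finset (ZMod N))
    (hT : T.Nonempty) :
    entT σ ≤ (∑ s ∈ T, σ s) * Real.log T.card + (1 - ∑ s ∈ T, σ s) * Real.log N + Real.log 2 := by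
  classical
  have hc : (0 : ℝ) < (T.card : ℝ) := by exact_mod_cast hT.card_pos
  have hN : (0 : ℝ) < (N : ℝ) := by exact_mod_cast Nat.pos_of_ne_zero (NeZero.ne N)
  have hg : ∀ p q : ℝ, 0 ≤ p → 0 < q → Real.negMulLog p ≤ -(p * Real.log q) + (q - p) := by
    intro p q hp hq
    rcases hp.eq_or_lt with h0 | h0
    · rw [← h0]
      simp [hq.le]
    · have h1 := Real.log_le_sub_one_of_pos (div_pos hq h0)
      rw [Real.log_div hq.ne' h0.ne'] at h1
      have h2 := mul_le_mul_of_nonneg_left h1 hp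
      have h3 : p * (q / p - 1) = q - p := by
        field_simp
      rw [h3] at h2
      unfold Real.negMulLog
      linarith
  let q : ZMod N → ℝ := fun s => if s ∈ T then (2 * (T.card : ℝ))⁻¹ else (2 * (N : ℝ))⁻¹
  have hq : ∀ s, 0 < q s := by
    intro s
    simp only [q]
    split_ifs <;> positivity
  have hsplit : ∀ f : ZMod N → ℝ, ∑ s, f s = ∑ s ∈ T, f s + ∑ s ∈ Tᶜ, f s := by
    intro f
    exact (Finset.sum_add_sum_compl T f).symm
  have hq1 : ∑ s, q s ≤ 1 := by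
    rw [hsplit]
    have h1 : ∑ s ∈ T, q s = 1 / 2 := by
      have : ∀ s ∈ T, q s = (2 * (T.card : ℝ))⁻¹ := fun s hs => if_pos hs
      rw [Finset.sum_congr rfl this, Finset.sum_const, nsmul_eq_mul]
      field_simp
    have h2 : ∑ s ∈ Tᶜ, q s ≤ 1 / 2 := by
      have : ∀ s ∈ Tᶜ, q s = (2 * (N : ℝ))⁻¹ := fun s hs => if_neg (Finset.mem_compl.1 hs)
      rw [Finset.sum_congr rfl this, Finset.sum_const, nsmul_eq_mul]
      have h3 : ((Tᶜ.card : ℕ) : ℝ) ≤ (N : ℝ) := by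
        have := Finset.card_le_univ Tᶜ
        rw [ZMod.card] at this
        exact_mod_cast this
      calc ((Tᶜ.card : ℕ) : ℝ) * (2 * (N : ℝ))⁻¹ ≤ (N : ℝ) * (2 * (N : ℝ))⁻¹ :=
            mul_le_mul_of_nonneg_right h3 (by positivity)
        _ = 1 / 2 := by field_simp
    linarith
  have hcompl : ∑ s ∈ Tᶜ, σ s = 1 - ∑ s ∈ T, σ s := by
    have := hsplit σ
    rw [hσ.2] at this
    linarith
  have hlog : ∑ s, σ s * Real.log (q s) =
      -((∑ s ∈ T, σ s) * (Real.log 2 + Real.log T.card))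
        - (1 - ∑ s ∈ T, σ s) * (Real.log 2 + Real.log N) := by
    rw [hsplit]
    have h1 : ∑ s ∈ T, σ s * Real.log (q s) =
        -((∑ s ∈ T, σ s) * (Real.log 2 + Real.log T.card)) := by
      rw [Finset.sum_mul, ← Finset.sum_neg_distrib]
      refine Finset.sum_congr rfl fun s hs => ?_
      have e : q s = (2 * (T.card : ℝ))⁻¹ := if_pos hs
      rw [e, Real.log_inv, Real.log_mul (by norm_num) hc.ne']
      ring
    have h2 : ∑ s ∈ Tᶜ, σ s * Real.log (q s) =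
        -((∑ s ∈ Tᶜ, σ s) * (Real.log 2 + Real.log N)) := by
      rw [Finset.sum_mul, ← Finset.sum_neg_distrib]
      refine Finset.sum_congr rfl fun s hs => ?_
      have e : q s = (2 * (N : ℝ))⁻¹ := if_neg (Finset.mem_compl.1 hs)
      rw [e, Real.log_inv, Real.log_mul (by norm_num) hN.ne']
      ring
    rw [h1, h2, hcompl]
    ring
  have hsum : entT σ ≤ -(∑ s, σ s * Real.log (q s)) + (∑ s, q s - ∑ s, σ s) := by
    unfold entT
    rw [← Finset.sum_neg_distrib, ← Finset.sum_sub_distrib, ← Finset.sum_add_distrib]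
    exact Finset.sum_le_sum fun s _ => hg (σ s) (q s) (hσ.1 s) (hq s)
  rw [hσ.2, hlog] at hsum
  nlinarith

theorem regA {N : ℕ} [NeZero N] (σ : ZMod N → ℝ) (hσ : IsPr σ) (M : ℝ) (hM1 : 1 ≤ M)
    (hM : Real.log N - entT σ ≤ M) :
    ∃ (m : ℕ) (T : Finset (ZMod N)), ((m : ℝ) + 1) ≤ 257 * M ∧ T.Nonempty ∧
      Real.log N - Real.log T.card ≤ 4 / 3 * (M + Real.log 2) ∧
      ∀ s ∈ T, ∀ s' ∈ T, 1 / 2 ≤ ∑ c, min (cpow σ m (c - s)) (cpow σ m (c - s')) := by
  classical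
  obtain ⟨m, hm, hme⟩ := Reg_exists σ hσ M hM1 hM
  have hν := Reg_pr σ hσ m
  have hR : IsPr (cnv σ (cpow σ m)) := hσ.cnv hν
  have hd := Reg_delta σ (cpow σ m) hσ hν hme
  let δ : ZMod N → ℝ := fun s => ∑ c, max 0 (cpow σ m (c - s) - cnv σ (cpow σ m) c)
  have hδ0 : ∀ s, 0 ≤ δ s := fun s => Finset.sum_nonneg fun c _ => le_max_left _ _
  have hd' : ∑ s, σ s * δ s ≤ 1 / 16 := hd
  let T : Finset (ZMod N) := Finset.univ.filter fun s => δ s ≤ 1 / 4
  have hTc : ∑ s ∈ Tᶜ, σ s ≤ 1 / 4 := by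
    have h1 : ∑ s ∈ Tᶜ, σ s * (1 / 4) ≤ ∑ s ∈ Tᶜ, σ s * δ s := by
      refine Finset.sum_le_sum fun s hs => mul_le_mul_of_nonneg_left ?_ (hσ.1 s)
      have h2 := Finset.mem_compl.1 hs
      by_contra h3
      exact h2 (Finset.mem_filter.2 ⟨Finset.mem_univ _, (not_le.1 h3).le⟩)
    have h2 : ∑ s ∈ Tᶜ, σ s * δ s ≤ ∑ s, σ s * δ s :=
      Finset.sum_le_sum_of_subset_of_nonneg (Finset.subset_univ _)
        fun s _ _ => mul_nonneg (hσ.1 s) (hδ0 s)
    rw [← Finset.sum_mul] at h1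
    linarith
  have hTm : 3 / 4 ≤ ∑ s ∈ T, σ s := by
    have h1 := Finset.sum_add_sum_compl T σ
    rw [hσ.2] at h1
    linarith
  have hTne : T.Nonempty := by
    rw [Finset.nonempty_iff_ne_empty]
    intro h0
    rw [h0, Finset.sum_empty] at hTm
    linarith
  refine ⟨m, T, hm, hTne, ?_, ?_⟩
  · have h1 := Reg_ent σ hσ T hTne
    have h2 : Real.log T.card ≤ Real.log N := by
      apply Real.log_le_log (by exact_mod_cast hTne.card_pos)
      have := Finset.card_le_univ T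
      rw [ZMod.card] at this
      exact_mod_cast this
    have h3 : (∑ s ∈ T, σ s) * (Real.log N - Real.log T.card) ≤ M + Real.log 2 := by
      nlinarith
    have h4 : 3 / 4 * (Real.log N - Real.log T.card) ≤
        (∑ s ∈ T, σ s) * (Real.log N - Real.log T.card) :=
      mul_le_mul_of_nonneg_right hTm (by linarith)
    linarith
  · intro s hs s' hs'
    have h1 : δ s ≤ 1 / 4 := (Finset.mem_filter.1 hs).2
    have h2 : δ s' ≤ 1 / 4 := (Finset.mem_filter.1 hs').2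
    have h3 : ∑ c, (cpow σ m (c - s) + cpow σ m (c - s') - cnv σ (cpow σ m) c
        - max 0 (cpow σ m (c - s) - cnv σ (cpow σ m) c)
        - max 0 (cpow σ m (c - s') - cnv σ (cpow σ m) c)) ≤
        ∑ c, min (cpow σ m (c - s)) (cpow σ m (c - s')) :=
      Finset.sum_le_sum fun c _ => Reg_min _ _ _
    rw [Finset.sum_sub_distrib, Finset.sum_sub_distrib, Finset.sum_sub_distrib,
      Finset.sum_add_distrib, sum_sub_right (cpow σ m) s, sum_sub_right (cpow σ m) s', hν.2,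
      hR.2] at h3
    have h4 : ∑ c, max 0 (cpow σ m (c - s) - cnv σ (cpow σ m) c) = δ s := rfl
    have h5 : ∑ c, max 0 (cpow σ m (c - s') - cnv σ (cpow σ m) c) = δ s' := rfl
    rw [h4, h5] at h3
    linarith

end Pool.H84.IT
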