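import Pool.Agent.H84.IT.GL

set_option autoImplicit false

/-!
Row IT_SumA. Positivity: characters almost constant on `T` are controlled, so `x ∈ kT - kT`.

`σ = unif T`. The function `F x = ∑_γ (‖wft σ γ‖^2)^k ee (γ x)` is `N` times the law of
`a_1 + .. + a_k - b_1 - .. - b_k`, `a_i, b_i` uniform in `T` (e.g. `rep_avg2_iter` applied to the
point mass, or by hand), so if `F x ≠ 0` then `x = ∑ a_i - ∑ b_i`. `γ = 0` contributes `1`;
`‖wft σ γ‖ ≥ 1 - η`: the real part is `≥ 0` (`re_ee_nonneg`); the others contribute at most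
`(1-η)^(2(k-1)) ∑ ‖wft σ γ‖^2 = (1-η)^(2(k-1)) N/|T| < 1`.
-/

namespace Pool.H84.IT

open Pool.H84.CP Pool.Agent.H18

open scoped Pointwise in
theorem SumA_supp {N : ℕ} [NeZero N] (T : Finset (ZMod N)) (k : ℕ) :
    ∀ x : ZMod N, ((avg2 T)^[k] (fun y => if y = 0 then (1 : ℝ) else 0)) x ≠ 0 →
      ∃ a b : Fin k → ZMod N, (∀ i, a i ∈ T) ∧ (∀ i, b i ∈ T) ∧ x = ∑ i, a i - ∑ i, b i := by
  induction k with
  | zero =>
    intro x hx
    refine ⟨Fin.elim0, Fin.elim0, fun i => i.elim0, fun i => i.elim0, ?_⟩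
    simp only [Function.iterate_zero, id_eq] at hx
    by_contra h
    apply hx
    rw [if_neg]
    intro h0
    apply h
    rw [h0]
    simp
  | succ k ih =>
    intro x hx
    rw [Function.iterate_succ_apply'] at hx
    unfold avg2 cnv at hx
    obtain ⟨s, _, hs⟩ := Finset.exists_ne_zero_of_sum_ne_zero hx
    obtain ⟨t, _, ht⟩ := Finset.exists_ne_zero_of_sum_ne_zero (right_ne_zero_of_mul hs)
    have hsT : s ∈ T := mem_of_unif_ne_zero _ _ (left_ne_zero_of_mul hs)
    have htT : t ∈ -T := mem_of_unif_ne_zero _ _ (left_ne_zero_of_mul ht)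
    have h0 : ((avg2 T)^[k] (fun y => if y = 0 then (1 : ℝ) else 0)) (x - s - t) ≠ 0 :=
      right_ne_zero_of_mul ht
    obtain ⟨a, b, ha, hb, hab⟩ := ih _ h0
    rw [Finset.mem_neg'] at htT
    refine ⟨Fin.cons s a, Fin.cons (-t) b, ?_, ?_, ?_⟩
    · intro i
      refine Fin.cases ?_ (fun j => ?_) i
      · simpa using hsT
      · simpa using ha j
    · intro i
      refine Fin.cases ?_ (fun j => ?_) i
      · simpa using htT
      · simpa using hb j
    · rw [Fin.sum_cons, Fin.sum_cons]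
      have : x = (x - s - t) + s + t := by ring
      rw [this, hab]
      ring

theorem SumA_wft0 {N : ℕ} [NeZero N] (γ : ZMod N) :
    wft (fun y : ZMod N => if y = 0 then (1 : ℝ) else 0) γ = 1 := by
  unfold wft
  rw [Finset.sum_eq_single (0 : ZMod N)]
  · simp [ee_zero]
  · intro b _ hb
    simp [hb]
  · intro h
    exact absurd (Finset.mem_univ _) h

theorem SumA_val {N : ℕ} [NeZero N] (T : Finset (ZMod N)) (k : ℕ) (x : ZMod N) :
    (N : ℝ) * ((avg2 T)^[k] (fun y => if y = 0 then (1 : ℝ) else 0)) x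
      = ∑ γ, (‖wft (unif T) γ‖ ^ 2) ^ k * (ee (γ * x)).re := by
  have h := rep_avg2_iter T _ _ (rep_inv (fun y : ZMod N => if y = 0 then (1 : ℝ) else 0)) k x
  have hN : (N : ℂ) ≠ 0 := by exact_mod_cast NeZero.ne N
  have h1 : (((N : ℝ) * ((avg2 T)^[k] (fun y => if y = 0 then (1 : ℝ) else 0)) x : ℝ) : ℂ)
      = ∑ γ, (((‖wft (unif T) γ‖ ^ 2) ^ k : ℝ) : ℂ) * ee (γ * x) := by
    rw [Complex.ofReal_mul, h, Finset.mul_sum]
    refine Finset.sum_congr rfl fun γ _ => ?_
    beta_reduce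
    rw [SumA_wft0]
    rw [Complex.ofReal_natCast]
    field_simp
  have h2 := congrArg Complex.re h1
  rw [Complex.ofReal_re, Complex.re_sum] at h2
  rw [h2]
  refine Finset.sum_congr rfl fun γ _ => ?_
  rw [Complex.re_ofReal_mul]

theorem mem_sum {N : ℕ} [NeZero N] (T : Finset (ZMod N)) (hT : T.Nonempty) (k : ℕ) (hk : 1 ≤ k)
    (η : ℝ) (hη : 0 ≤ η) (hη1 : η ≤ 1)
    (hkη : (1 - η) ^ (k - 1) * ((N : ℝ) / (T.card : ℝ)) < 1) (x : ZMod N)
    (hx : ∀ γ, 1 - η ≤ ‖wft (unif T) γ‖ → bn (γ * x) ≤ 1 / 4) :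
    ∃ a b : Fin k → ZMod N, (∀ i, a i ∈ T) ∧ (∀ i, b i ∈ T) ∧ x = ∑ i, a i - ∑ i, b i := by
  apply SumA_supp T k x
  intro h0
  have hval := SumA_val T k x
  rw [h0, mul_zero] at hval
  have hTc : (0 : ℝ) < (T.card : ℝ) := by exact_mod_cast hT.card_pos
  have hw1 : ∀ γ, ‖wft (unif T) γ‖ ≤ 1 := fun γ => by
    have := norm_wft_le (unif T) (unif_nonneg T) γ
    rwa [sum_unif T hT] at this
  have hq0 : 0 ≤ 1 - η := by linarith
  have hterm : ∀ γ ∈ (Finset.univ : Finset (ZMod N)),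
      (if γ = 0 then (1 : ℝ) else 0) - (1 - η) ^ (k - 1) * ‖wft (unif T) γ‖ ^ 2
        ≤ (‖wft (unif T) γ‖ ^ 2) ^ k * (ee (γ * x)).re := by
    intro γ _
    have hnn : 0 ≤ (1 - η) ^ (k - 1) * ‖wft (unif T) γ‖ ^ 2 := by positivity
    by_cases hγ : γ = 0
    · rw [if_pos hγ, hγ, zero_mul, ee_zero]
      have hw0 : wft (unif T) (0 : ZMod N) = 1 := by
        unfold wft
        simp only [zero_mul, neg_zero, ee_zero, mul_one]
        rw [← Complex.ofReal_sum, sum_unif T hT]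
        simp
      rw [hw0]
      rw [hγ, hw0] at hnn
      simp only [norm_one, one_pow, Complex.one_re, mul_one] at hnn ⊢
      linarith
    · rw [if_neg hγ, zero_sub]
      by_cases hg : 1 - η ≤ ‖wft (unif T) γ‖
      · have h1 := re_ee_nonneg (γ * x) (hx γ hg)
        have h2 : 0 ≤ (‖wft (unif T) γ‖ ^ 2) ^ k * (ee (γ * x)).re := by positivity
        linarith
      · push Not at hg
        obtain ⟨j, rfl⟩ : ∃ j, k = j + 1 := ⟨k - 1, by omega⟩
        rw [Nat.add_sub_cancel]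
        have hre : -1 ≤ (ee (γ * x)).re := by
          have h1 := Complex.abs_re_le_norm (ee (γ * x))
          rw [norm_ee] at h1
          exact (abs_le.1 h1).1
        have h3 : (‖wft (unif T) γ‖ ^ 2) ^ j ≤ (1 - η) ^ j := by
          apply pow_le_pow_left₀ (by positivity)
          have h4 := norm_nonneg (wft (unif T) γ)
          have h5 := hw1 γ
          nlinarith
        have h6 : (‖wft (unif T) γ‖ ^ 2) ^ (j + 1) ≤ (1 - η) ^ j * ‖wft (unif T) γ‖ ^ 2 := by
          rw [pow_succ]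
          exact mul_le_mul_of_nonneg_right h3 (by positivity)
        have h7 : 0 ≤ (‖wft (unif T) γ‖ ^ 2) ^ (j + 1) := by positivity
        nlinarith
  have hsum := Finset.sum_le_sum hterm
  rw [← hval, Finset.sum_sub_distrib, ← Finset.mul_sum, sum_wft_unif_sq T hT] at hsum
  simp only [Finset.sum_ite_eq', Finset.mem_univ, if_true] at hsum
  linarith

end Pool.H84.IT
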