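import Pool.Agent.H84.IT.GL
import Pool.Agent.H84.IT.SumA

set_option autoImplicit false

/-!
Row IT_SumG. The general form of the iterated sumset theorem: `gl` for `σ = unif X` (`ent_unif`)
with `η = 1 / (64 * 257 * M * q^4)` and `mem_sum`:
`(1-η)^(k-1) * (N/|X|) ≤ exp (-(k-1) η) * exp M < 1` because `(k - 1) η > M`.
-/

namespace Pool.H84.IT

open Pool.H84.CP Pool.Agent.H18

theorem sum_gen {N q : ℕ} [NeZero N] (X : Finset (ZMod N)) (hX : X.Nonempty) (M : ℝ)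
    (hM1 : 1 ≤ M) (hM : Real.log ((N : ℝ) / (X.card : ℝ)) ≤ M) (hq : 2 ≤ q)
    (hqM : 6 * M ≤ q * Real.log q) (k : ℕ)
    (hk : 64 * 257 * M ^ 2 * (q : ℝ) ^ 4 + 1 < (k : ℝ)) :
    ∃ Λ : Finset (ZMod N), (Λ.card : ℝ) ≤ 15 * M / Real.log q + 2 ∧
      ∀ x : ZMod N, (∀ γ ∈ Λ, bn (γ * x) ≤ 1 / (4 * (q : ℝ))) →
        ∃ a b : Fin k → ZMod N, (∀ i, a i ∈ X) ∧ (∀ i, b i ∈ X) ∧ x = ∑ i, a i - ∑ i, b i := by
  have hNpos : (0 : ℝ) < (N : ℝ) := by exact_mod_cast Nat.pos_of_ne_zero (NeZero.ne N)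
  have hXc : (0 : ℝ) < (X.card : ℝ) := by exact_mod_cast hX.card_pos
  have hM0 : 0 < M := by linarith
  have hqr : (2 : ℝ) ≤ (q : ℝ) := by exact_mod_cast hq
  have hratio : (N : ℝ) / (X.card : ℝ) ≤ Real.exp M := by
    have h1 := Real.exp_le_exp.mpr hM
    rwa [Real.exp_log (div_pos hNpos hXc)] at h1
  have hent : Real.log N - entT (unif X) ≤ M := by
    have h1 : entT (unif X) = Real.log X.card := ent_unif X hX
    rw [h1, ← Real.log_div hNpos.ne' hXc.ne']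
    exact hM
  have hD0 : 0 < 64 * 257 * M * (q : ℝ) ^ 4 := by positivity
  obtain ⟨η, hη⟩ : ∃ η : ℝ, η = 1 / (64 * 257 * M * (q : ℝ) ^ 4) := ⟨_, rfl⟩
  have hη0 : 0 ≤ η := by rw [hη]; positivity
  have hηD' : η * (64 * 257 * M * (q : ℝ) ^ 4) = 1 := by
    rw [hη]
    exact div_mul_cancel₀ (1 : ℝ) hD0.ne'
  have hηpos : 0 < η := by rw [hη]; positivity
  have hD1 : 1 ≤ 64 * 257 * M * (q : ℝ) ^ 4 := by
    have h1 : (1 : ℝ) ≤ (q : ℝ) ^ 4 := one_le_pow₀ (by linarith)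
    nlinarith
  have hη1 : η ≤ 1 := by
    rw [hη, div_le_one hD0]
    exact hD1
  obtain ⟨Λ, hΛ, hΛ2⟩ := gl (unif X) ⟨unif_nonneg X, sum_unif X hX⟩ M hM1 hent hq hqM η hη0
    hηD'.le
  refine ⟨Λ, hΛ, ?_⟩
  intro x hx
  have hkr : (1 : ℝ) < (k : ℝ) := by
    have : 0 ≤ 64 * 257 * M ^ 2 * (q : ℝ) ^ 4 := by positivity
    linarith
  have hk1 : 1 ≤ k := by
    have : (1 : ℝ) ≤ (k : ℝ) := hkr.le
    exact_mod_cast this
  have hkη : M < ((k - 1 : ℕ) : ℝ) * η := by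
    rw [Nat.cast_sub hk1, Nat.cast_one]
    have h1 : 64 * 257 * M ^ 2 * (q : ℝ) ^ 4 < (k : ℝ) - 1 := by linarith
    have h2 := mul_lt_mul_of_pos_right h1 hηpos
    have h3 : 64 * 257 * M ^ 2 * (q : ℝ) ^ 4 * η = M := by
      calc 64 * 257 * M ^ 2 * (q : ℝ) ^ 4 * η
          = M * (η * (64 * 257 * M * (q : ℝ) ^ 4)) := by ring
        _ = M := by rw [hηD', mul_one]
    rw [h3] at h2
    exact h2
  have hpow : (1 - η) ^ (k - 1) ≤ Real.exp (-(((k - 1 : ℕ) : ℝ) * η)) := by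
    have h1 : 1 - η ≤ Real.exp (-η) := by
      have := Real.add_one_le_exp (-η)
      linarith
    calc (1 - η) ^ (k - 1) ≤ Real.exp (-η) ^ (k - 1) :=
          pow_le_pow_left₀ (by linarith) h1 _
      _ = Real.exp (-(((k - 1 : ℕ) : ℝ) * η)) := by
          rw [← Real.exp_nat_mul]
          congr 1
          ring
  have hfin : (1 - η) ^ (k - 1) * ((N : ℝ) / (X.card : ℝ)) < 1 := by
    calc (1 - η) ^ (k - 1) * ((N : ℝ) / (X.card : ℝ))
        ≤ Real.exp (-(((k - 1 : ℕ) : ℝ) * η)) * Real.exp M :=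
          mul_le_mul hpow hratio (div_pos hNpos hXc).le (Real.exp_pos _).le
      _ = Real.exp (-(((k - 1 : ℕ) : ℝ) * η) + M) := by rw [Real.exp_add]
      _ < Real.exp 0 := Real.exp_lt_exp.mpr (by linarith)
      _ = 1 := Real.exp_zero
  refine mem_sum X hX k hk1 η hη0 hη1 hfin x ?_
  intro γ hγ
  refine (hΛ2 x hx γ hγ).trans ?_
  refine div_le_div_of_nonneg_left (by norm_num) (by norm_num) ?_
  linarith

end Pool.H84.IT
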